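import Mathlib

/-!
# Existence of the annealed free energy of a charged polymer (MP_8e4414_pr): definitions

Walks are lists of sites of `ℤ^d`; the weight of a list is `∏_x g(ℓ(x))`.
-/

set_option autoImplicit false

open scoped ENNReal

namespace Pool.Agent.R651.CP

/-- The sites of `ℤ^d`. -/
abbrev V (d : ℕ) : Type := Fin d → ℤ

variable {d : ℕ}

/-- Nearest neighbours. -/
def Adj (x y : V d) : Prop := ∑ i, |x i - y i| = 1

/-- The weight of a list of visited sites. -/
noncomputable def w (g : ℕ → ℝ≥0∞) (l : List (V d)) : ℝ≥0∞ := ∏ x ∈ l.toFinset, g (l.count x)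

/-- The standing assumptions on `g`. -/
structure Ok (g : ℕ → ℝ≥0∞) (κ : ℝ≥0∞) : Prop where
  g0 : g 0 = 1
  gle : ∀ n, g n ≤ 1
  κ0 : κ ≠ 0
  κ1 : κ ≤ 1
  gs : ∀ n, κ * g n ≤ g (n + 1)

/-- A walk with `n` sites from `a` to `b`. -/
def IsW (a b : V d) (n : ℕ) (l : List (V d)) : Prop :=
  l.length = n ∧ l.IsChain Adj ∧ l.head? = some a ∧ l.getLast? = some b

/-- A closed walk (loop) with `n` sites and head `s`. -/
def IsL (s : V d) (n : ℕ) (l : List (V d)) : Prop :=
  l.length = n ∧ l.IsChain Adj ∧ l.head? = some s ∧ ∀ x ∈ l.getLast?, Adj x s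

/-- The sum of the weights of the families `f` of lists with `P_i (f_i)` for all `i`. -/
noncomputable def FS (g : ℕ → ℝ≥0∞) (ps : List (List (V d) → Prop)) : ℝ≥0∞ :=
  ∑' f : {f : List (List (V d)) // List.Forall₂ (fun P l => P l) ps f}, w g f.1.flatten

/-- The partition function of the walks with `n` sites and head `s`. -/
noncomputable def Y (g : ℕ → ℝ≥0∞) (s : V d) (n : ℕ) : ℝ≥0∞ :=
  ∑' l : {l : List (V d) // l.length = n ∧ l.IsChain Adj ∧ l.head? = some s}, w g l.1

/-- The partition function of the loops with `n` sites and head `s`. -/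
noncomputable def Cl (g : ℕ → ℝ≥0∞) (s : V d) (n : ℕ) : ℝ≥0∞ :=
  ∑' l : {l : List (V d) // IsL s n l}, w g l.1

/-! ### Basic facts -/

lemma w_nil (g : ℕ → ℝ≥0∞) : w g ([] : List (V d)) = 1 := by simp [w]

lemma w_perm {g : ℕ → ℝ≥0∞} {l l' : List (V d)} (h : l.Perm l') : w g l = w g l' := by
  unfold w
  rw [List.toFinset_eq_of_perm _ _ h]
  exact Finset.prod_congr rfl (fun x _ => by rw [h.count_eq])

/-- The product may be taken over every larger finite set. -/
lemma w_eq_prod {g : ℕ → ℝ≥0∞} (g0 : g 0 = 1) {l : List (V d)} {F : Finset (V d)}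
    (h : l.toFinset ⊆ F) : w g l = ∏ x ∈ F, g (l.count x) := by
  unfold w
  refine Finset.prod_subset h (fun x _ hx => ?_)
  rw [List.count_eq_zero.mpr (fun hx' => hx (List.mem_toFinset.mpr hx')), g0]

lemma w_le_one {g : ℕ → ℝ≥0∞} {κ : ℝ≥0∞} (h : Ok g κ) (l : List (V d)) : w g l ≤ 1 :=
  Finset.prod_le_one' (fun _ _ => h.gle _)

lemma w_append_of_disjoint {g : ℕ → ℝ≥0∞} {l l' : List (V d)} (h : ∀ x ∈ l, x ∉ l') :
    w g (l ++ l') = w g l * w g l' := by
  unfold w
  rw [List.toFinset_append, Finset.prod_union]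
  · congr 1
    · refine Finset.prod_congr rfl (fun x hx => ?_)
      rw [List.count_append, List.count_eq_zero.mpr (h x (List.mem_toFinset.mp hx)), add_zero]
    · refine Finset.prod_congr rfl (fun x hx => ?_)
      rw [List.count_append, List.count_eq_zero.mpr
        (fun hx' => h x hx' (List.mem_toFinset.mp hx)), zero_add]
  · rw [Finset.disjoint_left]
    intro x hx hx'
    exact h x (List.mem_toFinset.mp hx) (List.mem_toFinset.mp hx')

lemma w_map {g : ℕ → ℝ≥0∞} {f : V d → V d} (hf : Function.Injective f) (l : List (V d)) :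
    w g (l.map f) = w g l := by
  unfold w
  have e : (l.map f).toFinset = l.toFinset.map ⟨f, hf⟩ := by
    ext x; simp
  rw [e, Finset.prod_map]
  refine Finset.prod_congr rfl (fun x _ => ?_)
  congr 1
  exact List.count_map_of_injective l f hf x

lemma w_cons_ge {g : ℕ → ℝ≥0∞} {κ : ℝ≥0∞} (h : Ok g κ) (x : V d) (l : List (V d)) :
    κ * w g l ≤ w g (x :: l) := by
  have h1 : l.toFinset ⊆ (x :: l).toFinset := by
    rw [List.toFinset_cons]; exact Finset.subset_insert _ _
  rw [w_eq_prod h.g0 h1]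
  unfold w
  have hx : x ∈ (x :: l).toFinset := by simp
  rw [← Finset.mul_prod_erase _ _ hx, ← Finset.mul_prod_erase _ (fun y => g ((x :: l).count y)) hx,
    ← mul_assoc]
  refine mul_le_mul' ?_ (le_of_eq (Finset.prod_congr rfl (fun y hy => ?_)))
  · rw [List.count_cons_self]
    exact h.gs _
  · rw [List.count_cons_of_ne (Finset.ne_of_mem_erase hy).symm]

lemma w_append_ge {g : ℕ → ℝ≥0∞} {κ : ℝ≥0∞} (h : Ok g κ) (l r : List (V d)) :
    κ ^ r.length * w g l ≤ w g (l ++ r) := by
  have key : κ ^ r.length * w g l ≤ w g (r ++ l) := by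
    induction r with
    | nil => simp
    | cons x r ih =>
      rw [List.length_cons, pow_succ', mul_assoc, List.cons_append]
      exact (mul_le_mul' le_rfl ih).trans (w_cons_ge h x _)
  rw [w_perm (List.perm_append_comm (l₁ := l) (l₂ := r))]
  exact key

/-- Comparison of sums by an injective map with finitely many marks. -/
lemma tsum_le_of_injective {α β : Type*} {m : ℕ} {f : α → ℝ≥0∞} {F : β → ℝ≥0∞} {c : ℝ≥0∞}
    (i : α → Fin m × β) (hi : Function.Injective i) (h : ∀ a, f a ≤ c * F (i a).2) :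
    ∑' a, f a ≤ m * c * ∑' b, F b := by
  calc ∑' a, f a ≤ ∑' a, c * F (i a).2 := ENNReal.tsum_le_tsum h
    _ ≤ ∑' p : Fin m × β, c * F p.2 :=
        ENNReal.tsum_comp_le_tsum_of_injective hi (fun p : Fin m × β => c * F p.2)
    _ = m * c * ∑' b, F b := by
        rw [ENNReal.tsum_prod' (f := fun p : Fin m × β => c * F p.2)]
        simp only [ENNReal.tsum_mul_left, tsum_fintype, Finset.sum_const, Finset.card_univ,
          Fintype.card_fin, nsmul_eq_mul, mul_assoc]

end Pool.Agent.R651.CP
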