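import Pool.Agent.R651.CP.Stm

/-!
# The function `g_{δ,β}` of the tilted charges (piece CH)
-/

set_option autoImplicit false

open scoped ENNReal Topology
open Filter MeasureTheory

namespace Pool.Agent.R651.CP

section CHaux

variable {ν : Measure ℝ} [IsProbabilityMeasure ν] {β : ℝ}

lemma ch_meas (β s : ℝ) : Measurable fun x : ℝ => Real.exp (-β * (s + x) ^ 2) := by
  fun_prop

lemma ch_int (hβ : 0 < β) (s : ℝ) : Integrable (fun x : ℝ => Real.exp (-β * (s + x) ^ 2)) ν := by
  refine Integrable.of_bound (ch_meas β s).aestronglyMeasurable 1 (Eventually.of_forall fun x => ?_)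
  rw [Real.norm_eq_abs, abs_of_pos (Real.exp_pos _)]
  exact Real.exp_le_one_iff.2 (by nlinarith [sq_nonneg (s + x), mul_nonneg hβ.le (sq_nonneg (s + x))])

lemma ch_lower (hβ : 0 < β) (s : ℝ) :
    min (∫ x in {x : ℝ | x ≤ 0}, Real.exp (-β * x ^ 2) ∂ν)
      (∫ x in {x : ℝ | 0 ≤ x}, Real.exp (-β * x ^ 2) ∂ν) * Real.exp (-β * s ^ 2) ≤
      ∫ x, Real.exp (-β * (s + x) ^ 2) ∂ν := by
  have h0 : Integrable (fun x : ℝ => Real.exp (-β * x ^ 2)) ν := by
    have := ch_int (ν := ν) hβ 0
    simpa using this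
  have hgen : ∀ S : Set ℝ, MeasurableSet S → (∀ x ∈ S, s * x ≤ 0) →
      (∫ x in S, Real.exp (-β * x ^ 2) ∂ν) * Real.exp (-β * s ^ 2) ≤
        ∫ x, Real.exp (-β * (s + x) ^ 2) ∂ν := by
    intro S hS hsx
    rw [← integral_mul_const]
    refine le_trans ?_ (setIntegral_le_integral (s := S) (ch_int hβ s)
      (Eventually.of_forall fun x => (Real.exp_pos _).le))
    apply setIntegral_mono_on (h0.mul_const _).integrableOn (ch_int hβ s).integrableOn hS
    intro x hx
    rw [← Real.exp_add]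
    apply Real.exp_le_exp.2
    have := mul_nonneg hβ.le (neg_nonneg.2 (hsx x hx))
    nlinarith
  have he := Real.exp_pos (-β * s ^ 2)
  rcases le_total 0 s with hs | hs
  · refine le_trans (mul_le_mul_of_nonneg_right (min_le_left _ _) he.le) ?_
    exact hgen _ measurableSet_Iic (fun x hx => mul_nonpos_of_nonneg_of_nonpos hs hx)
  · refine le_trans (mul_le_mul_of_nonneg_right (min_le_right _ _) he.le) ?_
    exact hgen _ measurableSet_Ici (fun x hx => mul_nonpos_of_nonpos_of_nonneg hs hx)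

/-- the mean over `n` charges -/
noncomputable def hh (ν : Measure ℝ) (β : ℝ) (n : ℕ) : ℝ :=
  ∫ ω : Fin n → ℝ, Real.exp (-β * (∑ i, ω i) ^ 2) ∂(Measure.pi (fun _ : Fin n => ν))

lemma hh_meas (β : ℝ) (n : ℕ) :
    Measurable fun ω : Fin n → ℝ => Real.exp (-β * (∑ i, ω i) ^ 2) := by
  fun_prop

lemma hh_int (hβ : 0 < β) (n : ℕ) : Integrable
    (fun ω : Fin n → ℝ => Real.exp (-β * (∑ i, ω i) ^ 2)) (Measure.pi (fun _ : Fin n => ν)) := by
  refine Integrable.of_bound (hh_meas β n).aestronglyMeasurable 1 (Eventually.of_forall fun x => ?_)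
  rw [Real.norm_eq_abs, abs_of_pos (Real.exp_pos _)]
  exact Real.exp_le_one_iff.2 (by
    nlinarith [mul_nonneg hβ.le (sq_nonneg (∑ i, x i))])

lemma hh_pos (hβ : 0 < β) (n : ℕ) : 0 < hh ν β n :=
  integral_exp_pos (hh_int hβ n)

lemma hh_le (hβ : 0 < β) (n : ℕ) : hh ν β n ≤ 1 := by
  unfold hh
  calc ∫ ω : Fin n → ℝ, Real.exp (-β * (∑ i, ω i) ^ 2) ∂(Measure.pi (fun _ : Fin n => ν))
      ≤ ∫ _ω : Fin n → ℝ, (1 : ℝ) ∂(Measure.pi (fun _ : Fin n => ν)) := by
        apply integral_mono (hh_int hβ n) (integrable_const 1)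
        intro x
        exact Real.exp_le_one_iff.2 (by
          nlinarith [mul_nonneg hβ.le (sq_nonneg (∑ i, x i))])
    _ = 1 := by simp

lemma hh_zero (β : ℝ) : hh ν β 0 = 1 := by
  unfold hh
  simp

lemma hh_succ (hβ : 0 < β) (n : ℕ) : hh ν β (n + 1) =
    ∫ ω : Fin n → ℝ, (∫ x, Real.exp (-β * ((∑ i, ω i) + x) ^ 2) ∂ν)
      ∂(Measure.pi (fun _ : Fin n => ν)) := by
  have hmp := measurePreserving_piFinSuccAbove (fun _ : Fin (n + 1) => ν) 0
  have h1 : hh ν β (n + 1) = ∫ z : ℝ × (Fin n → ℝ), Real.exp (-β * ((∑ i, z.2 i) + z.1) ^ 2)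
      ∂(ν.prod (Measure.pi (fun _ : Fin n => ν))) := by
    unfold hh
    rw [← hmp.integral_comp (MeasurableEquiv.piFinSuccAbove _ 0).measurableEmbedding]
    refine integral_congr_ae (Eventually.of_forall fun ω => ?_)
    simp only
    congr 3
    rw [Fin.sum_univ_succ, add_comm]
    rfl
  rw [h1]
  have hint : Integrable (fun z : ℝ × (Fin n → ℝ) => Real.exp (-β * ((∑ i, z.2 i) + z.1) ^ 2))
      (ν.prod (Measure.pi (fun _ : Fin n => ν))) := by
    refine Integrable.of_bound (Measurable.aestronglyMeasurable (by fun_prop)) 1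
      (Eventually.of_forall fun x => ?_)
    rw [Real.norm_eq_abs, abs_of_pos (Real.exp_pos _)]
    exact Real.exp_le_one_iff.2 (by
      nlinarith [mul_nonneg hβ.le (sq_nonneg ((∑ i, x.2 i) + x.1))])
  rw [integral_prod_symm _ hint]

end CHaux

lemma ch_pos_set {ν : Measure ℝ} [IsProbabilityMeasure ν] {β : ℝ} (hβ : 0 < β) {S : Set ℝ}
    (h : ν S ≠ 0) : 0 < ∫ x in S, Real.exp (-β * x ^ 2) ∂ν := by
  have : NeZero (ν.restrict S) := ⟨by rwa [Ne, Measure.restrict_eq_zero]⟩
  apply integral_exp_pos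
  have := ch_int (ν := ν) hβ 0
  have h2 : Integrable (fun x : ℝ => Real.exp (-β * x ^ 2)) ν := by simpa using this
  exact h2.integrableOn

theorem t_charge : S_charge := by
  intro μ _ δ β hδ hβ hexp hmean hvar
  have hprob : IsProbabilityMeasure (tilt μ δ) := isProbabilityMeasure_tilted (hexp δ)
  have hac : μ ≪ tilt μ δ := absolutelyContinuous_tilted (hexp δ)
  have hi2 : Integrable (fun x : ℝ => x ^ 2) μ := by
    by_contra hcon
    rw [integral_undef hcon] at hvar
    exact zero_ne_one hvar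
  have hi1 : Integrable (fun x : ℝ => x) μ := by
    refine Integrable.mono' ((integrable_const (1 : ℝ)).add hi2)
      measurable_id.aestronglyMeasurable (Eventually.of_forall fun x => ?_)
    simp only [Pi.add_apply, Real.norm_eq_abs]
    rw [abs_le]
    constructor <;> nlinarith [sq_nonneg (x - 1), sq_nonneg (x + 1)]
  have hneg : tilt μ δ {x : ℝ | x ≤ 0} ≠ 0 := by
    intro h0
    have h1 : μ {x : ℝ | x ≤ 0} = 0 := hac h0
    have h2 : 0 < ∫ x, x ∂μ := by
      rw [integral_pos_iff_support_of_nonneg_ae _ hi1]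
      · have h3 : Function.support (fun x : ℝ => x) = {x : ℝ | x ≤ 0}ᶜ ∪ {x : ℝ | x < 0} := by
          ext x
          simp only [Function.mem_support, Set.mem_union, Set.mem_compl_iff, Set.mem_ofPred_eq,
            not_le]
          constructor
          · intro h
            rcases lt_trichotomy x 0 with h' | h' | h'
            · exact Or.inr h'
            · exact absurd h' h
            · exact Or.inl h'
          · rintro (h | h)
            · exact h.ne'
            · exact h.ne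
        rw [h3]
        have h4 : μ ({x : ℝ | x ≤ 0}ᶜ) = 1 := by
          have hms : MeasurableSet {x : ℝ | x ≤ 0} := measurableSet_Iic
          rw [prob_compl_eq_one_sub hms, h1]
          simp
        have h5 : μ ({x : ℝ | x ≤ 0}ᶜ) ≤ μ ({x : ℝ | x ≤ 0}ᶜ ∪ {x : ℝ | x < 0}) :=
          measure_mono Set.subset_union_left
        rw [h4] at h5
        exact lt_of_lt_of_le zero_lt_one h5
      · have h6 : ∀ᵐ x ∂μ, x ∉ {x : ℝ | x ≤ 0} := measure_eq_zero_iff_ae_notMem.1 h1
        filter_upwards [h6] with x hx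
        simp only [Set.mem_ofPred_eq, not_le] at hx
        exact hx.le
    rw [hmean] at h2
    exact lt_irrefl _ h2
  have hpos : tilt μ δ {x : ℝ | 0 ≤ x} ≠ 0 := by
    intro h0
    have h1 : μ {x : ℝ | 0 ≤ x} = 0 := hac h0
    have hi1n : Integrable (fun x : ℝ => -x) μ := hi1.neg
    have h2 : 0 < ∫ x, -x ∂μ := by
      rw [integral_pos_iff_support_of_nonneg_ae _ hi1n]
      · have h4 : μ ({x : ℝ | 0 ≤ x}ᶜ) = 1 := by
          have hms : MeasurableSet {x : ℝ | 0 ≤ x} := measurableSet_Ici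
          rw [prob_compl_eq_one_sub hms, h1]
          simp
        have h5 : μ ({x : ℝ | 0 ≤ x}ᶜ) ≤ μ (Function.support (fun x : ℝ => -x)) := by
          apply measure_mono
          intro x hx
          simp only [Set.mem_compl_iff, Set.mem_ofPred_eq, not_le] at hx
          simp only [Function.mem_support, ne_eq, neg_eq_zero]
          exact hx.ne
        rw [h4] at h5
        exact lt_of_lt_of_le zero_lt_one h5
      · have h6 : ∀ᵐ x ∂μ, x ∉ {x : ℝ | 0 ≤ x} := measure_eq_zero_iff_ae_notMem.1 h1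
        filter_upwards [h6] with x hx
        simp only [Set.mem_ofPred_eq, not_le] at hx
        simp only [Pi.zero_apply]
        linarith
    rw [integral_neg, hmean, neg_zero] at h2
    exact lt_irrefl _ h2
  set κ : ℝ := min (∫ x in {x : ℝ | x ≤ 0}, Real.exp (-β * x ^ 2) ∂(tilt μ δ))
      (∫ x in {x : ℝ | 0 ≤ x}, Real.exp (-β * x ^ 2) ∂(tilt μ δ)) with hκ
  have hκ0 : 0 < κ := lt_min (ch_pos_set hβ hneg) (ch_pos_set hβ hpos)
  have hstep : ∀ n, κ * gg μ δ β n ≤ gg μ δ β (n + 1) := by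
    intro n
    change κ * hh (tilt μ δ) β n ≤ hh (tilt μ δ) β (n + 1)
    rw [hh_succ hβ]
    unfold hh
    rw [← integral_const_mul]
    have hb : ∀ s : ℝ, 0 ≤ ∫ x, Real.exp (-β * (s + x) ^ 2) ∂(tilt μ δ) ∧
        ∫ x, Real.exp (-β * (s + x) ^ 2) ∂(tilt μ δ) ≤ 1 := by
      intro s
      refine ⟨integral_nonneg fun x => (Real.exp_pos _).le, ?_⟩
      calc ∫ x, Real.exp (-β * (s + x) ^ 2) ∂(tilt μ δ) ≤ ∫ _x, (1 : ℝ) ∂(tilt μ δ) := by
            apply integral_mono (ch_int hβ s) (integrable_const 1)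
            intro x
            exact Real.exp_le_one_iff.2 (by nlinarith [mul_nonneg hβ.le (sq_nonneg (s + x))])
        _ = 1 := by simp
    apply integral_mono ((hh_int hβ n).const_mul κ)
    · have hm : Measurable (fun ω : Fin n → ℝ =>
          ∫ x, Real.exp (-β * ((∑ i, ω i) + x) ^ 2) ∂(tilt μ δ)) := by
        have : StronglyMeasurable (fun p : (Fin n → ℝ) × ℝ =>
            Real.exp (-β * ((∑ i, p.1 i) + p.2) ^ 2)) := Measurable.stronglyMeasurable (by fun_prop)
        exact this.integral_prod_right.measurable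
      refine Integrable.of_bound hm.aestronglyMeasurable 1 (Eventually.of_forall fun ω => ?_)
      rw [Real.norm_eq_abs, abs_of_nonneg (hb _).1]
      exact (hb _).2
    · intro ω
      exact ch_lower hβ (∑ i, ω i)
  have h0 : gg μ δ β 0 = 1 := hh_zero β
  have hp : ∀ n, 0 < gg μ δ β n := fun n => hh_pos hβ n
  have hl : ∀ n, gg μ δ β n ≤ 1 := fun n => hh_le hβ n
  refine ⟨hp, ENNReal.ofReal κ, ?_, ?_, ?_, ?_, ?_⟩
  · rw [h0]
    simp
  · intro n
    exact ENNReal.ofReal_le_one.2 (hl n)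
  · exact (ENNReal.ofReal_pos.2 hκ0).ne'
  · have h1 := hstep 0
    rw [h0, mul_one] at h1
    exact ENNReal.ofReal_le_one.2 (h1.trans (hl 1))
  · intro n
    rw [← ENNReal.ofReal_mul hκ0.le]
    exact ENNReal.ofReal_le_ofReal (hstep n)

end Pool.Agent.R651.CP
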