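import Pool.Agent.R651.CP.Stm

/-!
# Piece CL: closed loops bounded by open walks
-/

set_option autoImplicit false

open scoped ENNReal

namespace Pool.Agent.R651.CP

namespace CLp

lemma isL_iff {d : ℕ} {s : V d} {n : ℕ} {l : List (V d)} :
    IsL s n l ↔ l.length = n ∧ (l ++ [s]).IsChain Adj ∧ l.head? = some s := by
  unfold IsL
  rw [List.isChain_append]
  constructor
  · rintro ⟨h1, h2, h3, h4⟩
    refine ⟨h1, ⟨h2, List.isChain_singleton _, ?_⟩, h3⟩
    intro x hx y hy
    simp only [List.head?_cons, Option.mem_def, Option.some.injEq] at hy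
    subst hy
    exact h4 x hx
  · rintro ⟨h1, ⟨h2, _, h4⟩, h3⟩
    exact ⟨h1, h2, h3, fun x hx => h4 x hx s (by simp)⟩

lemma adj_comm {d : ℕ} {x y : V d} (h : Adj x y) : Adj y x := by
  unfold Adj at *
  rw [← h]
  exact Finset.sum_congr rfl (fun i _ => abs_sub_comm _ _)

lemma adj_add {d : ℕ} {x y : V d} (v : V d) (h : Adj x y) : Adj (x + v) (y + v) := by
  unfold Adj at *
  rw [← h]
  refine Finset.sum_congr rfl (fun i _ => ?_)
  rw [Pi.add_apply, Pi.add_apply, add_sub_add_right_eq_sub]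

lemma adj_e0 {d : ℕ} (z : V (d + 2)) : Adj z (z + Pi.single 0 1) := by
  unfold Adj
  rw [Finset.sum_eq_single 0]
  · simp
  · intro i _ hi
    rw [Pi.add_apply, Pi.single_eq_of_ne hi]
    simp
  · simp

lemma isL_map {d : ℕ} {s : V d} {n : ℕ} {l : List (V d)} (v : V d) (h : IsL s n l) :
    IsL (s + v) n (l.map (fun x => x + v)) := by
  rw [isL_iff] at h ⊢
  obtain ⟨h1, h2, h3⟩ := h
  refine ⟨by simpa using h1, ?_, by simp [h3]⟩
  have h4 : (l.map (fun x => x + v)) ++ [s + v] = (l ++ [s]).map (fun x => x + v) := by simp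
  rw [h4, List.isChain_map]
  exact h2.imp (fun a b h => adj_add v h)

lemma isL_rot {d : ℕ} {s z : V d} {n : ℕ} {A B : List (V d)} (h : IsL s n (A ++ z :: B)) :
    IsL z n (z :: B ++ A) := by
  rw [isL_iff] at h ⊢
  obtain ⟨h1, h2, h3⟩ := h
  refine ⟨by simp at h1 ⊢; omega, ?_, by simp⟩
  cases A with
  | nil =>
    simp only [List.nil_append, List.head?_cons, Option.some.injEq] at h3
    subst h3
    simpa using h2
  | cons a A =>
    simp only [List.cons_append, List.head?_cons, Option.some.injEq] at h3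
    subst h3
    have h4 : (a :: A) ++ z :: (B ++ [a]) = a :: A ++ z :: B ++ [a] := by simp
    rw [← h4, List.isChain_split] at h2
    have h5 : z :: B ++ a :: A ++ [z] = (z :: B) ++ a :: (A ++ [z]) := by simp
    rw [h5, List.isChain_split]
    exact ⟨h2.2, h2.1⟩

lemma isL_ins {d : ℕ} {s z y : V d} {n m : ℕ} {A B l : List (V d)} (h : IsL s n (A ++ z :: B))
    (hl : IsL y m l) (hzy : Adj z y) :
    IsL s (n + m + 2) (A ++ z :: (l ++ y :: z :: B)) := by
  rw [isL_iff] at h hl ⊢
  obtain ⟨h1, h2, h3⟩ := h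
  obtain ⟨h4, h5, h6⟩ := hl
  refine ⟨by simp at h1 ⊢; omega, ?_, ?_⟩
  · have e1 : A ++ z :: B ++ [s] = A ++ z :: (B ++ [s]) := by simp
    rw [e1, List.isChain_split] at h2
    have e2 : A ++ z :: (l ++ y :: z :: B) ++ [s] = A ++ z :: (l ++ y :: z :: (B ++ [s])) := by simp
    rw [e2, List.isChain_split]
    refine ⟨h2.1, ?_⟩
    have e3 : z :: (l ++ y :: z :: (B ++ [s])) = (z :: l) ++ y :: (z :: (B ++ [s])) := by simp
    rw [e3, List.isChain_split]
    refine ⟨?_, ?_⟩
    · rw [List.cons_append, List.isChain_cons]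
      refine ⟨?_, h5⟩
      intro x hx
      cases l with
      | nil => simp at h6
      | cons b l =>
        simp only [List.head?_cons, Option.some.injEq] at h6
        subst h6
        simp only [List.cons_append, List.head?_cons, Option.mem_def, Option.some.injEq] at hx
        subst hx
        exact hzy
    · rw [List.isChain_cons_cons]
      exact ⟨adj_comm hzy, h2.2⟩
  · cases A with
    | nil => simpa using h3
    | cons a A => simpa using h3

/-- loops rooted at a leftmost site -/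
noncomputable def Cr {d : ℕ} (g : ℕ → ℝ≥0∞) (s : V (d + 2)) (n : ℕ) : ℝ≥0∞ :=
  ∑' l : {l : List (V (d + 2)) // IsL s n l ∧ ∀ x ∈ l, s 0 ≤ x 0}, w g l.1

lemma map_inj_of_head {d : ℕ} {s v v' : V d} {l l' : List (V d)} (h : l.head? = some s)
    (h' : l'.head? = some s) (e : l.map (fun x => x + v) = l'.map (fun x => x + v')) : l = l' := by
  have h1 : (l.map (fun x => x + v)).head? = some (s + v) := by simp [h]
  have h2 : (l'.map (fun x => x + v')).head? = some (s + v') := by simp [h']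
  rw [e, h2] at h1
  have h3 : v' = v := by simpa using h1
  subst h3
  exact List.map_injective_iff.2 (add_left_injective v') e

lemma step1 {d : ℕ} (g : ℕ → ℝ≥0∞) (s : V (d + 2)) (N : ℕ) (hN : 1 ≤ N) :
    Cl g s N ≤ N * Cr g s N := by
  have key : ∀ l : {l : List (V (d + 2)) // IsL s N l},
      ∃ (q : Fin N × {l : List (V (d + 2)) // IsL s N l ∧ ∀ x ∈ l, s 0 ≤ x 0}) (v : V (d + 2)),
        q.2.1 = (l.1.drop q.1 ++ l.1.take q.1).map (fun x => x + v) := by
    rintro ⟨l, hl⟩
    have hlen : l.length = N := hl.1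
    have : Nonempty (Fin N) := ⟨⟨0, hN⟩⟩
    obtain ⟨t, ht⟩ := Finite.exists_min (fun t : Fin N => (l[(t : ℕ)]'(by omega)) 0)
    have htl : (t : ℕ) < l.length := by omega
    set z : V (d + 2) := l[(t : ℕ)] with hz
    have hmin : ∀ x ∈ l, z 0 ≤ x 0 := by
      intro x hx
      obtain ⟨j, hj, rfl⟩ := List.getElem_of_mem hx
      exact ht ⟨j, by omega⟩
    have hdrop : l.drop t = z :: l.drop (t + 1) := List.drop_eq_getElem_cons htl
    have hsplit : l = l.take t ++ z :: l.drop (t + 1) := by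
      rw [← hdrop, List.take_append_drop]
    have h1 : IsL z N (z :: l.drop (t + 1) ++ l.take t) := by
      apply isL_rot (s := s)
      rw [← hsplit]; exact hl
    have h2 := isL_map (s - z) h1
    rw [← hdrop, add_sub_cancel] at h2
    refine ⟨(t, ⟨(l.drop t ++ l.take t).map (fun x => x + (s - z)), h2, ?_⟩), s - z, rfl⟩
    intro x hx
    obtain ⟨y, hy, rfl⟩ := List.mem_map.1 hx
    have hyl : y ∈ l := by
      rcases List.mem_append.1 hy with h | h
      · exact List.mem_of_mem_drop h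
      · exact List.mem_of_mem_take h
    have := hmin y hyl
    simp only [Pi.add_apply, Pi.sub_apply]
    linarith
  choose i v hi using key
  have hinj : Function.Injective i := by
    rintro l l' h
    have h1 := hi l
    have h2 := hi l'
    have hl := l.2.1
    have hl' := l'.2.1
    rw [h] at h1
    have h3 := h1.symm.trans h2
    rw [List.map_append, List.map_append] at h3
    have h4 := List.append_inj h3 (by simp [hl, hl'])
    have h5 : l.1.map (fun x => x + v l) = l'.1.map (fun x => x + v l') := by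
      rw [← List.take_append_drop ((i l').1 : ℕ) l.1, ← List.take_append_drop ((i l').1 : ℕ) l'.1,
        List.map_append, List.map_append, h4.1, h4.2]
    exact Subtype.ext (map_inj_of_head l.2.2.2.1 l'.2.2.2.1 h5)
  have := tsum_le_of_injective (m := N) (c := 1)
    (f := fun l : {l : List (V (d + 2)) // IsL s N l} => w g l.1)
    (F := fun l : {l : List (V (d + 2)) // IsL s N l ∧ ∀ x ∈ l, s 0 ≤ x 0} => w g l.1) i hinj
    (by
      intro l
      rw [one_mul, hi l, w_map (add_left_injective (v l))]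
      refine le_of_eq (w_perm ?_)
      have h1 : l.1 = l.1.take ((i l).1 : ℕ) ++ l.1.drop ((i l).1 : ℕ) :=
        (List.take_append_drop _ _).symm
      conv_lhs => rw [h1]
      exact List.perm_append_comm)
  rw [mul_one] at this
  exact this

lemma step2 {d : ℕ} (g : ℕ → ℝ≥0∞) (κ : ℝ≥0∞) (hg : Ok g κ) (s : V (d + 2)) (N M : ℕ)
    (hN : 1 ≤ N) : κ ^ 2 * (Cr g s N * Cr g s M) ≤ N * Cr g s (N + M + 2) := by
  have key : ∀ p : {l : List (V (d + 2)) // IsL s N l ∧ ∀ x ∈ l, s 0 ≤ x 0} ×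
      {l : List (V (d + 2)) // IsL s M l ∧ ∀ x ∈ l, s 0 ≤ x 0},
      ∃ (q : Fin N × {l : List (V (d + 2)) // IsL s (N + M + 2) l ∧ ∀ x ∈ l, s 0 ≤ x 0})
        (v y z : V (d + 2)),
        q.2.1 = p.1.1.take (q.1 + 1) ++ (p.2.1.map (fun x => x + v) ++
          ([y, z] ++ p.1.1.drop (q.1 + 1))) ∧
        ∀ x ∈ p.1.1, x ∉ p.2.1.map (fun x => x + v) := by
    rintro ⟨⟨l, hl, hl0⟩, ⟨l', hl', hl0'⟩⟩
    have hlen : l.length = N := hl.1
    have : Nonempty (Fin N) := ⟨⟨0, hN⟩⟩
    obtain ⟨t, ht⟩ := Finite.exists_max (fun t : Fin N => (l[(t : ℕ)]'(by omega)) 0)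
    have htl : (t : ℕ) < l.length := by omega
    set z : V (d + 2) := l[(t : ℕ)] with hz
    have hzl : z ∈ l := List.getElem_mem htl
    have hmax : ∀ x ∈ l, x 0 ≤ z 0 := by
      intro x hx
      obtain ⟨j, hj, rfl⟩ := List.getElem_of_mem hx
      exact ht ⟨j, by omega⟩
    have hdrop : l.drop t = z :: l.drop (t + 1) := List.drop_eq_getElem_cons htl
    have hsplit : l = l.take t ++ z :: l.drop (t + 1) := by
      rw [← hdrop, List.take_append_drop]
    have htake : l.take (t + 1) = l.take t ++ [z] := by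
      rw [List.take_succ_eq_append_getElem htl]
    set y : V (d + 2) := z + Pi.single 0 1 with hy
    set v : V (d + 2) := y - s with hv
    have h1 : IsL y M (l'.map (fun x => x + v)) := by
      have := isL_map v hl'
      rwa [hv, add_sub_cancel, ← hv] at this
    have h2 : IsL s (N + M + 2)
        (l.take t ++ z :: (l'.map (fun x => x + v) ++ y :: z :: l.drop (t + 1))) := by
      apply isL_ins _ h1 (adj_e0 z)
      rw [← hsplit]; exact hl
    have h3 : l.take t ++ z :: (l'.map (fun x => x + v) ++ y :: z :: l.drop (t + 1)) =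
        l.take (t + 1) ++ (l'.map (fun x => x + v) ++ ([y, z] ++ l.drop (t + 1))) := by
      rw [htake]; simp
    rw [h3] at h2
    have hy0 : y 0 = z 0 + 1 := by simp [hy]
    have hv0 : v 0 = z 0 + 1 - s 0 := by simp [hv, hy0]
    have hz0 := hl0 z hzl
    refine ⟨(t, ⟨_, h2, ?_⟩), v, y, z, rfl, ?_⟩
    · intro x hx
      rcases List.mem_append.1 hx with h | h
      · exact hl0 x (List.mem_of_mem_take h)
      rcases List.mem_append.1 h with h | h
      · obtain ⟨x', hx', rfl⟩ := List.mem_map.1 h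
        have := hl0' x' hx'
        simp only [Pi.add_apply, hv0]
        linarith
      rcases List.mem_append.1 h with h | h
      · simp only [List.mem_cons, List.not_mem_nil, or_false] at h
        rcases h with rfl | rfl
        · rw [hy0]; linarith
        · exact hz0
      · exact hl0 x (List.mem_of_mem_drop h)
    · intro x hx hx'
      obtain ⟨x', hx'', rfl⟩ := List.mem_map.1 hx'
      have h5 := hmax _ hx
      have h6 := hl0' x' hx''
      simp only [Pi.add_apply, hv0] at h5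
      linarith
  choose i v y z hi hdis using key
  have hinj : Function.Injective i := by
    rintro p p' h
    have h1 := hi p
    have h2 := hi p'
    have hl := p.1.2.1.1
    have hl' := p'.1.2.1.1
    have hm := p.2.2.1.1
    have hm' := p'.2.2.1.1
    rw [h] at h1
    have h3 := h1.symm.trans h2
    have h4 := List.append_inj h3 (by simp [hl, hl'])
    have h5 := List.append_inj h4.2 (by simp [hm, hm'])
    have h6 := List.append_inj h5.2 (by simp)
    have h7 : p.1.1 = p'.1.1 := by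
      rw [← List.take_append_drop ((i p').1 + 1 : ℕ) p.1.1,
        ← List.take_append_drop ((i p').1 + 1 : ℕ) p'.1.1, h4.1, h6.2]
    have h8 : p.2.1 = p'.2.1 := map_inj_of_head p.2.2.1.2.2.1 p'.2.2.1.2.2.1 h5.1
    exact Prod.ext (Subtype.ext h7) (Subtype.ext h8)
  have := tsum_le_of_injective (m := N) (c := 1)
    (f := fun p : {l : List (V (d + 2)) // IsL s N l ∧ ∀ x ∈ l, s 0 ≤ x 0} ×
      {l : List (V (d + 2)) // IsL s M l ∧ ∀ x ∈ l, s 0 ≤ x 0} => κ ^ 2 * (w g p.1.1 * w g p.2.1))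
    (F := fun l : {l : List (V (d + 2)) // IsL s (N + M + 2) l ∧ ∀ x ∈ l, s 0 ≤ x 0} => w g l.1)
    i hinj
    (by
      intro p
      rw [one_mul, hi p]
      have h1 : w g p.1.1 * w g p.2.1 = w g (p.1.1 ++ p.2.1.map (fun x => x + v p)) := by
        rw [w_append_of_disjoint (hdis p), w_map (add_left_injective (v p))]
      rw [h1]
      have h2 := w_append_ge hg (p.1.1 ++ p.2.1.map (fun x => x + v p)) [y p, z p]
      refine h2.trans (le_of_eq (w_perm ?_))
      have h3 : p.1.1 = p.1.1.take ((i p).1 + 1 : ℕ) ++ p.1.1.drop ((i p).1 + 1 : ℕ) :=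
        (List.take_append_drop _ _).symm
      generalize p.2.1.map (fun x => x + v p) = X2
      generalize [y p, z p] = X3
      conv_lhs => rw [h3]
      generalize p.1.1.take ((i p).1 + 1 : ℕ) = X1
      generalize p.1.1.drop ((i p).1 + 1 : ℕ) = X4
      rw [List.append_assoc, List.append_assoc]
      refine List.Perm.append_left X1 ?_
      rw [← List.append_assoc, ← List.append_assoc]
      refine (List.perm_append_comm (l₁ := X4 ++ X2) (l₂ := X3)).trans ?_
      rw [← List.append_assoc]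
      refine (List.perm_append_comm (l₁ := X3 ++ X4) (l₂ := X2)).trans ?_
      rw [List.append_assoc])
  rw [mul_one] at this
  refine le_trans (le_of_eq ?_) this
  unfold Cr
  rw [ENNReal.tsum_prod' (f := fun p : {l : List (V (d + 2)) // IsL s N l ∧ ∀ x ∈ l, s 0 ≤ x 0} ×
      {l : List (V (d + 2)) // IsL s M l ∧ ∀ x ∈ l, s 0 ≤ x 0} => κ ^ 2 * (w g p.1.1 * w g p.2.1))]
  simp only [ENNReal.tsum_mul_left, ENNReal.tsum_mul_right]

lemma step3 {d : ℕ} (g : ℕ → ℝ≥0∞) (κ : ℝ≥0∞) (hg : Ok g κ) (s : V (d + 2)) (N : ℕ)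
    (hN : 1 ≤ N) (k : ℕ) :
    κ ^ (2 * k) * Cr g s N ^ (k + 1) ≤ (N : ℝ≥0∞) ^ k * Cr g s ((k + 1) * (N + 2) - 2) := by
  induction k with
  | zero => simp
  | succ k ih =>
    have e1 : κ ^ (2 * (k + 1)) * Cr g s N ^ (k + 1 + 1) =
        κ ^ 2 * (Cr g s N * (κ ^ (2 * k) * Cr g s N ^ (k + 1))) := by ring
    rw [e1]
    calc κ ^ 2 * (Cr g s N * (κ ^ (2 * k) * Cr g s N ^ (k + 1)))
        ≤ κ ^ 2 * (Cr g s N * ((N : ℝ≥0∞) ^ k * Cr g s ((k + 1) * (N + 2) - 2))) := by gcongr
      _ = (N : ℝ≥0∞) ^ k * (κ ^ 2 * (Cr g s N * Cr g s ((k + 1) * (N + 2) - 2))) := by ring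
      _ ≤ (N : ℝ≥0∞) ^ k * (N * Cr g s (N + ((k + 1) * (N + 2) - 2) + 2)) :=
          mul_le_mul' le_rfl (step2 g κ hg s N _ hN)
      _ = (N : ℝ≥0∞) ^ (k + 1) * Cr g s ((k + 1 + 1) * (N + 2) - 2) := by
          have e2 : N + ((k + 1) * (N + 2) - 2) + 2 = (k + 1 + 1) * (N + 2) - 2 := by
            have h1 : (k + 1 + 1) * (N + 2) = (k + 1) * (N + 2) + (N + 2) := by ring
            have h2 : 2 ≤ (k + 1) * (N + 2) := by nlinarith
            omega
          rw [e2, pow_succ, mul_assoc]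

lemma step4 {d : ℕ} (g : ℕ → ℝ≥0∞) (s : V (d + 2)) (n : ℕ) : Cr g s n ≤ Y g s n := by
  unfold Cr Y
  refine le_trans (le_of_eq ?_) (ENNReal.tsum_comp_le_tsum_of_injective
    (f := fun l : {l : List (V (d + 2)) // IsL s n l ∧ ∀ x ∈ l, s 0 ≤ x 0} =>
      (⟨l.1, l.2.1.1, l.2.1.2.1, l.2.1.2.2.1⟩ :
        {l : List (V (d + 2)) // l.length = n ∧ l.IsChain Adj ∧ l.head? = some s}))
    (fun l l' h => Subtype.ext (by simpa using h)) (fun l => w g l.1))
  rfl

lemma step5 {d : ℕ} (g : ℕ → ℝ≥0∞) (κ : ℝ≥0∞) (hg : Ok g κ) (s : V (d + 2)) (n : ℕ) :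
    κ * Y g s n ≤ Y g s (n + 1) := by
  have key : ∀ l : {l : List (V (d + 2)) // l.length = n ∧ l.IsChain Adj ∧ l.head? = some s},
      ∃ (q : {l : List (V (d + 2)) // l.length = n + 1 ∧ l.IsChain Adj ∧ l.head? = some s})
        (y : V (d + 2)), q.1 = l.1 ++ [y] := by
    rintro ⟨l, h1, h2, h3⟩
    have hne : l ≠ [] := by rintro rfl; simp at h3
    refine ⟨⟨l ++ [l.getLast hne + Pi.single 0 1], by simp [h1], ?_, ?_⟩, _, rfl⟩
    · rw [List.isChain_append]
      refine ⟨h2, List.isChain_singleton _, ?_⟩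
      intro x hx y hy
      rw [List.getLast?_eq_getLast_of_ne_nil hne] at hx
      simp only [Option.mem_def, Option.some.injEq] at hx
      simp only [List.head?_cons, Option.mem_def, Option.some.injEq] at hy
      subst hx
      subst hy
      exact adj_e0 _
    · cases l with
      | nil => exact absurd rfl hne
      | cons a l => simpa using h3
  choose i y hi using key
  have hinj : Function.Injective i := by
    intro l l' h
    have h1 := hi l
    rw [h, hi l'] at h1
    exact Subtype.ext (List.append_inj h1 (by rw [l.2.1, l'.2.1])).1.symm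
  unfold Y
  rw [← ENNReal.tsum_mul_left]
  refine le_trans (ENNReal.tsum_le_tsum (fun l => ?_))
    (ENNReal.tsum_comp_le_tsum_of_injective hinj (fun l => w g l.1))
  rw [hi l]
  have := w_append_ge hg l.1 [y l]
  simpa using this

lemma step6 {d : ℕ} (g : ℕ → ℝ≥0∞) (κ : ℝ≥0∞) (hg : Ok g κ) (s : V (d + 2)) (n r : ℕ) :
    κ ^ r * Y g s n ≤ Y g s (n + r) := by
  induction r with
  | zero => simp
  | succ r ih =>
    calc κ ^ (r + 1) * Y g s n = κ * (κ ^ r * Y g s n) := by ring
      _ ≤ κ * Y g s (n + r) := by gcongr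
      _ ≤ Y g s (n + r + 1) := step5 g κ hg s _

end CLp

open CLp in
theorem t_closed : S_closed := by
  intro d g κ hg s N k r hN hk
  obtain ⟨k, rfl⟩ : ∃ k', k = k' + 1 := ⟨k - 1, by omega⟩
  have hN1 : (1 : ℝ≥0∞) ≤ N := by exact_mod_cast hN
  calc κ ^ (2 * (k + 1) + r) * Cl g s N ^ (k + 1)
      ≤ κ ^ (2 * (k + 1) + r) * (N * Cr g s N) ^ (k + 1) := by
        gcongr
        exact step1 g s N hN
    _ = κ ^ 2 * ((N : ℝ≥0∞) ^ (k + 1) * (κ ^ r * (κ ^ (2 * k) * Cr g s N ^ (k + 1)))) := by ring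
    _ ≤ 1 * ((N : ℝ≥0∞) ^ (k + 1) * (κ ^ r * ((N : ℝ≥0∞) ^ k *
          Y g s ((k + 1) * (N + 2) - 2)))) := by
        refine mul_le_mul' (pow_le_one₀ zero_le hg.κ1) (mul_le_mul' le_rfl (mul_le_mul' le_rfl ?_))
        exact (step3 g κ hg s N hN k).trans (mul_le_mul' le_rfl (step4 g s _))
    _ = (N : ℝ≥0∞) ^ (2 * k + 1) * (κ ^ r * Y g s ((k + 1) * (N + 2) - 2)) := by ring
    _ ≤ (N : ℝ≥0∞) ^ (2 * (k + 1)) * Y g s ((k + 1) * (N + 2) - 2 + r) := by
        refine mul_le_mul' (pow_le_pow_right₀ hN1 (by omega)) (step6 g κ hg s _ r)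

end Pool.Agent.R651.CP
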