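import Pool.Agent.R651.CP.Stm

/-!
# Piece DA: cutting one walk into parts in slabs
-/

set_option autoImplicit false

namespace Pool.Agent.R651.CP

namespace DA

/-- the slab index -/
def K (L : ℕ) (σ : ℤ) (a : ℤ) : ℤ := (a - σ - 1) / L

theorem K_spec {L : ℕ} (hL : 1 ≤ L) (σ a : ℤ) :
    σ + K L σ a * L + 1 ≤ a ∧ a ≤ σ + (K L σ a + 1) * L := by
  have hL' : (0 : ℤ) < L := by exact_mod_cast hL
  have h1 := Int.emod_add_mul_ediv (a - σ - 1) L
  have h2 := Int.emod_nonneg (a - σ - 1) hL'.ne'
  have h3 := Int.emod_lt_of_pos (a - σ - 1) hL'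
  unfold K
  constructor <;> nlinarith

theorem K_unique {L : ℕ} (hL : 1 ≤ L) {σ a q : ℤ} (h1 : σ + q * L + 1 ≤ a)
    (h2 : a ≤ σ + (q + 1) * L) : K L σ a = q := by
  have hL' : (0 : ℤ) < L := by exact_mod_cast hL
  unfold K
  apply le_antisymm
  · apply Int.lt_add_one_iff.1
    apply Int.ediv_lt_of_lt_mul hL'
    linarith
  · apply Int.le_ediv_of_mul_le hL'
    linarith

/-- a point next to another slab is on the boundary -/
theorem bdry {L : ℕ} (hL : 1 ≤ L) {σ a b : ℤ} (hab : |a - b| ≤ 1) (hne : K L σ a ≠ K L σ b) :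
    a = σ + K L σ a * L + 1 ∨ a = σ + (K L σ a + 1) * L := by
  by_contra hcon
  push Not at hcon
  obtain ⟨h1, h2⟩ := K_spec hL σ a
  obtain ⟨h3, h4⟩ := abs_le.1 hab
  apply hne
  symm
  apply K_unique hL
  · have : σ + K L σ a * L + 1 < a := lt_of_le_of_ne h1 (Ne.symm hcon.1)
    linarith
  · have : a < σ + (K L σ a + 1) * L := lt_of_le_of_ne h2 hcon.2
    linarith

/-- a crossing determines the offset -/
theorem cross_up {L : ℕ} (hL : 1 ≤ L) {σ : ℕ} (hσ : σ < L) {a : ℤ}
    (hne : K L σ a ≠ K L σ (a + 1)) : (σ : ℤ) = a % L := by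
  have hL' : (0 : ℤ) < L := by exact_mod_cast hL
  obtain ⟨h1, h2⟩ := K_spec hL σ a
  have h3 : a = σ + (K L σ a + 1) * L := by
    by_contra hcon
    have h4 : a < σ + (K L σ a + 1) * L := lt_of_le_of_ne h2 hcon
    exact hne (K_unique hL (by linarith) (by linarith)).symm
  rw [h3, Int.add_mul_emod_self_right, Int.emod_eq_of_lt (by positivity) (by exact_mod_cast hσ)]

theorem cross {L : ℕ} (hL : 1 ≤ L) {σ : ℕ} (hσ : σ < L) {a b : ℤ} (hab : |a - b| ≤ 1)
    (hne : K L σ a ≠ K L σ b) : (σ : ℤ) = min a b % L := by
  obtain ⟨h3, h4⟩ := abs_le.1 hab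
  rcases lt_trichotomy a b with h | h | h
  · have hb : b = a + 1 := by omega
    subst hb
    rw [min_eq_left (by omega)]
    exact cross_up hL hσ hne
  · exact absurd (by rw [h]) hne
  · have ha : a = b + 1 := by omega
    subst ha
    rw [min_eq_right (by omega)]
    exact cross_up hL hσ hne.symm

variable {d : ℕ}

/-- the number of crossing steps -/
def cr (L : ℕ) (σ : ℤ) : List (V (d + 2)) → ℕ
  | [] => 0
  | [_] => 0
  | x :: y :: t => (if K L σ (x 0) = K L σ (y 0) then 0 else 1) + cr L σ (y :: t)

theorem Adj.le {x y : V d} (h : Adj x y) (i : Fin d) : |x i - y i| ≤ 1 := by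
  unfold Adj at h
  rw [← h]
  exact Finset.single_le_sum (f := fun i => |x i - y i|) (fun _ _ => abs_nonneg _)
    (Finset.mem_univ i)

theorem sum_cr {L : ℕ} (hL : 1 ≤ L) : ∀ l : List (V (d + 2)), l.IsChain Adj →
    ∑ σ ∈ Finset.range L, cr L (σ : ℤ) l ≤ l.length - 1
  | [], _ => by simp [cr]
  | [_], _ => by simp [cr]
  | x :: y :: t, h => by
    have hxy : Adj x y := by
      rw [List.isChain_cons_cons] at h
      exact h.1
    have ht : (y :: t).IsChain Adj := by
      rw [List.isChain_cons_cons] at h
      exact h.2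
    have ih := sum_cr hL (y :: t) ht
    simp only [cr]
    rw [Finset.sum_add_distrib]
    have h1 : ∑ σ ∈ Finset.range L, (if K L (σ : ℤ) (x 0) = K L (σ : ℤ) (y 0) then 0 else 1) ≤
        1 := by
      have : ∀ σ ∈ Finset.range L, (if K L (σ : ℤ) (x 0) = K L (σ : ℤ) (y 0) then 0 else 1) =
          if ¬ K L (σ : ℤ) (x 0) = K L (σ : ℤ) (y 0) then 1 else 0 := by
        intro σ _
        split_ifs <;> rfl
      rw [Finset.sum_congr rfl this, ← Finset.card_filter]
      apply Finset.card_le_one.2
      intro σ hσ σ' hσ'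
      rw [Finset.mem_filter, Finset.mem_range] at hσ hσ'
      have e1 := cross hL hσ.1 (Adj.le hxy 0) hσ.2
      have e2 := cross hL hσ'.1 (Adj.le hxy 0) hσ'.2
      rw [← e2] at e1
      exact_mod_cast e1
    simp only [List.length_cons] at ih ⊢
    omega

/-- the step down in direction 0 -/
def dn (x : V (d + 2)) : V (d + 2) := x - Pi.single 0 1

theorem dn_zero (x : V (d + 2)) : dn x 0 = x 0 - 1 := by simp [dn]

theorem dn_abs (x : V (d + 2)) (i : Fin (d + 2)) : |dn x i| ≤ |x i| + 1 := by
  by_cases h : i = 0
  · subst h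
    rw [dn_zero]
    refine (abs_sub _ _).trans ?_
    simp
  · simp [dn, Pi.single_eq_of_ne h]

theorem adj_dn (x : V (d + 2)) : Adj x (dn x) := by
  unfold Adj
  have h : ∀ i, |x i - dn x i| = if i = 0 then 1 else 0 := by
    intro i
    by_cases h : i = 0
    · subst h
      simp [dn]
    · simp [dn, Pi.single_eq_of_ne h, h]
  rw [Finset.sum_congr rfl fun i _ => h i]
  simp

theorem adj_dn' (x : V (d + 2)) : Adj (dn x) x := by
  have := adj_dn x
  unfold Adj at this ⊢
  rw [← this]
  exact Finset.sum_congr rfl fun i _ => abs_sub_comm _ _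

/-- the straight walk down -/
theorem down : ∀ (k : ℕ) (x : V (d + 2)), ∃ v : List (V (d + 2)), v.length = k ∧
    (x :: v).IsChain Adj ∧ (∀ y ∈ x :: v, x 0 - k ≤ y 0 ∧ y 0 ≤ x 0) ∧
    (∀ y ∈ (x :: v).getLast?, y 0 = x 0 - k) ∧ (∀ y ∈ v, ∀ i, |y i| ≤ |x i| + k)
  | 0, x => ⟨[], rfl, by simp, by simp, by simp, by simp⟩
  | k + 1, x => by
    obtain ⟨v, h1, h2, h3, h4, h5⟩ := down k (dn x)
    refine ⟨dn x :: v, by simp [h1], ?_, ?_, ?_, ?_⟩
    · rw [List.isChain_cons_cons]
      exact ⟨adj_dn x, h2⟩
    · intro y hy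
      rcases List.mem_cons.1 hy with rfl | hy
      · push_cast
        constructor <;> linarith
      · have := h3 y hy
        rw [dn_zero] at this
        push_cast
        constructor <;> linarith [this.1, this.2]
    · intro y hy
      rw [List.getLast?_cons_cons] at hy
      have := h4 y hy
      rw [dn_zero] at this
      push_cast
      linarith
    · intro y hy i
      push_cast
      rcases List.mem_cons.1 hy with rfl | hy
      · have := dn_abs x i
        have hk : (0 : ℤ) ≤ k := by positivity
        linarith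
      · have := h5 y hy i
        have h6 := dn_abs x i
        linarith

/-- the straight walk up to the head -/
theorem up : ∀ (k : ℕ) (p : List (V (d + 2))) (x : V (d + 2)), p.head? = some x →
    p.IsChain Adj → ∃ u : List (V (d + 2)), u.length = k ∧ (u ++ p).IsChain Adj ∧
    (∀ y ∈ u, x 0 - k ≤ y 0 ∧ y 0 ≤ x 0) ∧ (∀ y ∈ (u ++ p).head?, y 0 = x 0 - k) ∧
    (∀ y ∈ u, ∀ i, |y i| ≤ |x i| + k)
  | 0, p, x, hx, hp => ⟨[], rfl, by simpa using hp, by simp, by simp [hx], by simp⟩
  | k + 1, p, x, hx, hp => by
    have hp' : (dn x :: p).IsChain Adj := by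
      obtain ⟨t, rfl⟩ : ∃ t, p = x :: t := by
        cases p with
        | nil => simp at hx
        | cons a t =>
          simp only [List.head?_cons, Option.some.injEq] at hx
          exact ⟨t, by rw [hx]⟩
      rw [List.isChain_cons_cons]
      exact ⟨adj_dn' x, hp⟩
    obtain ⟨u, h1, h2, h3, h4, h5⟩ := up k (dn x :: p) (dn x) rfl hp'
    refine ⟨u ++ [dn x], by simp [h1], by simpa using h2, ?_, ?_, ?_⟩
    · intro y hy
      push_cast
      rcases List.mem_append.1 hy with hy | hy
      · have := h3 y hy
        rw [dn_zero] at this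
        constructor <;> linarith [this.1, this.2]
      · rw [List.mem_singleton] at hy
        subst hy
        rw [dn_zero]
        have hk : (0 : ℤ) ≤ k := by positivity
        constructor <;> linarith
    · intro y hy
      have : (u ++ [dn x] ++ p) = u ++ dn x :: p := by simp
      rw [this] at hy
      have := h4 y hy
      rw [dn_zero] at this
      push_cast
      linarith
    · intro y hy i
      push_cast
      have h6 := dn_abs x i
      rcases List.mem_append.1 hy with hy | hy
      · have := h5 y hy i
        linarith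
      · rw [List.mem_singleton] at hy
        subst hy
        have hk : (0 : ℤ) ≤ k := by positivity
        linarith

/-- the cutting, except for the head -/
theorem cut {L : ℕ} (hL : 1 ≤ L) (σ : ℤ) : ∀ (t : List (V (d + 2))) (x : V (d + 2)),
    (x :: t).IsChain Adj → ∃ (v p : List (V (d + 2))) (P : List (List (V (d + 2)))),
      v.length < L ∧ x :: t ++ v = p ++ P.flatten ∧ P.length = cr L σ (x :: t) ∧
      p.head? = some x ∧ p.IsChain Adj ∧ (∀ y ∈ p, K L σ (y 0) = K L σ (x 0)) ∧
      (∀ y ∈ p.getLast?, y 0 = σ + K L σ (x 0) * L + 1 ∨ y 0 = σ + (K L σ (x 0) + 1) * L) ∧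
      (∀ p' ∈ P, Part L σ p') ∧ (∃ z ∈ x :: t, ∀ y ∈ v, ∀ i, |y i| ≤ |z i| + L)
  | [], x, _ => by
    obtain ⟨hx1, hx2⟩ := K_spec hL σ (x 0)
    obtain ⟨k, hk⟩ : ∃ k : ℕ, x 0 - k = σ + K L σ (x 0) * L + 1 :=
      ⟨(x 0 - (σ + K L σ (x 0) * L + 1)).toNat, by
        rw [Int.toNat_of_nonneg (by linarith)]
        ring⟩
    have hkL : k < L := by
      have : (k : ℤ) < L := by linarith
      exact_mod_cast this
    obtain ⟨v, h1, h2, h3, h4, h5⟩ := down k x
    refine ⟨v, x :: v, [], by omega, by simp, rfl, rfl, h2, ?_, ?_, by simp, x, by simp, ?_⟩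
    · intro y hy
      have := h3 y hy
      exact K_unique hL (by linarith [this.1]) (by linarith [this.2])
    · intro y hy
      left
      rw [h4 y hy, hk]
    · intro y hy i
      have := h5 y hy i
      have : (k : ℤ) < L := by exact_mod_cast hkL
      linarith
  | y :: t, x, h => by
    rw [List.isChain_cons_cons] at h
    obtain ⟨hxy, ht⟩ := h
    obtain ⟨v, p, P, h1, h2, h3, h4, h5, h6, h7, h8, z, hz, h9⟩ := cut hL σ t y ht
    have hpne : p ≠ [] := by
      rintro rfl
      simp at h4
    by_cases hK : K L σ (x 0) = K L σ (y 0)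
    · refine ⟨v, x :: p, P, h1, ?_, ?_, rfl, ?_, ?_, ?_, h8, z, List.mem_cons_of_mem _ hz, h9⟩
      · rw [List.cons_append, h2, List.cons_append]
      · simp only [cr]
        rw [if_pos hK, zero_add, h3]
      · obtain ⟨p', rfl⟩ : ∃ p', p = y :: p' := by
          cases p with
          | nil => exact absurd rfl hpne
          | cons a p' =>
            simp only [List.head?_cons, Option.some.injEq] at h4
            exact ⟨p', by rw [h4]⟩
        rw [List.isChain_cons_cons]
        exact ⟨hxy, h5⟩
      · intro y' hy'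
        rcases List.mem_cons.1 hy' with rfl | hy'
        · rfl
        · rw [h6 y' hy', hK]
      · intro y' hy'
        rw [hK]
        apply h7
        rw [List.getLast?_cons] at hy'
        obtain ⟨a, ha⟩ : ∃ a, p.getLast? = some a := by
          rw [List.getLast?_eq_some_getLast hpne]
          exact ⟨_, rfl⟩
        rw [ha] at hy' ⊢
        simpa using hy'
    · have hbx := bdry hL (Adj.le hxy 0) hK
      have hby := bdry hL (σ := σ) (a := y 0) (b := x 0)
        (by rw [abs_sub_comm]; exact Adj.le hxy 0) (Ne.symm hK)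
      refine ⟨v, [x], p :: P, h1, ?_, ?_, rfl, by simp, by simp, ?_, ?_, z,
        List.mem_cons_of_mem _ hz, h9⟩
      · rw [List.cons_append, h2]
        simp
      · simp only [cr, List.length_cons]
        rw [if_neg hK, h3, add_comm]
      · intro y' hy'
        simp only [List.getLast?_singleton, Option.mem_some_iff] at hy'
        rw [← hy']
        exact hbx
      · intro p' hp'
        rcases List.mem_cons.1 hp' with rfl | hp'
        · refine ⟨hpne, h5, K L σ (y 0), ?_, ?_, h7⟩
          · intro w hw
            have := K_spec hL σ (w 0)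
            rw [h6 w hw] at this
            exact this
          · intro w hw
            rw [h4] at hw
            simp only [Option.mem_some_iff] at hw
            rw [← hw]
            exact hby
        · exact h8 p' hp'

theorem chain_bound : ∀ (t : List (V d)) (x : V d), (x :: t).IsChain Adj →
    ∀ y ∈ x :: t, ∀ i, |y i| ≤ |x i| + t.length
  | [], x, _ => by
    intro y hy i
    rw [List.mem_singleton] at hy
    subst hy
    simp
  | z :: t, x, h => by
    rw [List.isChain_cons_cons] at h
    intro y hy i
    have hnn : (0 : ℤ) ≤ t.length := by positivity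
    rcases List.mem_cons.1 hy with rfl | hy
    · simp only [List.length_cons]
      push_cast
      linarith
    · have h1 := chain_bound t z h.2 y hy i
      have h2 := Adj.le h.1 i
      have h3 : |z i| ≤ |x i| + 1 := by
        have h4 : |z i| - |x i| ≤ |z i - x i| := abs_sub_abs_le_abs_sub _ _
        rw [abs_sub_comm] at h4
        linarith
      simp only [List.length_cons]
      push_cast
      linarith

end DA

open DA in
theorem t_cut : S_cut := by
  intro d n L hL hn l hlen hchain hhead
  -- the choice of the offset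
  obtain ⟨σ, hσ, hcr⟩ : ∃ σ ∈ Finset.range L, cr L (σ : ℤ) l ≤ n / L := by
    by_contra hcon
    push Not at hcon
    have h1 : ∑ σ ∈ Finset.range L, (n / L + 1) ≤ ∑ σ ∈ Finset.range L, cr L (σ : ℤ) l :=
      Finset.sum_le_sum fun σ hσ => hcon σ hσ
    have h2 := sum_cr hL l hchain
    rw [Finset.sum_const, Finset.card_range, smul_eq_mul] at h1
    have h3 : n < L * (n / L + 1) := Nat.lt_mul_div_succ n hL
    omega
  rw [Finset.mem_range] at hσ
  obtain ⟨t, rfl⟩ : ∃ t, l = 0 :: t := by
    cases l with
    | nil => simp at hhead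
    | cons a t =>
      simp only [List.head?_cons, Option.some.injEq] at hhead
      exact ⟨t, by rw [hhead]⟩
  obtain ⟨v, p, P, h1, h2, h3, h4, h5, h6, h7, h8, z, hz, h9⟩ := cut hL (σ : ℤ) t 0 hchain
  have hK0 : K L (σ : ℤ) 0 = -1 := by
    have : (σ : ℤ) < L := by exact_mod_cast hσ
    exact K_unique hL (by linarith) (by have : (0 : ℤ) ≤ σ := by positivity
                                        linarith)
  obtain ⟨u, g1, g2, g3, g4, g5⟩ := up (L - 1 - σ) p 0 h4 h5
  have hcast : ((L - 1 - σ : ℕ) : ℤ) = L - 1 - σ := by omega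
  rw [hcast] at g3 g4 g5
  have hpne : p ≠ [] := by
    rintro rfl
    simp at h4
  have hσ0 : (0 : ℤ) ≤ σ := by positivity
  refine ⟨σ, u, v, (u ++ p) :: P, hσ, by omega, h1, ?_, ?_, ?_, ?_⟩
  · rw [List.flatten_cons, List.append_assoc, List.append_assoc, h2]
  · rw [List.length_cons, h3]
    omega
  · intro p' hp'
    rcases List.mem_cons.1 hp' with rfl | hp'
    · refine ⟨by simp [hpne], g2, -1, ?_, ?_, ?_⟩
      · intro w hw
        rcases List.mem_append.1 hw with hw | hw
        · have := g3 w hw
          simp only [Pi.zero_apply] at this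
          constructor <;> linarith [this.1, this.2]
        · have := K_spec hL (σ : ℤ) (w 0)
          rw [h6 w hw, Pi.zero_apply, hK0] at this
          exact this
      · intro w hw
        have := g4 w hw
        simp only [Pi.zero_apply] at this
        left
        linarith
      · intro w hw
        have : (u ++ p).getLast? = p.getLast? := List.getLast?_append_of_ne_nil _ hpne
        rw [this] at hw
        have h10 := h7 w hw
        rw [Pi.zero_apply, hK0] at h10
        exact h10
    · exact h8 p' hp'
  · intro x hx i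
    rw [List.flatten_cons, List.append_assoc, ← h2] at hx
    have hb := chain_bound t (0 : V (d + 2)) hchain
    have htl : (t.length : ℤ) + 1 = n := by
      rw [← hlen, List.length_cons]
      push_cast
      ring
    have hLn : (0 : ℤ) ≤ L := by positivity
    rcases List.mem_append.1 hx with hx | hx
    · have := g5 x hx i
      simp only [Pi.zero_apply, abs_zero] at this
      linarith
    · rcases List.mem_append.1 hx with hx | hx
      · have := hb x hx i
        simp only [Pi.zero_apply, abs_zero] at this
        linarith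
      · have e1 := h9 x hx i
        have e2 := hb z hz i
        simp only [Pi.zero_apply, abs_zero] at e2
        linarith

end Pool.Agent.R651.CP
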