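import Pool.Agent.R651.CP.Stm

/-!
# Existence of the annealed free energy of a charged polymer: piece DB
-/

set_option autoImplicit false

open scoped ENNReal

namespace Pool.Agent.R651.CP

namespace DB

/-- lists of length at most `k` with entries in `A` -/
def LL {α : Type*} [DecidableEq α] (A : Finset α) : ℕ → Finset (List α)
  | 0 => {[]}
  | (k + 1) => insert [] (Finset.image₂ (fun a l => a :: l) A (LL A k))

lemma mem_LL {α : Type*} [DecidableEq α] {A : Finset α} {k : ℕ} {l : List α} (h : l.length ≤ k)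
    (hA : ∀ x ∈ l, x ∈ A) : l ∈ LL A k := by
  induction k generalizing l with
  | zero =>
    have : l = [] := List.length_eq_zero_iff.mp (by omega)
    simp [LL, this]
  | succ k ih =>
    cases l with
    | nil => simp [LL]
    | cons a l =>
      rw [LL, Finset.mem_insert, Finset.mem_image₂]
      right
      refine ⟨a, hA a (by simp), l, ih (by simpa using h) (fun x hx => hA x (by simp [hx])), rfl⟩

lemma card_LL {α : Type*} [DecidableEq α] (A : Finset α) (k : ℕ) :
    (LL A k).card ≤ (A.card + 1) ^ k := by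
  induction k with
  | zero => simp [LL]
  | succ k ih =>
    calc (LL A (k + 1)).card ≤ (Finset.image₂ (fun a l => a :: l) A (LL A k)).card + 1 :=
          Finset.card_insert_le _ _
      _ ≤ A.card * (LL A k).card + 1 := by
          have := Finset.card_image₂_le (fun (a : α) (l : List α) => a :: l) A (LL A k)
          omega
      _ ≤ A.card * (A.card + 1) ^ k + (A.card + 1) ^ k := by
          have h1 : 1 ≤ (A.card + 1) ^ k := Nat.one_le_pow _ _ (by omega)
          have h2 := Nat.mul_le_mul_left A.card ih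
          omega
      _ = (A.card + 1) ^ (k + 1) := by ring

lemma tsum_le_card_mul {α C : Type*} [Fintype C] (code : α → C) (f : α → ℝ≥0∞) (B : ℝ≥0∞)
    (h : ∀ c, ∑' a : {a // code a = c}, f a.1 ≤ B) : ∑' a, f a ≤ Fintype.card C * B := by
  rw [← (Equiv.sigmaFiberEquiv code).tsum_eq f, ENNReal.tsum_sigma', tsum_fintype]
  calc ∑ c : C, ∑' b : {a // code a = c}, f ((Equiv.sigmaFiberEquiv code) ⟨c, b⟩)
      ≤ ∑ _c : C, B := Finset.sum_le_sum fun c _ => h c
    _ = Fintype.card C * B := by
        rw [Finset.sum_const, Finset.card_univ, nsmul_eq_mul]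

variable {d : ℕ}

/-- the slab number of a site -/
def qq (s : ℤ) (L : ℕ) (a : V (d + 2)) : ℤ := (a 0 - s - 1) / L

lemma qq_eq {s q : ℤ} {L : ℕ} (hL : 1 ≤ L) {a : V (d + 2)} (h1 : s + q * L + 1 ≤ a 0)
    (h2 : a 0 ≤ s + (q + 1) * L) : qq s L a = q := by
  have hL' : (0 : ℤ) < L := by exact_mod_cast hL
  unfold qq
  apply le_antisymm
  · have : (a 0 - s - 1) / (L : ℤ) < q + 1 := (Int.ediv_lt_iff_lt_mul hL').2 (by linarith)
    omega
  · exact (Int.le_ediv_iff_mul_le hL').2 (by linarith)

/-- a part of the walk with given data -/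
def IsP (s : ℤ) (L : ℕ) (p : V (d + 2) × V (d + 2) × ℕ) (l : List (V (d + 2))) : Prop :=
  IsW p.1 p.2.1 p.2.2 l ∧ ∀ x ∈ l, s + qq s L p.1 * L + 1 ≤ x 0 ∧ x 0 ≤ s + (qq s L p.1 + 1) * L

/-- admissible data -/
def Gd (s : ℤ) (L R : ℕ) (p : V (d + 2) × V (d + 2) × ℕ) : Prop :=
  1 ≤ p.2.2 ∧ p.2.2 ≤ R ∧
  (p.1 0 = s + qq s L p.1 * L + 1 ∨ p.1 0 = s + (qq s L p.1 + 1) * L) ∧
  (p.2.1 0 = s + qq s L p.1 * L + 1 ∨ p.2.1 0 = s + (qq s L p.1 + 1) * L) ∧ |p.1 1| ≤ R

/-- the translation -/
def sh (t : V (d + 2)) (p : V (d + 2) × V (d + 2) × ℕ) : V (d + 2) × V (d + 2) × ℕ :=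
  (p.1 - t, p.2.1 - t, p.2.2)

lemma adj_sub (t x y : V (d + 2)) : Adj (x - t) (y - t) ↔ Adj x y := by
  unfold Adj
  simp

lemma isP_shift {s q : ℤ} {L : ℕ} {p : V (d + 2) × V (d + 2) × ℕ} {l : List (V (d + 2))}
    (hq : qq s L p.1 = q) (h : IsP s L p l) :
    IsS L (sh (Pi.single 0 (s + q * L)) p).1 (sh (Pi.single 0 (s + q * L)) p).2.1
      (sh (Pi.single 0 (s + q * L)) p).2.2 (l.map (fun x => x - Pi.single 0 (s + q * L))) := by
  obtain ⟨⟨h1, h2, h3, h4⟩, h5⟩ := h
  refine ⟨⟨?_, ?_, ?_, ?_⟩, ?_⟩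
  · simp [sh, h1]
  · rw [List.isChain_map]
    exact h2.imp fun x y hxy => (adj_sub _ x y).2 hxy
  · rw [List.head?_map, h3]; rfl
  · rw [List.getLast?_map, h4]; rfl
  · intro x hx
    obtain ⟨y, hy, rfl⟩ := List.mem_map.mp hx
    have h6 := h5 y hy
    rw [hq] at h6
    have h7 : (y - Pi.single 0 (s + q * L) : V (d + 2)) 0 = y 0 - (s + q * L) := by simp
    rw [h7]
    constructor
    · linarith [h6.1]
    · have := h6.2
      have e : s + (q + 1) * (L : ℤ) = s + q * L + L := by ring
      rw [e] at this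
      linarith

lemma FS_shift {g : ℕ → ℝ≥0∞} {s q : ℤ} {L : ℕ} (D : List (V (d + 2) × V (d + 2) × ℕ))
    (hq : ∀ p ∈ D, qq s L p.1 = q) :
    FS g (D.map (IsP s L)) ≤ FS g ((D.map (sh (Pi.single 0 (s + q * L)))).map
      (fun p => IsS L p.1 p.2.1 p.2.2)) := by
  unfold FS
  have hinj : Function.Injective (fun x : V (d + 2) => x - Pi.single 0 (s + q * (L : ℤ))) :=
    fun x y h => by simpa using h
  have key : ∀ f : List (List (V (d + 2))),
      List.Forall₂ (fun P l => P l) (D.map (IsP s L)) f →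
      List.Forall₂ (fun P l => P l) ((D.map (sh (Pi.single 0 (s + q * L)))).map
        (fun p => IsS L p.1 p.2.1 p.2.2))
        (f.map (List.map (fun x : V (d + 2) => x - Pi.single 0 (s + q * (L : ℤ))))) := by
    intro f hf
    rw [List.forall₂_map_left_iff] at hf
    rw [List.map_map, List.forall₂_map_left_iff, List.forall₂_map_right_iff]
    have h2 := (List.forall₂_and_left _ _).2 ⟨hq, hf⟩
    exact h2.imp fun p l h => isP_shift h.1 h.2
  let i : {f : List (List (V (d + 2))) // List.Forall₂ (fun P l => P l) (D.map (IsP s L)) f} →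
    {f : List (List (V (d + 2))) // List.Forall₂ (fun P l => P l)
      ((D.map (sh (Pi.single 0 (s + q * L)))).map (fun p => IsS L p.1 p.2.1 p.2.2)) f} :=
    fun f => ⟨_, key f.1 f.2⟩
  have hi : Function.Injective i := by
    intro f f' h
    have h1 := congrArg Subtype.val h
    have h2 : Function.Injective (List.map (fun x : V (d + 2) =>
        x - Pi.single 0 (s + q * (L : ℤ)))) := List.map_injective_iff.2 hinj
    exact Subtype.ext (List.map_injective_iff.2 h2 h1)
  refine le_trans (le_of_eq ?_) (ENNReal.tsum_comp_le_tsum_of_injective hi _)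
  refine tsum_congr fun f => ?_
  change w g f.1.flatten = w g (f.1.map (List.map _)).flatten
  rw [← List.map_flatten, w_map hinj]

lemma FS_nil (g : ℕ → ℝ≥0∞) : FS g ([] : List (List (V d) → Prop)) = 1 := by
  unfold FS
  rw [tsum_eq_single ⟨[], List.Forall₂.nil⟩]
  · simp [w_nil]
  · rintro ⟨f, hf⟩ hne
    cases hf
    exact absurd rfl hne

lemma totD_append (D D' : List (V (d + 2) × V (d + 2) × ℕ)) :
    totD (D ++ D') = totD D + totD D' := by
  simp [totD]

lemma totD_perm {D D' : List (V (d + 2) × V (d + 2) × ℕ)} (h : D.Perm D') : totD D = totD D' :=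
  (h.map _).sum_eq

lemma totD_sh (t : V (d + 2)) (D : List (V (d + 2) × V (d + 2) × ℕ)) :
    totD (D.map (sh t)) = totD D := by
  unfold totD
  rw [List.map_map]
  rfl

lemma adm_of_gd {s : ℤ} {L R : ℕ} {p : V (d + 2) × V (d + 2) × ℕ} (h : Gd s L R p) :
    Adm L R (sh (Pi.single 0 (s + qq s L p.1 * L)) p) := by
  obtain ⟨h1, h2, h3, h4, h5⟩ := h
  refine ⟨h1, h2, ?_, ?_, ?_⟩
  · have e : (sh (Pi.single 0 (s + qq s L p.1 * L)) p).1 0 = p.1 0 - (s + qq s L p.1 * L) := by
      simp [sh]
    rw [e]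
    rcases h3 with h | h
    · left; rw [h]; ring
    · right; rw [h]; ring
  · have e : (sh (Pi.single 0 (s + qq s L p.1 * L)) p).2.1 0 = p.2.1 0 - (s + qq s L p.1 * L) := by
      simp [sh]
    rw [e]
    rcases h4 with h | h
    · left; rw [h]; ring
    · right; rw [h]; ring
  · have e : (sh (Pi.single 0 (s + qq s L p.1 * L)) p).1 1 = p.1 1 := by
      simp [sh]
    rw [e]; exact h5

lemma FS_bound (h1 : S_FSperm) (h2 : S_FSappend) {g : ℕ → ℝ≥0∞} {E Q : ℝ≥0∞} {n L : ℕ}
    (s : ℤ)
    (H : ∀ D : List (V (d + 2) × V (d + 2) × ℕ), D ≠ [] → (∀ p ∈ D, Adm L (n + 2 * L) p) →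
      totD D ≤ n + 2 * L → D.length ≤ n / L + 1 →
      FS g (D.map (fun p => IsS L p.1 p.2.1 p.2.2)) ≤ E ^ totD D * Q ^ D.length) :
    ∀ (k : ℕ) (D : List (V (d + 2) × V (d + 2) × ℕ)), D.length ≤ k →
      (∀ p ∈ D, Gd s L (n + 2 * L) p) → totD D ≤ n + 2 * L → D.length ≤ n / L + 1 →
      FS g (D.map (IsP s L)) ≤ E ^ totD D * Q ^ D.length := by
  intro k
  induction k with
  | zero =>
    intro D hD _ _ _
    have : D = [] := List.length_eq_zero_iff.mp (by omega)
    subst this
    simp [FS_nil, totD]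
  | succ k ih =>
    intro D hD hG htot hlen
    cases D with
    | nil => simp [FS_nil, totD]
    | cons p0 D =>
      set D0 := p0 :: D with hD0
      set q := qq s L p0.1 with hq
      classical
      set D1 := D0.filter (fun p => decide (qq s L p.1 = q)) with hD1
      set D2 := D0.filter (fun p => !decide (qq s L p.1 = q)) with hD2
      have hperm : (D1 ++ D2).Perm D0 := List.filter_append_perm _ _
      have htot2 : totD D0 = totD D1 + totD D2 := by
        rw [← totD_perm hperm, totD_append]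
      have hlen2 : D0.length = D1.length + D2.length := by
        rw [← hperm.length_eq, List.length_append]
      have hne : D1 ≠ [] := by
        intro h
        have : p0 ∈ D1 := List.mem_filter.mpr ⟨by simp [hD0], by simp [hq]⟩
        rw [h] at this
        simp at this
      have hlen1 : 1 ≤ D1.length := List.length_pos_of_ne_nil hne
      have e1 : FS g (D0.map (IsP s L)) = FS g (D1.map (IsP s L)) * FS g (D2.map (IsP s L)) := by
        rw [h1 (d + 2) g _ _ (hperm.symm.map (IsP s L)), List.map_append]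
        refine h2 (d + 2) g _ _ ?_
        intro P hP Q' hQ l l' hl hl' x hx hx'
        obtain ⟨p, hp, rfl⟩ := List.mem_map.mp hP
        obtain ⟨p', hp', rfl⟩ := List.mem_map.mp hQ
        have hp2 : qq s L p.1 = q := by simpa using (List.mem_filter.mp hp).2
        have hp2' : qq s L p'.1 ≠ q := by simpa using (List.mem_filter.mp hp').2
        have h3 := hl.2 x hx
        have h4 := hl'.2 x hx'
        have hL0 : 1 ≤ L := by
          by_contra h
          have : L = 0 := by omega
          subst this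
          simp at h3
          omega
        have h5 := qq_eq hL0 h3.1 h3.2
        have h6 := qq_eq hL0 h4.1 h4.2
        exact hp2' (by rw [← h6, h5, hp2])
      have hq1 : ∀ p ∈ D1, qq s L p.1 = q := fun p hp => by
        simpa using (List.mem_filter.mp hp).2
      have b1 : FS g (D1.map (IsP s L)) ≤ E ^ totD D1 * Q ^ D1.length := by
        refine le_trans (FS_shift D1 hq1) ?_
        have := H (D1.map (sh (Pi.single 0 (s + q * L)))) (by simpa using hne) ?_ ?_ ?_
        · rwa [totD_sh, List.length_map] at this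
        · intro p hp
          obtain ⟨p', hp', rfl⟩ := List.mem_map.mp hp
          have h3 := adm_of_gd (hG p' (List.mem_of_mem_filter hp'))
          rwa [hq1 p' hp'] at h3
        · rw [totD_sh]; omega
        · rw [List.length_map]; omega
      have b2 : FS g (D2.map (IsP s L)) ≤ E ^ totD D2 * Q ^ D2.length :=
        ih D2 (by omega) (fun p hp => hG p (List.mem_of_mem_filter hp)) (by omega) (by omega)
      rw [e1, htot2, hlen2, pow_add, pow_add]
      calc FS g (D1.map (IsP s L)) * FS g (D2.map (IsP s L))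
          ≤ (E ^ totD D1 * Q ^ D1.length) * (E ^ totD D2 * Q ^ D2.length) := mul_le_mul' b1 b2
        _ = _ := by ring

/-- the data of a part -/
def dat (p : List (V (d + 2))) : V (d + 2) × V (d + 2) × ℕ :=
  (p.head?.getD 0, p.getLast?.getD 0, p.length)

lemma totD_dat (P : List (List (V (d + 2)))) : totD (P.map dat) = P.flatten.length := by
  rw [List.length_flatten]
  unfold totD
  rw [List.map_map]
  rfl

lemma part_dat {s : ℤ} {L R : ℕ} (hL : 1 ≤ L) {p : List (V (d + 2))} (h : Part L s p)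
    (hbox : ∀ x ∈ p, ∀ i, |x i| ≤ (R : ℤ)) (hlen : p.length ≤ R) :
    IsP s L (dat p) p ∧ Gd s L R (dat p) ∧ (∀ i, |(dat p).1 i| ≤ (R : ℤ)) ∧
      ∀ i, |(dat p).2.1 i| ≤ (R : ℤ) := by
  have hh : p.head? = some (p.head h.ne) := List.head?_eq_some_head h.ne
  have hl : p.getLast? = some (p.getLast h.ne) := List.getLast?_eq_some_getLast h.ne
  have e1 : (dat p).1 = p.head h.ne := by simp [dat, hh]
  have e2 : (dat p).2.1 = p.getLast h.ne := by simp [dat, hl]
  have e3 : (dat p).2.2 = p.length := rfl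
  obtain ⟨q, hs1, hs2, hs3⟩ := h.slab
  have hq : qq s L (dat p).1 = q := by
    rw [e1]
    have := hs1 _ (List.head_mem h.ne)
    exact qq_eq hL this.1 this.2
  have m1 := hs2 (p.head h.ne) (by rw [hh]; rfl)
  have m2 := hs3 (p.getLast h.ne) (by rw [hl]; rfl)
  refine ⟨⟨⟨rfl, h.chain, by rw [e1, hh], by rw [e2, hl]⟩, ?_⟩, ⟨?_, ?_, ?_, ?_, ?_⟩, ?_, ?_⟩
  · rw [hq]; exact hs1
  · rw [e3]; exact List.length_pos_of_ne_nil h.ne
  · rw [e3]; exact hlen
  · rw [hq, e1]; exact m1
  · rw [hq, e2]; exact m2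
  · rw [e1]; exact hbox _ (List.head_mem h.ne) 1
  · intro i; rw [e1]; exact hbox _ (List.head_mem h.ne) i
  · intro i; rw [e2]; exact hbox _ (List.getLast_mem h.ne) i

/-- the possible data -/
noncomputable def AA (d R : ℕ) : Finset (V (d + 2) × V (d + 2) × ℕ) :=
  (Fintype.piFinset fun _ => Finset.Icc (-(R : ℤ)) R) ×ˢ
    ((Fintype.piFinset fun _ => Finset.Icc (-(R : ℤ)) R) ×ˢ Finset.range (R + 1))

lemma card_AA (d R : ℕ) :
    (AA d R).card = (2 * R + 1) ^ (d + 2) * ((2 * R + 1) ^ (d + 2) * (R + 1)) := by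
  have h : ((R : ℤ) + 1 + R).toNat = 2 * R + 1 := by omega
  simp [AA, Finset.card_product, Fintype.card_piFinset, Int.card_Icc, h]

lemma mem_AA {R : ℕ} {p : V (d + 2) × V (d + 2) × ℕ} (h1 : ∀ i, |p.1 i| ≤ (R : ℤ))
    (h2 : ∀ i, |p.2.1 i| ≤ (R : ℤ)) (h3 : p.2.2 ≤ R) : p ∈ AA d R := by
  simp only [AA, Finset.mem_product, Fintype.mem_piFinset, Finset.mem_Icc, Finset.mem_range]
  exact ⟨fun i => abs_le.mp (h1 i), fun i => abs_le.mp (h2 i), by omega⟩

lemma num (d n L : ℕ) (hL : 1 ≤ L) :
    L * L * ((AA d (n + 2 * L)).card + 1) ^ (n / L + 1) ≤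
      ((4 * (n + 2 * L) + 4) ^ (2 * d + 10)) ^ (n / L + 4) := by
  set R := n + 2 * L with hR
  set T := 4 * R + 4 with hT
  have hT1 : 1 ≤ T := by omega
  have h1 : (AA d R).card + 1 ≤ T ^ (2 * d + 5) := by
    rw [card_AA]
    have a1 : (2 * R + 1) ^ (d + 2) ≤ T ^ (d + 2) := Nat.pow_le_pow_left (by omega) _
    have a2 : (2 * R + 1) ^ (d + 2) * ((2 * R + 1) ^ (d + 2) * (R + 1)) ≤
        T ^ (d + 2) * (T ^ (d + 2) * (R + 1)) :=
      Nat.mul_le_mul a1 (Nat.mul_le_mul a1 le_rfl)
    have a3 : T ^ (d + 2) * (T ^ (d + 2) * (R + 1)) = T ^ (2 * d + 4) * (R + 1) := by ring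
    have a4 : 1 ≤ T ^ (2 * d + 4) := Nat.one_le_pow _ _ hT1
    calc _ ≤ T ^ (2 * d + 4) * (R + 1) + T ^ (2 * d + 4) := by omega
      _ = T ^ (2 * d + 4) * (R + 2) := by ring
      _ ≤ T ^ (2 * d + 4) * T := Nat.mul_le_mul le_rfl (by omega)
      _ = T ^ (2 * d + 5) := by ring
  have hLT : L ≤ T := by omega
  set k := n / L with hk
  calc L * L * ((AA d R).card + 1) ^ (k + 1) ≤ T * T * (T ^ (2 * d + 5)) ^ (k + 1) :=
        Nat.mul_le_mul (Nat.mul_le_mul hLT hLT) (Nat.pow_le_pow_left h1 _)
    _ = T ^ (2 + (2 * d + 5) * (k + 1)) := by rw [← pow_mul, pow_add]; ring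
    _ ≤ T ^ ((2 * d + 10) * (k + 4)) := by
        refine Nat.pow_le_pow_right hT1 ?_
        nlinarith [Nat.zero_le (d * k)]
    _ = _ := by rw [pow_mul]

end DB

open DB in
theorem t_dec (hC : S_cut) (h1 : S_FSperm) (h2 : S_FSappend) : S_dec := by
  classical
  intro d g κ hg E Q n L hL hn hQ H
  have hch := fun l : {l : List (V (d + 2)) // l.length = n ∧ l.IsChain Adj ∧ l.head? = some 0} =>
    hC d n L hL hn l.1 l.2.1 l.2.2.1 l.2.2.2
  choose σ u v P hσ hu hv hfl hlen hpart hbox using hch
  have hflen : ∀ l, (P l).flatten.length = (u l).length + n + (v l).length := fun l => by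
    rw [← hfl l, List.length_append, List.length_append, l.2.1]
  have hflen2 : ∀ l, (P l).flatten.length ≤ n + 2 * L := fun l => by
    have a1 := hu l
    have a2 := hv l
    rw [hflen l]; omega
  have hpl : ∀ l, ∀ p ∈ P l, p.length ≤ n + 2 * L := fun l p hp =>
    le_trans (List.Sublist.length_le (List.sublist_flatten_of_mem hp)) (hflen2 l)
  have hpd : ∀ l, ∀ p ∈ P l, IsP (σ l : ℤ) L (dat p) p ∧ Gd (σ l : ℤ) L (n + 2 * L) (dat p) ∧
      (∀ i, |(dat p).1 i| ≤ ((n + 2 * L : ℕ) : ℤ)) ∧
      ∀ i, |(dat p).2.1 i| ≤ ((n + 2 * L : ℕ) : ℤ) := fun l p hp =>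
    part_dat hL (hpart l p hp) (fun x hx i => by
      have := hbox l x (List.mem_flatten.mpr ⟨p, hp, hx⟩) i
      push_cast; exact this) (hpl l p hp)
  have hmem : ∀ l, ((σ l, (u l).length), (P l).map dat) ∈
      (Finset.range L ×ˢ Finset.range L) ×ˢ LL (AA d (n + 2 * L)) (n / L + 1) := fun l => by
    rw [Finset.mem_product, Finset.mem_product, Finset.mem_range, Finset.mem_range]
    refine ⟨⟨hσ l, hu l⟩, mem_LL (by rw [List.length_map]; exact hlen l) ?_⟩
    intro x hx
    obtain ⟨p, hp, rfl⟩ := List.mem_map.mp hx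
    have h3 := hpd l p hp
    exact mem_AA h3.2.2.1 h3.2.2.2 (hpl l p hp)
  let code : {l : List (V (d + 2)) // l.length = n ∧ l.IsChain Adj ∧ l.head? = some 0} →
      ↥((Finset.range L ×ˢ Finset.range L) ×ˢ LL (AA d (n + 2 * L)) (n / L + 1)) :=
    fun l => ⟨_, hmem l⟩
  have hB := tsum_le_card_mul code (fun l => κ ^ (2 * L) * w g l.1)
    (E ^ n * (1 + E) ^ (2 * L) * Q ^ (n / L + 4)) ?_
  · rw [ENNReal.tsum_mul_left] at hB
    unfold Y
    refine le_trans hB ?_
    rw [Fintype.card_coe, Finset.card_product, Finset.card_product, Finset.card_range]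
    have h3 : (L * L * (LL (AA d (n + 2 * L)) (n / L + 1)).card) ≤
        ((4 * (n + 2 * L) + 4) ^ (2 * d + 10)) ^ (n / L + 4) :=
      le_trans (Nat.mul_le_mul le_rfl (card_LL _ _)) (num d n L hL)
    have h4 : ((L * L * (LL (AA d (n + 2 * L)) (n / L + 1)).card : ℕ) : ℝ≥0∞) ≤
        ((((4 * (n + 2 * L) + 4) ^ (2 * d + 10)) ^ (n / L + 4) : ℕ) : ℝ≥0∞) := by
      exact_mod_cast h3
    refine le_trans (mul_le_mul' h4 le_rfl) (le_of_eq ?_)
    rw [Nat.cast_pow, Nat.cast_pow, mul_pow]
    ring
  · intro c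
    by_cases hne : Nonempty {a // code a = c}
    · obtain ⟨⟨l0, hl0⟩⟩ := hne
      have hfib : ∀ a : {a // code a = c}, σ a.1 = σ l0 ∧ (u a.1).length = (u l0).length ∧
          (P a.1).map dat = (P l0).map dat := by
        intro a
        have h3 : code a.1 = code l0 := a.2.trans hl0.symm
        have h4 : ((σ a.1, (u a.1).length), (P a.1).map dat) =
          ((σ l0, (u l0).length), (P l0).map dat) := congrArg Subtype.val h3
        simp only [Prod.mk.injEq] at h4
        exact ⟨h4.1.1, h4.1.2, h4.2⟩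
      have hF : ∀ a : {a // code a = c}, List.Forall₂ (fun P l => P l)
          (((P l0).map dat).map (IsP (σ l0 : ℤ) L)) (P a.1) := by
        intro a
        rw [← (hfib a).2.2, ← (hfib a).1, List.map_map, List.forall₂_map_left_iff,
          List.forall₂_same]
        intro p hp
        exact (hpd a.1 p hp).1
      let i : {a // code a = c} → {f : List (List (V (d + 2))) // List.Forall₂ (fun P l => P l)
          (((P l0).map dat).map (IsP (σ l0 : ℤ) L)) f} := fun a => ⟨P a.1, hF a⟩
      have hi : Function.Injective i := by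
        intro a a' h
        have h3 : P a.1 = P a'.1 := congrArg Subtype.val h
        have h4 : u a.1 ++ (a.1.1 ++ v a.1) = u a'.1 ++ (a'.1.1 ++ v a'.1) := by
          rw [← List.append_assoc, ← List.append_assoc, hfl, hfl, h3]
        have h5 := (List.append_inj h4 (by rw [(hfib a).2.1, (hfib a').2.1])).2
        have h6 := (List.append_inj h5 (by rw [a.1.2.1, a'.1.2.1])).1
        exact Subtype.ext (Subtype.ext h6)
      have hw : ∀ a : {a // code a = c}, κ ^ (2 * L) * w g a.1.1 ≤ w g (P a.1).flatten := by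
        intro a
        have a1 := hu a.1
        have a2 := hv a.1
        have h3 : κ ^ (2 * L) ≤ κ ^ (u a.1 ++ v a.1).length := by
          refine pow_le_pow_right_of_le_one' hg.κ1 ?_
          rw [List.length_append]; omega
        refine le_trans (mul_le_mul' h3 le_rfl) (le_trans (w_append_ge hg a.1.1 _) ?_)
        refine le_of_eq (w_perm ?_)
        rw [← hfl a.1, ← List.append_assoc]
        exact List.perm_append_comm.append_right _
      calc ∑' a : {a // code a = c}, κ ^ (2 * L) * w g a.1.1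
          ≤ ∑' a : {a // code a = c}, w g (i a).1.flatten := ENNReal.tsum_le_tsum hw
        _ ≤ FS g (((P l0).map dat).map (IsP (σ l0 : ℤ) L)) :=
            ENNReal.tsum_comp_le_tsum_of_injective hi
              (fun f : {f : List (List (V (d + 2))) // List.Forall₂ (fun P l => P l)
                (((P l0).map dat).map (IsP (σ l0 : ℤ) L)) f} => w g f.1.flatten)
        _ ≤ E ^ totD ((P l0).map dat) * Q ^ ((P l0).map dat).length := by
            refine FS_bound h1 h2 (σ l0 : ℤ) H _ _ le_rfl ?_ ?_ ?_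
            · intro p hp
              obtain ⟨p', hp', rfl⟩ := List.mem_map.mp hp
              exact (hpd l0 p' hp').2.1
            · rw [totD_dat]; exact hflen2 l0
            · rw [List.length_map]; exact hlen l0
        _ ≤ E ^ n * (1 + E) ^ (2 * L) * Q ^ (n / L + 4) := by
            rw [totD_dat, hflen l0, List.length_map]
            have a1 := hu l0
            have a2 := hv l0
            have e : (u l0).length + n + (v l0).length = n + ((u l0).length + (v l0).length) := by
              ring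
            rw [e, pow_add]
            refine mul_le_mul' (mul_le_mul' le_rfl ?_) ?_
            · calc E ^ ((u l0).length + (v l0).length)
                  ≤ (1 + E) ^ ((u l0).length + (v l0).length) :=
                    pow_le_pow_left' le_add_self _
                _ ≤ (1 + E) ^ (2 * L) := pow_le_pow_right' le_self_add (by omega)
            · exact pow_le_pow_right' hQ (le_trans (hlen l0) (by omega))
    · haveI := not_nonempty_iff.mp hne
      rw [tsum_empty]
      exact zero_le


end Pool.Agent.R651.CP
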