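import Pool.Agent.R651.CP.P_LM5

set_option autoImplicit false

open scoped ENNReal Topology
open Filter

namespace Pool.Agent.R651.CP

variable {d : ℕ} {g : ℕ → ℝ≥0∞} {κ : ℝ≥0∞}

/-- The constant in the upper bound. -/
noncomputable def BB (g : ℕ → ℝ≥0∞) (κ : ℝ≥0∞) (d : ℕ) : ℝ :=
  2 * |Real.log κ.toReal| + 2 * Real.log (1 + Real.exp (muY g d)) +
    7 * ((2 * d + 10 : ℕ) * (Real.log 16 + 1) +
      3 * (|Real.log κ.toReal| + Real.log (1 + Real.exp (muY g d))) +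
        Real.log (2 * 672 ^ 3) + 6)

lemma up_le (hCL : S_closed) (hML : S_merge) (hSL : S_slab) (hDB : S_dec) (h : Ok g κ) {n : ℕ}
    (hn : 1 ≤ n) : Real.log (Y g (0 : V (d + 2)) n).toReal ≤
      n * muY g d + BB g κ d * (Nat.sqrt n : ℝ) * (Real.log n + 1) := by
  set L := Nat.sqrt n with hLdef
  have hL : 1 ≤ L := Nat.sqrt_pos.mpr hn
  have hLn : L ≤ n := Nat.sqrt_le_self n
  have hlt : n < (L + 1) * (L + 1) := Nat.lt_succ_sqrt n
  have hdiv : n / L ≤ L + 2 := Nat.div_le_of_le_mul (by nlinarith)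
  have h0 := log_Y_dec (d := d) hCL hML hSL hDB h hL hn
  have hn0 : (0 : ℝ) < n := by exact_mod_cast hn
  have hn1 : (1 : ℝ) ≤ n := by exact_mod_cast hn
  have hu : 0 ≤ Real.log n := Real.log_nonneg hn1
  have hb : 0 ≤ Real.log (1 + Real.exp (muY g d)) :=
    Real.log_nonneg (by linarith [Real.exp_pos (muY g d)])
  have ha : 0 ≤ |Real.log κ.toReal| := abs_nonneg _
  have ha' : -Real.log κ.toReal ≤ |Real.log κ.toReal| := neg_le_abs _
  have hl16 : 0 ≤ Real.log 16 := Real.log_nonneg (by norm_num)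
  have hl2 : 0 ≤ Real.log (2 * 672 ^ 3) := Real.log_nonneg (by norm_num)
  have hP : ((n / L + 4 : ℕ) : ℝ) ≤ 7 * L := by exact_mod_cast (by omega : n / L + 4 ≤ 7 * L)
  have hP0 : (0 : ℝ) ≤ ((n / L + 4 : ℕ) : ℝ) := by positivity
  have hL0 : (0 : ℝ) ≤ L := by positivity
  have hℓ1 : Real.log ((4 * (n + 2 * L) + 4 : ℕ) : ℝ) ≤ Real.log 16 + Real.log n := by
    rw [← Real.log_mul (by norm_num) hn0.ne']
    refine Real.log_le_log (by exact_mod_cast (by omega)) ?_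
    exact_mod_cast (by omega : 4 * (n + 2 * L) + 4 ≤ 16 * n)
  have hT : TT (n + 2 * L) ≤ 672 * n ^ 2 := by
    unfold TT
    calc 12 * (4 * (n + 2 * L) + 2) * (n + 2 * L + 1) ≤ 12 * (14 * n) * (4 * n) := by
          apply Nat.mul_le_mul <;> omega
      _ = 672 * n ^ 2 := by ring
  have hℓ2 : Real.log ((2 * TT (n + 2 * L) ^ 3 : ℕ) : ℝ) ≤
      Real.log (2 * 672 ^ 3) + 6 * Real.log n := by
    have e : (6 : ℝ) * Real.log n = Real.log ((n : ℝ) ^ 6) := by
      rw [Real.log_pow]; norm_num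
    rw [e, ← Real.log_mul (by norm_num) (by positivity)]
    have h1 := Nat.one_le_pow 3 _ (TT_pos (n + 2 * L))
    refine Real.log_le_log (by exact_mod_cast (by omega)) ?_
    have h2 : 2 * TT (n + 2 * L) ^ 3 ≤ 2 * 672 ^ 3 * n ^ 6 := by
      calc 2 * TT (n + 2 * L) ^ 3 ≤ 2 * (672 * n ^ 2) ^ 3 :=
            Nat.mul_le_mul_left _ (Nat.pow_le_pow_left hT _)
        _ = 2 * 672 ^ 3 * n ^ 6 := by ring
    exact_mod_cast h2
  set u := Real.log n with hudef
  set b := Real.log (1 + Real.exp (muY g d)) with hbdef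
  set a := |Real.log κ.toReal| with hadef
  set c : ℝ := ((2 * d + 10 : ℕ) : ℝ) with hcdef
  have hc : 0 ≤ c := by rw [hcdef]; positivity
  set ℓ1 := Real.log ((4 * (n + 2 * L) + 4 : ℕ) : ℝ)
  set ℓ2 := Real.log ((2 * TT (n + 2 * L) ^ 3 : ℕ) : ℝ)
  set W := c * (Real.log 16 + 1) + 3 * (a + b) + Real.log (2 * 672 ^ 3) + 6 with hW
  have hin : c * ℓ1 + (3 * (-Real.log κ.toReal + b) + ℓ2) ≤ W * (u + 1) := by
    have h1 : c * ℓ1 ≤ c * (Real.log 16 + u) := mul_le_mul_of_nonneg_left hℓ1 hc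
    have h2 : 0 ≤ c * Real.log 16 * u := by positivity
    have h3 : 0 ≤ (a + b) * u := by positivity
    have h4 : 0 ≤ Real.log (2 * 672 ^ 3) * u := by positivity
    rw [hW]
    nlinarith
  have hW0 : 0 ≤ W * (u + 1) := by rw [hW]; positivity
  have h5 : ((n / L + 4 : ℕ) : ℝ) * (c * ℓ1 + (3 * (-Real.log κ.toReal + b) + ℓ2)) ≤
      7 * L * (W * (u + 1)) := by
    calc _ ≤ ((n / L + 4 : ℕ) : ℝ) * (W * (u + 1)) := mul_le_mul_of_nonneg_left hin hP0
      _ ≤ _ := mul_le_mul_of_nonneg_right hP hW0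
  have h6 : -(2 * L * Real.log κ.toReal) ≤ 2 * L * a := by nlinarith
  have h7 : 0 ≤ 2 * (a + b) * L * u := by positivity
  have h8 : BB g κ d * (L : ℝ) * (u + 1) =
      2 * (a + b) * L + 2 * (a + b) * L * u + 7 * L * (W * (u + 1)) := by
    unfold BB
    rw [hW]
    ring
  rw [h8]
  linarith

/-- **Piece LM**: the limit exists. -/
theorem t_lim (hCL : S_closed) (hML : S_merge) (hSL : S_slab) (hDB : S_dec) : S_lim := by
  intro d g κ h
  refine ⟨muY g d, ?_⟩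
  exact real_B (y := fun n => Real.log (Y g (0 : V (d + 2)) n).toReal)
    (fun n hn => abs_log_Y h (0 : V (d + 2)) hn) rfl
    (fun n hn => up_le hCL hML hSL hDB h hn)

end Pool.Agent.R651.CP
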