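import Pool.Agent.R651.CP.Stm

/-!
# Piece ML: merging a family of loops into one loop
-/

set_option autoImplicit false

open scoped ENNReal

namespace Pool.Agent.R651.CP

namespace ML

variable {d : ℕ}

lemma adj_symm {x y : V d} (h : Adj x y) : Adj y x := by
  unfold Adj at *
  rw [← h]
  exact Finset.sum_congr rfl fun i _ => abs_sub_comm _ _

lemma adj_add {x y : V d} (c : V d) (h : Adj x y) : Adj (x + c) (y + c) := by
  unfold Adj at *
  simpa using h

/-- The first unit vector. -/
def e0 : V (d + 2) := Pi.single 0 1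

lemma adj_e0 (x : V (d + 2)) : Adj x (x + e0) := by
  unfold Adj e0
  rw [Finset.sum_eq_single 0]
  · simp
  · intro i _ hi
    simp [hi]
  · simp

lemma isL_iff (s : V d) (n : ℕ) (l : List (V d)) :
    IsL s n l ↔ l.length = n ∧ l.head? = some s ∧ (l ++ [s]).IsChain Adj := by
  unfold IsL
  rw [List.isChain_append]
  constructor
  · rintro ⟨h1, h2, h3, h4⟩
    refine ⟨h1, h3, h2, List.isChain_singleton _, ?_⟩
    intro x hx y hy
    simp only [List.head?_cons, Option.mem_def, Option.some.injEq] at hy
    rw [← hy]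
    exact h4 x hx
  · rintro ⟨h1, h2, h3, _, h5⟩
    exact ⟨h1, h3, h2, fun x hx => h5 x hx s (by simp)⟩

lemma isL_map (s c : V d) (n : ℕ) (l : List (V d)) (h : IsL s n l) :
    IsL (s + c) n (l.map (fun y => y + c)) := by
  rw [isL_iff] at h ⊢
  obtain ⟨h1, h2, h3⟩ := h
  refine ⟨by rw [List.length_map, h1], by rw [List.head?_map, h2]; rfl, ?_⟩
  have h4 : l.map (fun y => y + c) ++ [s + c] = (l ++ [s]).map (fun y => y + c) := by simp
  rw [h4, List.isChain_map]
  exact h3.imp fun _ _ h => adj_add c h

/-- Rotation of a loop. -/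
lemma rot_chain {s x : V d} {n : ℕ} {p t : List (V d)} (h : IsL s n (p ++ x :: t)) :
    (x :: (t ++ p ++ [x])).IsChain Adj := by
  rw [isL_iff] at h
  obtain ⟨_, h2, h3⟩ := h
  rw [List.append_assoc, List.cons_append, List.isChain_split] at h3
  cases p with
  | nil =>
    simp only [List.nil_append, List.head?_cons, Option.some.injEq] at h2
    subst h2
    simpa using h3.2
  | cons y p =>
    simp only [List.cons_append, List.head?_cons, Option.some.injEq] at h2
    subst h2
    have h4 : x :: (t ++ (y :: p) ++ [x]) = (x :: t) ++ y :: (p ++ [x]) := by simp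
    rw [h4, List.isChain_split]
    exact ⟨by simpa using h3.2, by simpa using h3.1⟩

/-- Insertion of a closed chain. -/
lemma ins {s z : V d} {n : ℕ} {p q W : List (V d)} (h : IsL s n (p ++ z :: q))
    (hW : (z :: (W ++ [z])).IsChain Adj) :
    IsL s (n + (W.length + 1)) (p ++ z :: (W ++ [z] ++ q)) := by
  rw [isL_iff] at h ⊢
  obtain ⟨h1, h2, h3⟩ := h
  refine ⟨?_, ?_, ?_⟩
  · rw [← h1]
    simp only [List.length_append, List.length_cons, List.length_nil]
    omega
  · cases p with
    | nil => simpa using h2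
    | cons y p => simpa using h2
  · rw [List.append_assoc, List.cons_append, List.isChain_split] at h3
    have h4 : p ++ z :: (W ++ [z] ++ q) ++ [s] = p ++ z :: (W ++ z :: (q ++ [s])) := by simp
    rw [h4, List.isChain_split]
    refine ⟨h3.1, ?_⟩
    have h5 : z :: (W ++ z :: (q ++ [s])) = (z :: W) ++ z :: (q ++ [s]) := rfl
    rw [h5, List.isChain_split]
    exact ⟨by simpa using hW, h3.2⟩

/-- The inserted list without its last element `z`. -/
def WW (c : Bool) (p : List (V (d + 2))) (x : V (d + 2)) (t : List (V (d + 2)))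
    (z : V (d + 2)) : List (V (d + 2)) :=
  if c then (x :: (t ++ p)).map (fun y => y + (z + e0 - x)) ++ [z + e0] else t ++ p

/-- The additional length. -/
def ex (c : Bool) : ℕ := if c then 2 else 0

lemma WW_len (c : Bool) (p : List (V (d + 2))) (x : V (d + 2)) (t : List (V (d + 2)))
    (z : V (d + 2)) : (WW c p x t z).length + 1 = (p ++ x :: t).length + ex c := by
  cases c <;> simp [WW, ex] <;> omega

lemma WW_chain {c : Bool} {p : List (V (d + 2))} {x : V (d + 2)} {t : List (V (d + 2))}
    {z : V (d + 2)} (hz : c = false → z = x) {s : V (d + 2)} {n : ℕ}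
    (h : IsL s n (p ++ x :: t)) : (z :: (WW c p x t z ++ [z])).IsChain Adj := by
  have h1 := rot_chain h
  cases c with
  | false =>
    rw [hz rfl]
    simpa [WW] using h1
  | true =>
    have h2 : (x :: (t ++ p ++ [x])).map (fun y => y + (z + e0 - x)) =
        (z + e0) :: ((t ++ p).map (fun y => y + (z + e0 - x)) ++ [z + e0]) := by
      simp
    have h3 : ((x :: (t ++ p ++ [x])).map (fun y => y + (z + e0 - x))).IsChain Adj := by
      rw [List.isChain_map]
      exact h1.imp fun _ _ h => adj_add _ h
    rw [h2] at h3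
    have h4 : z :: (WW true p x t z ++ [z]) =
        z :: (z + e0) :: ((t ++ p).map (fun y => y + (z + e0 - x)) ++ (z + e0) :: [z]) := by
      simp [WW]
    rw [h4, List.isChain_cons_cons]
    refine ⟨adj_e0 z, ?_⟩
    have h5 : (z + e0) :: ((t ++ p).map (fun y => y + (z + e0 - x)) ++ (z + e0) :: [z]) =
        ((z + e0) :: (t ++ p).map (fun y => y + (z + e0 - x))) ++ (z + e0) :: [z] := rfl
    rw [h5, List.isChain_split]
    refine ⟨h3, ?_⟩
    rw [List.isChain_cons_cons]
    exact ⟨adj_symm (adj_e0 z), List.isChain_singleton _⟩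

lemma map_inj {v v' : List (V d)} {c c' : V d} {s : V d} (h : v.head? = some s)
    (h' : v'.head? = some s)
    (he : v.map (fun y => y + c) = v'.map (fun y => y + c')) : v = v' := by
  cases v with
  | nil => simp at h
  | cons a u =>
    cases v' with
    | nil => simp at h'
    | cons a' u' =>
      simp only [List.head?_cons, Option.some.injEq] at h h'
      subst h
      subst h'
      simp only [List.map_cons, List.cons.injEq, add_right_inj] at he
      obtain ⟨rfl, he⟩ := he
      rw [List.map_injective_iff.2 (add_left_injective c) he]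

lemma WW_inj {c : Bool} {p p' t t' : List (V (d + 2))} {x x' z s : V (d + 2)}
    (ht : t.length = t'.length)
    (h : (p ++ x :: t).head? = some s) (h' : (p' ++ x' :: t').head? = some s)
    (hz : c = false → z = x) (hz' : c = false → z = x')
    (he : WW c p x t z = WW c p' x' t' z) : p ++ x :: t = p' ++ x' :: t' := by
  cases c with
  | false =>
    have he' : t ++ p = t' ++ p' := by simpa [WW] using he
    obtain ⟨h1, h2⟩ := List.append_inj he' ht
    rw [h1, h2, ← hz rfl, ← hz' rfl]
  | true =>
    have he' : (x :: (t ++ p)).map (fun y => y + (z + e0 - x)) =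
        (x' :: (t' ++ p')).map (fun y => y + (z + e0 - x')) := by
      simp only [WW, if_true] at he
      exact List.append_cancel_right he
    simp only [List.map_cons, List.map_append, List.cons.injEq] at he'
    obtain ⟨h0, he2⟩ := he'
    obtain ⟨h1, h2⟩ := List.append_inj he2 (by simp [ht])
    refine map_inj (c := z + e0 - x) (c' := z + e0 - x') h h' ?_
    simp only [List.map_append, List.map_cons, h0, h1, h2]

/-- Families of loops. -/
def Fam (ls : List (V (d + 2) × ℕ)) (f : List (List (V (d + 2)))) : Prop :=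
  List.Forall₂ (fun P l => P l) (ls.map (fun p => IsL p.1 p.2)) f

lemma fam_iff (ls : List (V (d + 2) × ℕ)) (f : List (List (V (d + 2)))) :
    Fam ls f ↔ f.length = ls.length ∧ ∀ (i : ℕ) (h : i < ls.length) (h' : i < f.length),
      IsL (ls[i]).1 (ls[i]).2 f[i] := by
  unfold Fam
  rw [List.forall₂_map_left_iff, List.forall₂_iff_get]
  constructor
  · rintro ⟨h1, h2⟩
    exact ⟨h1.symm, fun i h h' => h2 i h h'⟩
  · rintro ⟨h1, h2⟩
    exact ⟨h1.symm, fun i h h' => h2 i h h'⟩

/-- The new data. -/
def nd (ls : List (V (d + 2) × ℕ)) (N : ℕ) (c : Bool) (j : ℕ) : List (V (d + 2) × ℕ) :=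
  ls.set j ((ls.getD j (0, 0)).1, (ls.getD j (0, 0)).2 + (N + ex c))

/-- The relation between the old family, the mark and the new family. -/
def Rel (c : Bool) (j a b : ℕ) (f f' : List (List (V (d + 2)))) : Prop :=
  ∃ (rest : List (List (V (d + 2)))) (p t p1 q : List (V (d + 2))) (x z : V (d + 2)),
    f = (p ++ x :: t) :: rest ∧ j < rest.length ∧ rest.getD j [] = p1 ++ z :: q ∧
    p.length = b ∧ p1.length = a ∧ (c = false → z = x) ∧
    f' = rest.set j (p1 ++ z :: (WW c p x t z ++ [z] ++ q))

lemma rel_inj {c : Bool} {j a b : ℕ} {s : V (d + 2)} {N : ℕ} {ls : List (V (d + 2) × ℕ)}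
    {f g f' : List (List (V (d + 2)))} (hf : Fam ((s, N) :: ls) f) (hg : Fam ((s, N) :: ls) g)
    (h : Rel c j a b f f') (h' : Rel c j a b g f') : f = g := by
  obtain ⟨r, p, t, p1, q, x, z, rfl, hj, hr, hb, ha, hz, hf'⟩ := h
  obtain ⟨r', p', t', p1', q', x', z', rfl, hj', hr', hb', ha', hz', hg'⟩ := h'
  rw [fam_iff] at hf hg
  have hlen : r.length = r'.length := by
    have h1 := hf.1
    have h2 := hg.1
    simp only [List.length_cons] at h1 h2
    omega
  have hv := hf.2 0 (by simp) (by simp)
  have hv' := hg.2 0 (by simp) (by simp)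
  simp only [List.getElem_cons_zero] at hv hv'
  have hl := hf.2 (j + 1) (by have := hf.1; simp only [List.length_cons] at this ⊢; omega)
    (by simp only [List.length_cons]; omega)
  have hl' := hg.2 (j + 1) (by have := hg.1; simp only [List.length_cons] at this ⊢; omega)
    (by simp only [List.length_cons]; omega)
  simp only [List.getElem_cons_succ] at hl hl'
  have er : r[j] = p1 ++ z :: q := by rw [← hr, List.getD_eq_getElem _ _ hj]
  have er' : r'[j] = p1' ++ z' :: q' := by rw [← hr', List.getD_eq_getElem _ _ hj']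
  rw [er] at hl
  rw [er'] at hl'
  have hset : r.set j (p1 ++ z :: (WW c p x t z ++ [z] ++ q)) =
      r'.set j (p1' ++ z' :: (WW c p' x' t' z' ++ [z'] ++ q')) := by rw [← hf', ← hg']
  have hins : p1 ++ z :: (WW c p x t z ++ [z] ++ q) =
      p1' ++ z' :: (WW c p' x' t' z' ++ [z'] ++ q') := by
    have h1 : (r.set j (p1 ++ z :: (WW c p x t z ++ [z] ++ q)))[j]'(by simpa using hj) =
        (r'.set j (p1' ++ z' :: (WW c p' x' t' z' ++ [z'] ++ q')))[j]'(by simpa using hj') := by
      simp only [hset]
    rwa [List.getElem_set_self, List.getElem_set_self] at h1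
  obtain ⟨h1, h2⟩ := List.append_inj hins (by rw [ha, ha'])
  rw [List.cons.injEq] at h2
  obtain ⟨rfl, h2⟩ := h2
  have hN1 := hv.1
  have hN2 := hv'.1
  have hn1 := hl.1
  have hn2 := hl'.1
  have hW1 := WW_len c p x t z
  have hW2 := WW_len c p' x' t' z
  simp only [List.length_append, List.length_cons] at hN1 hN2 hn1 hn2 hW1 hW2
  obtain ⟨h3, h4⟩ := List.append_inj h2 (by
    simp only [List.length_append, List.length_cons, List.length_nil]
    omega)
  have h5 := List.append_cancel_right h3
  have hvv : p ++ x :: t = p' ++ x' :: t' := by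
    refine WW_inj (c := c) (z := z) (s := s) (by omega) hv.2.2.1 hv'.2.2.1 hz hz' h5
  rw [hvv]
  congr 1
  refine List.ext_getElem hlen fun i hi hi' => ?_
  by_cases hij : i = j
  · subst hij
    rw [er, er', h1, h4]
  · have h6 : (r.set j (p1 ++ z :: (WW c p x t z ++ [z] ++ q)))[i]'(by simpa using hi) =
        (r'.set j (p1' ++ z :: (WW c p' x' t' z ++ [z] ++ q')))[i]'(by simpa using hi') := by
      simp only [hset]
    rwa [List.getElem_set_ne (Ne.symm hij), List.getElem_set_ne (Ne.symm hij)] at h6

lemma set_perm {α : Type} (W l' : List α) : ∀ (r : List (List α)) (j : ℕ) (hj : j < r.length),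
    l'.Perm (r[j] ++ W) → (r.set j l').flatten.Perm (r.flatten ++ W) := by
  intro r
  induction r with
  | nil => intro j hj; simp at hj
  | cons a r ih =>
    intro j hj h
    cases j with
    | zero =>
      simp only [List.getElem_cons_zero] at h
      simp only [List.set_cons_zero, List.flatten_cons]
      refine (h.append_right _).trans ?_
      rw [List.append_assoc, List.append_assoc]
      exact List.Perm.append_left _ List.perm_append_comm
    | succ j =>
      simp only [List.getElem_cons_succ] at h
      simp only [List.set_cons_succ, List.flatten_cons]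
      rw [List.append_assoc]
      exact List.Perm.append_left _ (ih j (by simpa using hj) h)

lemma ins_perm (p1 q W : List (V (d + 2))) (z : V (d + 2)) :
    (p1 ++ z :: (W ++ [z] ++ q)).Perm ((p1 ++ z :: q) ++ (W ++ [z])) := by
  have h1 : p1 ++ z :: (W ++ [z] ++ q) = (p1 ++ [z]) ++ ((W ++ [z]) ++ q) := by simp
  have h2 : (p1 ++ z :: q) ++ (W ++ [z]) = (p1 ++ [z]) ++ (q ++ (W ++ [z])) := by simp
  rw [h1, h2]
  exact List.Perm.append_left _ List.perm_append_comm

lemma rot_perm (p t : List (V (d + 2))) (x : V (d + 2)) :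
    (x :: (t ++ p)).Perm (p ++ x :: t) := by
  have h1 : x :: (t ++ p) = (x :: t) ++ p := rfl
  rw [h1]
  exact List.perm_append_comm

lemma weight_false {g : ℕ → ℝ≥0∞} {κ : ℝ≥0∞} (hg : Ok g κ) (rest : List (List (V (d + 2))))
    (j : ℕ) (hj : j < rest.length) (p t p1 q : List (V (d + 2))) (x : V (d + 2))
    (hr : rest[j] = p1 ++ x :: q) :
    κ ^ 2 * w g ((p ++ x :: t) :: rest).flatten ≤
      w g (rest.set j (p1 ++ x :: (WW false p x t x ++ [x] ++ q))).flatten := by
  have h1 : (rest.set j (p1 ++ x :: (WW false p x t x ++ [x] ++ q))).flatten.Perm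
      (rest.flatten ++ (WW false p x t x ++ [x])) := by
    refine set_perm _ _ rest j hj ?_
    rw [hr]
    exact ins_perm _ _ _ _
  have h2 : (rest.flatten ++ (WW false p x t x ++ [x])).Perm ((p ++ x :: t) ++ rest.flatten) := by
    refine List.perm_append_comm.trans (List.Perm.append_right _ ?_)
    have h3 : (WW false p x t x ++ [x]).Perm (x :: (t ++ p)) := by
      simp only [WW, Bool.false_eq_true, if_false]
      exact List.perm_append_singleton _ _
    exact h3.trans (rot_perm p t x)
  rw [w_perm (h1.trans h2), List.flatten_cons]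
  refine (mul_le_mul' (pow_le_one' hg.κ1 2) le_rfl).trans ?_
  rw [one_mul]

lemma weight_true {g : ℕ → ℝ≥0∞} {κ : ℝ≥0∞} (hg : Ok g κ) (rest : List (List (V (d + 2))))
    (j : ℕ) (hj : j < rest.length) (p t p1 q : List (V (d + 2))) (x z : V (d + 2))
    (hr : rest[j] = p1 ++ z :: q) (hdis : ∀ y ∈ p ++ x :: t, y ∉ rest.flatten)
    (hmin : ∀ y ∈ p ++ x :: t, x 0 ≤ y 0) (hmax : ∀ y ∈ rest.flatten, y 0 ≤ z 0) :
    κ ^ 2 * w g ((p ++ x :: t) :: rest).flatten ≤
      w g (rest.set j (p1 ++ z :: (WW true p x t z ++ [z] ++ q))).flatten := by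
  have h1 : (rest.set j (p1 ++ z :: (WW true p x t z ++ [z] ++ q))).flatten.Perm
      (rest.flatten ++ (WW true p x t z ++ [z])) := by
    refine set_perm _ _ rest j hj ?_
    rw [hr]
    exact ins_perm _ _ _ _
  have h2 : (rest.flatten ++ (WW true p x t z ++ [z])).Perm
      (((p ++ x :: t).map (fun y => y + (z + e0 - x)) ++ rest.flatten) ++ [z + e0, z]) := by
    have h3 : WW true p x t z ++ [z] =
        (x :: (t ++ p)).map (fun y => y + (z + e0 - x)) ++ [z + e0, z] := by
      simp [WW]
    rw [h3]
    refine List.Perm.trans ?_ (List.Perm.append_right _ List.perm_append_comm)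
    rw [List.append_assoc]
    refine List.Perm.append_left _ (List.Perm.append_right _ ?_)
    exact (rot_perm p t x).map _
  rw [w_perm (h1.trans h2), List.flatten_cons]
  refine le_trans ?_ (w_append_ge hg _ _)
  have h4 : ([z + e0, z] : List (V (d + 2))).length = 2 := rfl
  rw [h4]
  refine mul_le_mul' le_rfl ?_
  have hd2 : ∀ y ∈ (p ++ x :: t).map (fun y => y + (z + e0 - x)), y ∉ rest.flatten := by
    intro y hy hy2
    rw [List.mem_map] at hy
    obtain ⟨y', hy', rfl⟩ := hy
    have h5 := hmin y' hy'
    have h6 := hmax _ hy2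
    simp only [Pi.add_apply, Pi.sub_apply, e0, Pi.single_eq_same] at h6
    omega
  rw [w_append_of_disjoint hdis, w_append_of_disjoint hd2,
    w_map (add_left_injective (z + e0 - x))]

lemma le_totL {ls : List (V (d + 2) × ℕ)} {i : ℕ} (h : i < ls.length) : (ls[i]).2 ≤ totL ls := by
  unfold totL
  exact List.single_le_sum (fun _ _ => Nat.zero_le _) _
    (List.mem_map_of_mem (List.getElem_mem h))

lemma mk {s : V (d + 2)} {N : ℕ} {ls : List (V (d + 2) × ℕ)} {rest : List (List (V (d + 2)))}
    {p t p1 q : List (V (d + 2))} {x z : V (d + 2)} {j : ℕ} {c : Bool}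
    (hf : Fam ((s, N) :: ls) ((p ++ x :: t) :: rest)) (hj : j < rest.length)
    (hr : rest[j] = p1 ++ z :: q) (hz : c = false → z = x) :
    j < ls.length ∧ p1.length < totL ((s, N) :: ls) ∧ p.length < totL ((s, N) :: ls) ∧
    Rel c j p1.length p.length ((p ++ x :: t) :: rest)
      (rest.set j (p1 ++ z :: (WW c p x t z ++ [z] ++ q))) ∧
    Fam (nd ls N c j) (rest.set j (p1 ++ z :: (WW c p x t z ++ [z] ++ q))) := by
  have hrel : Rel c j p1.length p.length ((p ++ x :: t) :: rest)
      (rest.set j (p1 ++ z :: (WW c p x t z ++ [z] ++ q))) :=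
    ⟨rest, p, t, p1, q, x, z, rfl, hj, by rw [List.getD_eq_getElem _ _ hj, hr], rfl, rfl, hz, rfl⟩
  rw [fam_iff] at hf
  obtain ⟨hlen, hf⟩ := hf
  simp only [List.length_cons] at hlen
  have hj' : j < ls.length := by omega
  have hv := hf 0 (by simp) (by simp)
  simp only [List.getElem_cons_zero] at hv
  have hl := hf (j + 1) (by simp only [List.length_cons]; omega)
    (by simp only [List.length_cons]; omega)
  simp only [List.getElem_cons_succ] at hl
  rw [hr] at hl
  have hT : totL ((s, N) :: ls) = N + totL ls := by simp [totL]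
  have h1 := le_totL hj'
  have h2 := hl.1
  have h3 := hv.1
  simp only [List.length_append, List.length_cons] at h2 h3
  refine ⟨hj', by omega, by omega, hrel, ?_⟩
  rw [fam_iff]
  refine ⟨by simp only [List.length_set, nd]; omega, ?_⟩
  intro i hi hi'
  simp only [nd, List.length_set] at hi hi'
  simp only [nd, List.getElem_set]
  by_cases hij : j = i
  · subst hij
    rw [if_pos rfl, if_pos rfl, List.getD_eq_getElem _ _ hj']
    have h4 := ins hl (WW_chain hz hv)
    have h5 := WW_len c p x t z
    have h6 : N + ex c = (WW c p x t z).length + 1 := by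
      rw [h5, ← hv.1]
    rw [h6]
    exact h4
  · rw [if_neg hij, if_neg hij]
    have h7 := hf (i + 1) (by simp only [List.length_cons]; omega)
      (by simp only [List.length_cons]; omega)
    simpa only [List.getElem_cons_succ] using h7

lemma exists_mark {g : ℕ → ℝ≥0∞} {κ : ℝ≥0∞} (hg : Ok g κ) (s : V (d + 2)) (N : ℕ)
    (ls : List (V (d + 2) × ℕ)) (hls : ls ≠ []) (hN : 1 ≤ N) (hpos : ∀ p ∈ ls, 1 ≤ p.2)
    (f : List (List (V (d + 2)))) (hf : Fam ((s, N) :: ls) f) :
    ∃ (c : Bool) (j a b : ℕ) (f' : List (List (V (d + 2)))), j < ls.length ∧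
      a < totL ((s, N) :: ls) ∧ b < totL ((s, N) :: ls) ∧ Rel c j a b f f' ∧
      Fam (nd ls N c j) f' ∧ κ ^ 2 * w g f.flatten ≤ w g f'.flatten := by
  classical
  have hf0 := hf
  rw [fam_iff] at hf0
  obtain ⟨hlen, hf1⟩ := hf0
  cases f with
  | nil => simp at hlen
  | cons v rest =>
    simp only [List.length_cons] at hlen
    have hlp : 0 < ls.length := List.length_pos_of_ne_nil hls
    by_cases hmeet : ∃ x ∈ v, x ∈ rest.flatten
    · obtain ⟨x, hx, hxr⟩ := hmeet
      obtain ⟨l, hl, hxl⟩ := List.mem_flatten.1 hxr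
      obtain ⟨j, hj, hjl⟩ := List.getElem_of_mem hl
      obtain ⟨p, t, rfl⟩ := List.append_of_mem hx
      obtain ⟨p1, q, hpq⟩ := List.append_of_mem hxl
      have hr : rest[j] = p1 ++ x :: q := by rw [hjl, hpq]
      obtain ⟨h1, h2, h3, h4, h5⟩ := mk (c := false) hf hj hr (fun _ => rfl)
      exact ⟨false, j, _, _, _, h1, h2, h3, h4, h5, weight_false hg rest j hj p t p1 q x hr⟩
    · push Not at hmeet
      have hv := hf1 0 (by simp) (by simp)
      simp only [List.getElem_cons_zero] at hv
      have hvne : v.toFinset.Nonempty := by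
        cases v with
        | nil => have := hv.1; simp at this; omega
        | cons a u => exact ⟨a, by simp⟩
      obtain ⟨x, hx, hxmin⟩ := Finset.exists_min_image v.toFinset (fun y => y 0) hvne
      have hr0 := hf1 1 (by simp only [List.length_cons]; omega)
        (by simp only [List.length_cons]; omega)
      simp only [List.getElem_cons_succ] at hr0
      have hrne : rest.flatten.toFinset.Nonempty := by
        have h1 : 0 < (rest[0]'(by omega)).length := by
          rw [hr0.1]
          exact hpos _ (List.getElem_mem _)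
        obtain ⟨y, hy⟩ := List.exists_mem_of_length_pos h1
        exact ⟨y, by
          rw [List.mem_toFinset, List.mem_flatten]
          exact ⟨_, List.getElem_mem _, hy⟩⟩
      obtain ⟨z, hz, hzmax⟩ := Finset.exists_max_image rest.flatten.toFinset (fun y => y 0) hrne
      rw [List.mem_toFinset] at hx hz
      obtain ⟨l, hl, hzl⟩ := List.mem_flatten.1 hz
      obtain ⟨j, hj, hjl⟩ := List.getElem_of_mem hl
      obtain ⟨p, t, rfl⟩ := List.append_of_mem hx
      obtain ⟨p1, q, hpq⟩ := List.append_of_mem hzl
      have hr : rest[j] = p1 ++ z :: q := by rw [hjl, hpq]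
      obtain ⟨h1, h2, h3, h4, h5⟩ := mk (c := true) hf hj hr (fun h => by simp at h)
      exact ⟨true, j, _, _, _, h1, h2, h3, h4, h5, weight_true hg rest j hj p t p1 q x z hr hmeet
        (fun y hy => hxmin y (List.mem_toFinset.2 hy))
        (fun y hy => hzmax y (List.mem_toFinset.2 hy))⟩

lemma step {g : ℕ → ℝ≥0∞} {κ : ℝ≥0∞} (hg : Ok g κ) (s : V (d + 2)) (N : ℕ)
    (ls : List (V (d + 2) × ℕ)) (hls : ls ≠ []) (hN : 1 ≤ N) (hpos : ∀ p ∈ ls, 1 ≤ p.2) :
    κ ^ 2 * FS g (((s, N) :: ls).map (fun p => IsL p.1 p.2)) ≤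
      ∑ m : Bool × Fin ls.length × Fin (totL ((s, N) :: ls)) × Fin (totL ((s, N) :: ls)),
        FS g ((nd ls N m.1 m.2.1).map (fun p => IsL p.1 p.2)) := by
  have h := fun f : {f : List (List (V (d + 2))) // Fam ((s, N) :: ls) f} =>
    exists_mark hg s N ls hls hN hpos f.1 f.2
  choose c j a b F hj ha hb hR hF hw using h
  let i : {f : List (List (V (d + 2))) // Fam ((s, N) :: ls) f} →
      (Σ m : Bool × Fin ls.length × Fin (totL ((s, N) :: ls)) × Fin (totL ((s, N) :: ls)),
        {f : List (List (V (d + 2))) // Fam (nd ls N m.1 m.2.1) f}) :=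
    fun f => ⟨(c f, ⟨j f, hj f⟩, ⟨a f, ha f⟩, ⟨b f, hb f⟩), ⟨F f, hF f⟩⟩
  have hi : Function.Injective i := by
    intro f f' he
    have e1 := congrArg (fun σ => σ.1) he
    have e2 : F f = F f' := congrArg (fun σ => σ.2.1) he
    simp only [i, Prod.mk.injEq, Fin.mk.injEq] at e1
    obtain ⟨ec, ej, ea, eb⟩ := e1
    refine Subtype.ext (rel_inj f.2 f'.2 (hR f) ?_)
    rw [ec, ej, ea, eb, e2]
    exact hR f'
  calc κ ^ 2 * FS g (((s, N) :: ls).map (fun p => IsL p.1 p.2))
      = ∑' f : {f : List (List (V (d + 2))) // Fam ((s, N) :: ls) f},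
          κ ^ 2 * w g f.1.flatten := by
        rw [ENNReal.tsum_mul_left]
        rfl
    _ ≤ ∑' f : {f : List (List (V (d + 2))) // Fam ((s, N) :: ls) f},
          w g (i f).2.1.flatten := ENNReal.tsum_le_tsum hw
    _ ≤ ∑' σ : (Σ m : Bool × Fin ls.length × Fin (totL ((s, N) :: ls)) ×
            Fin (totL ((s, N) :: ls)),
          {f : List (List (V (d + 2))) // Fam (nd ls N m.1 m.2.1) f}), w g σ.2.1.flatten :=
        ENNReal.tsum_comp_le_tsum_of_injective hi (fun σ => w g σ.2.1.flatten)
    _ = ∑ m : Bool × Fin ls.length × Fin (totL ((s, N) :: ls)) × Fin (totL ((s, N) :: ls)),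
        FS g ((nd ls N m.1 m.2.1).map (fun p => IsL p.1 p.2)) := by
        rw [ENNReal.tsum_sigma', tsum_fintype]
        rfl

lemma totL_nd (N : ℕ) (c : Bool) : ∀ (ls : List (V (d + 2) × ℕ)) (j : ℕ) (_ : j < ls.length),
    totL (nd ls N c j) = totL ls + (N + ex c) := by
  intro ls
  induction ls with
  | nil => intro j hj; simp at hj
  | cons a ls ih =>
    intro j hj
    cases j with
    | zero =>
      simp only [nd, totL, List.set_cons_zero, List.map_cons, List.sum_cons,
        List.getD_cons_zero]
      omega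
    | succ j =>
      have := ih j (by simpa using hj)
      simp only [nd, totL] at this
      simp only [nd, totL, List.set_cons_succ, List.map_cons, List.sum_cons,
        List.getD_cons_succ]
      omega

lemma base {g : ℕ → ℝ≥0∞} (s : V (d + 2)) (N : ℕ) :
    FS g ([(s, N)].map (fun p => IsL p.1 p.2)) ≤ Cl g (0 : V (d + 2)) N := by
  have hh : ∀ f : {f : List (List (V (d + 2))) // Fam [(s, N)] f}, ∃ l, f.1 = [l] ∧ IsL s N l := by
    intro f
    have h1 := (fam_iff _ _).1 f.2
    obtain ⟨l, hl⟩ := List.length_eq_one_iff.1 h1.1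
    refine ⟨l, hl, ?_⟩
    have h2 := h1.2 0 (by simp) (by rw [h1.1]; simp)
    simpa [hl] using h2
  choose l hl hL using hh
  let i : {f : List (List (V (d + 2))) // Fam [(s, N)] f} →
      {l : List (V (d + 2)) // IsL (0 : V (d + 2)) N l} :=
    fun f => ⟨(l f).map (fun y => y + (-s)), by
      have := isL_map s (-s) N (l f) (hL f)
      rwa [add_neg_cancel] at this⟩
  have hi : Function.Injective i := by
    intro f f' he
    have e1 : (l f).map (fun y => y + (-s)) = (l f').map (fun y => y + (-s)) :=
      congrArg Subtype.val he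
    have e2 := List.map_injective_iff.2 (add_left_injective (-s)) e1
    apply Subtype.ext
    rw [hl f, hl f', e2]
  calc FS g ([(s, N)].map (fun p => IsL p.1 p.2))
      = ∑' f : {f : List (List (V (d + 2))) // Fam [(s, N)] f}, w g f.1.flatten := rfl
    _ = ∑' f : {f : List (List (V (d + 2))) // Fam [(s, N)] f}, w g (i f).1 := by
        refine tsum_congr fun f => ?_
        have e1 : w g (i f).1 = w g (l f) := w_map (add_left_injective (-s)) (l f)
        rw [e1, hl f]
        simp
    _ ≤ Cl g (0 : V (d + 2)) N :=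
        ENNReal.tsum_comp_le_tsum_of_injective hi (fun l => w g l.1)

end ML

open ML in
theorem t_merge : S_merge := by
  intro d g κ hg
  have main : ∀ (n : ℕ) (ls : List (V (d + 2) × ℕ)), ls.length = n + 1 → (∀ p ∈ ls, 1 ≤ p.2) →
      κ ^ (2 * ls.length) * FS g (ls.map (fun p => IsL p.1 p.2)) ≤
        ((2 * (totL ls + 2 * ls.length) ^ 3 : ℕ) : ℝ≥0∞) ^ ls.length *
          ∑ i ∈ Finset.range (2 * ls.length + 1), Cl g (0 : V (d + 2)) (totL ls + i) := by
    intro n
    induction n with
    | zero =>
      intro ls hlen hpos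
      obtain ⟨⟨s, N⟩, rfl⟩ := List.length_eq_one_iff.1 hlen
      have h1 : totL [((s, N) : V (d + 2) × ℕ)] = N := by simp [totL]
      rw [h1]
      have h2 : κ ^ (2 * [((s, N) : V (d + 2) × ℕ)].length) ≤ 1 := pow_le_one' hg.κ1 _
      have h3 : (1 : ℝ≥0∞) ≤ ((2 * (N + 2 * [((s, N) : V (d + 2) × ℕ)].length) ^ 3 : ℕ) : ℝ≥0∞) ^
          [((s, N) : V (d + 2) × ℕ)].length := by
        refine one_le_pow₀ ?_
        rw [Nat.one_le_cast]
        have : 0 < (N + 2 * [((s, N) : V (d + 2) × ℕ)].length) ^ 3 := by
          apply pow_pos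
          simp
        omega
      refine mul_le_mul' (h2.trans h3) ((base s N).trans ?_)
      have h4 := Finset.single_le_sum (f := fun i => Cl g (0 : V (d + 2)) (N + i))
        (s := Finset.range (2 * [((s, N) : V (d + 2) × ℕ)].length + 1)) (fun _ _ => zero_le)
        (a := 0) (by simp)
      simpa using h4
    | succ n ih =>
      intro ls hlen hpos
      cases ls with
      | nil => simp at hlen
      | cons sN ls =>
        obtain ⟨s, N⟩ := sN
        simp only [List.length_cons, Nat.add_right_cancel_iff] at hlen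
        have hls : ls ≠ [] := by
          rintro rfl
          simp at hlen
        have hN : 1 ≤ N := hpos (s, N) (by simp)
        have hpos' : ∀ p ∈ ls, 1 ≤ p.2 := fun p hp => hpos p (by simp [hp])
        have hst := step hg s N ls hls hN hpos'
        set T := totL ((s, N) :: ls) with hT
        have hTe : T = N + totL ls := by simp [hT, totL]
        have hc1 : ((s, N) :: ls).length = n + 2 := by simp [hlen]
        rw [hc1]
        have hpw : κ ^ (2 * (n + 2)) = κ ^ (2 * (n + 1)) * κ ^ 2 := by
          rw [← pow_add]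
          congr 1
        rw [hpw, mul_assoc]
        refine (mul_le_mul' le_rfl hst).trans ?_
        rw [Finset.mul_sum]
        have hterm : ∀ m : Bool × Fin ls.length × Fin T × Fin T,
            κ ^ (2 * (n + 1)) * FS g ((nd ls N m.1 m.2.1).map (fun p => IsL p.1 p.2)) ≤
            ((2 * (T + 2 * (n + 2)) ^ 3 : ℕ) : ℝ≥0∞) ^ (n + 1) *
              ∑ i ∈ Finset.range (2 * (n + 2) + 1), Cl g (0 : V (d + 2)) (T + i) := by
          intro m
          have hl : (nd ls N m.1 m.2.1).length = n + 1 := by simp [nd, hlen]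
          have hp : ∀ p ∈ nd ls N m.1 m.2.1, 1 ≤ p.2 := by
            intro p hp
            rcases List.mem_or_eq_of_mem_set hp with h | h
            · exact hpos' p h
            · rw [h]
              change 1 ≤ (ls.getD m.2.1 (0, 0)).2 + (N + ex m.1)
              omega
          have h1 := ih (nd ls N m.1 m.2.1) hl hp
          rw [hl, totL_nd N m.1 ls m.2.1 m.2.1.2] at h1
          refine h1.trans (mul_le_mul' ?_ ?_)
          · refine pow_le_pow_left' ?_ _
            rw [Nat.cast_le]
            refine Nat.mul_le_mul le_rfl (Nat.pow_le_pow_left ?_ 3)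
            have : ex m.1 ≤ 2 := by unfold ex; split_ifs <;> omega
            omega
          · have he : ∀ i, totL ls + (N + ex m.1) + i = T + (ex m.1 + i) := by
              intro i
              omega
            simp only [he]
            have h2 : ∑ i ∈ Finset.range (2 * (n + 1) + 1), Cl g (0 : V (d + 2)) (T + (ex m.1 + i)) =
                ∑ i ∈ Finset.Ico (ex m.1) (ex m.1 + (2 * (n + 1) + 1)),
                  Cl g (0 : V (d + 2)) (T + i) := by
              rw [Finset.sum_Ico_eq_sum_range, Nat.add_sub_cancel_left]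
            rw [h2]
            refine Finset.sum_le_sum_of_subset ?_
            intro i hi
            rw [Finset.mem_Ico] at hi
            rw [Finset.mem_range]
            have : ex m.1 ≤ 2 := by unfold ex; split_ifs <;> omega
            omega
        refine (Finset.sum_le_card_nsmul _ _ _ (fun m _ => hterm m)).trans ?_
        rw [nsmul_eq_mul]
        have hX : ((2 * (T + 2 * (n + 2)) ^ 3 : ℕ) : ℝ≥0∞) ^ (n + 2) =
            ((2 * (T + 2 * (n + 2)) ^ 3 : ℕ) : ℝ≥0∞) *
              ((2 * (T + 2 * (n + 2)) ^ 3 : ℕ) : ℝ≥0∞) ^ (n + 1) := pow_succ' _ _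
        rw [hX, mul_assoc]
        refine mul_le_mul' ?_ le_rfl
        rw [Nat.cast_le, Finset.card_univ]
        simp only [Fintype.card_prod, Fintype.card_bool, Fintype.card_fin]
        have h1 : ls.length ≤ T + 2 * (n + 2) := by omega
        have h2 : T ≤ T + 2 * (n + 2) := by omega
        calc 2 * (ls.length * (T * T)) ≤
            2 * ((T + 2 * (n + 2)) * ((T + 2 * (n + 2)) * (T + 2 * (n + 2)))) := by
              gcongr
          _ = 2 * (T + 2 * (n + 2)) ^ 3 := by ring
  intro ls hls hpos
  have h1 := List.length_pos_of_ne_nil hls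
  exact main (ls.length - 1) ls (by omega) hpos

end Pool.Agent.R651.CP
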