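import Pool.Agent.R651.CP.Stm

/-!
# Piece PC: the `4m` copies of one piece are joined to at most `2m` loops
-/

set_option autoImplicit false

open scoped ENNReal Topology

namespace Pool.Agent.R651.CP

namespace PC

variable {d : ℕ}

lemma adj_symm {x y : V d} (h : Adj x y) : Adj y x := by
  unfold Adj at *
  rw [← h]
  exact Finset.sum_congr rfl (fun i _ => abs_sub_comm _ _)

/-- An open path from `a` with the next site `z`. -/
def IsP (a z : V d) (n : ℕ) (l : List (V d)) : Prop :=
  l.length = n ∧ (l ++ [z]).IsChain Adj ∧ (l ++ [z]).head? = some a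

lemma isP_nil (a : V d) : IsP a a 0 [] := ⟨rfl, by simp, by simp⟩

lemma isP_append {a z y : V d} {n n' : ℕ} {l l' : List (V d)} (h : IsP a z n l)
    (h' : IsP z y n' l') : IsP a y (n + n') (l ++ l') := by
  obtain ⟨h1, h2, h3⟩ := h
  obtain ⟨h1', h2', h3'⟩ := h'
  refine ⟨by rw [List.length_append, h1, h1'], ?_, ?_⟩
  · rw [List.append_assoc, List.isChain_append]
    rw [List.isChain_append] at h2
    refine ⟨h2.1, h2', ?_⟩
    intro x hx w hw
    rw [h3'] at hw
    have : z = w := by simpa using hw
    subst this
    exact h2.2.2 x hx z (by simp)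
  · rw [List.append_assoc]
    cases l with
    | nil =>
      have : z = a := by simpa using h3
      subst this
      simpa using h3'
    | cons x l => simpa using h3

lemma isP_isL {s : V d} {n : ℕ} {l : List (V d)} (hn : 1 ≤ n) (h : IsP s s n l) : IsL s n l := by
  obtain ⟨h1, h2, h3⟩ := h
  rw [List.isChain_append] at h2
  refine ⟨h1, h2.1, ?_, fun x hx => h2.2.2 x hx s (by simp)⟩
  cases l with
  | nil => simp at h1; omega
  | cons x l => simpa using h3

lemma isP_of_isW {a b z : V d} {n : ℕ} {l c : List (V d)} (h : IsW a b n l)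
    (hc : (b :: (c ++ [z])).IsChain Adj) : IsP a z (n + c.length) (l ++ c) := by
  obtain ⟨h1, h2, h3, h4⟩ := h
  refine ⟨by rw [List.length_append, h1], ?_, ?_⟩
  · rw [List.append_assoc, List.isChain_append]
    refine ⟨h2, hc.tail, ?_⟩
    intro x hx w hw
    rw [h4] at hx
    have : b = x := by simpa using hx
    subst this
    exact (List.isChain_cons.mp hc).1 w hw
  · cases l with
    | nil => simp at h3
    | cons x l => simpa using h3

lemma isW_map {D : ℕ} {ψ : V D → V D} (hψ : ∀ x y, Adj x y → Adj (ψ x) (ψ y)) {a b : V D} {n : ℕ}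
    {l : List (V D)} (h : IsW a b n l) : IsW (ψ a) (ψ b) n (l.map ψ) := by
  obtain ⟨h1, h2, h3, h4⟩ := h
  refine ⟨by rw [List.length_map, h1], ?_, ?_, ?_⟩
  · rw [List.isChain_map]
    exact h2.imp (fun x y hxy => hψ x y hxy)
  · rw [List.head?_map, h3]; rfl
  · rw [List.getLast?_map, h4]; rfl

lemma chain_reverse {l : List (V d)} (h : l.IsChain Adj) : l.reverse.IsChain Adj := by
  rw [List.isChain_reverse]
  exact h.imp (fun x y hxy => adj_symm hxy)

lemma isW_reverse {a b : V d} {n : ℕ} {l : List (V d)} (h : IsW a b n l) :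
    IsW b a n l.reverse := by
  obtain ⟨h1, h2, h3, h4⟩ := h
  refine ⟨by rw [List.length_reverse, h1], chain_reverse h2, ?_, ?_⟩
  · rw [List.head?_reverse, h4]
  · rw [List.getLast?_reverse, h3]

lemma conn_reverse {b z : V d} {c : List (V d)} (h : (b :: (c ++ [z])).IsChain Adj) :
    (z :: (c.reverse ++ [b])).IsChain Adj := by
  have := chain_reverse h
  simpa using this

/-! ### Lists over ranges -/

lemma count_range {α : Type*} [DecidableEq α] (G : ℕ → List α) (x : α) (N : ℕ) :
    (((List.range N).map G).flatten).count x = ∑ k ∈ Finset.range N, (G k).count x := by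
  induction N with
  | zero => simp
  | succ N ih =>
    rw [List.range_succ, List.map_append, List.flatten_append, List.count_append, ih,
      Finset.sum_range_succ]
    simp

lemma length_range {α : Type*} (G : ℕ → List α) (N : ℕ) :
    (((List.range N).map G).flatten).length = ∑ k ∈ Finset.range N, (G k).length := by
  induction N with
  | zero => simp
  | succ N ih =>
    rw [List.range_succ, List.map_append, List.flatten_append, List.length_append, ih,
      Finset.sum_range_succ]
    simp

lemma inj_range {α : Type*} (G G' : ℕ → List α) (N : ℕ)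
    (hl : ∀ k < N, (G k).length = (G' k).length)
    (h : ((List.range N).map G).flatten = ((List.range N).map G').flatten) :
    ∀ k < N, G k = G' k := by
  induction N with
  | zero => intro k hk; omega
  | succ N ih =>
    rw [List.range_succ, List.map_append, List.flatten_append, List.map_append,
      List.flatten_append] at h
    have hlen : (((List.range N).map G).flatten).length = (((List.range N).map G').flatten).length := by
      rw [length_range, length_range]
      exact Finset.sum_congr rfl (fun k hk => hl k (by have := Finset.mem_range.mp hk; omega))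
    obtain ⟨h1, h2⟩ := List.append_inj h hlen
    intro k hk
    rcases Nat.lt_succ_iff_lt_or_eq.mp hk with hk | hk
    · exact ih (fun k hk => hl k (by omega)) h1 k hk
    · subst hk
      simpa using h2

lemma sum_pairs (G : ℕ → ℕ) (M : ℕ) :
    ∑ k ∈ Finset.range (2 * M), G k = ∑ j ∈ Finset.range M, (G (2 * j) + G (2 * j + 1)) := by
  induction M with
  | zero => simp
  | succ M ih =>
    rw [show 2 * (M + 1) = 2 * M + 1 + 1 by ring, Finset.sum_range_succ, Finset.sum_range_succ, ih,
      Finset.sum_range_succ, add_assoc]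

lemma sum_shift (G : ℕ → ℕ) (M : ℕ) :
    ∑ j ∈ Finset.range M, G ((2 * j + 2) % (2 * M)) = ∑ j ∈ Finset.range M, G (2 * j) := by
  cases M with
  | zero => simp
  | succ M =>
    rw [Finset.sum_range_succ, Finset.sum_range_succ']
    congr 1
    · refine Finset.sum_congr rfl (fun j hj => ?_)
      have := Finset.mem_range.mp hj
      rw [Nat.mod_eq_of_lt (by omega)]
      congr 1
    · rw [show 2 * M + 2 = 2 * (M + 1) by ring, Nat.mod_self]

/-- The extension of a family over `Fin` to the natural numbers. -/
def ex {N : ℕ} (ls : Fin N → List (V d)) (k : ℕ) : List (V d) :=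
  if h : k < N then ls ⟨k, h⟩ else []

lemma ex_of_lt {N : ℕ} (ls : Fin N → List (V d)) {k : ℕ} (h : k < N) : ex ls k = ls ⟨k, h⟩ := by
  unfold ex
  rw [dif_pos h]

lemma ofFn_ex {N : ℕ} (ls : Fin N → List (V d)) (ψ : ℕ → V d → V d) :
    List.ofFn (fun k : Fin N => (ls k).map (ψ k)) =
      (List.range N).map (fun k => (ex ls k).map (ψ k)) := by
  apply List.ext_getElem
  · simp
  · intro i h1 h2
    simp only [List.length_ofFn] at h1
    simp [ex_of_lt ls h1]

/-- The length of the connection. -/
def cl (m H k : ℕ) : ℕ := if k = 2 * m - 1 ∨ k = 4 * m - 1 then H else 0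

lemma sum_cl (m H : ℕ) : ∑ k ∈ Finset.range (4 * m), cl m H k ≤ 2 * H := by
  calc ∑ k ∈ Finset.range (4 * m), cl m H k
      ≤ ∑ k ∈ Finset.range (4 * m), ((if k = 2 * m - 1 then H else 0) +
          (if k = 4 * m - 1 then H else 0)) := by
        refine Finset.sum_le_sum (fun k _ => ?_)
        unfold cl
        split_ifs <;> omega
    _ ≤ 2 * H := by
        rw [Finset.sum_add_distrib, Finset.sum_ite_eq', Finset.sum_ite_eq']
        split_ifs <;> omega

/-- Reversal if the mark is false. -/
def ori (o : Bool) (l : List (V d)) : List (V d) := if o then l else l.reverse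

lemma ori_length (o : Bool) (l : List (V d)) : (ori o l).length = l.length := by
  unfold ori; split_ifs <;> simp

lemma ori_count (o : Bool) (l : List (V d)) (x : V d) : (ori o l).count x = l.count x := by
  unfold ori; split_ifs <;> simp

lemma ori_inj (o : Bool) {l l' : List (V d)} (h : ori o l = ori o l') : l = l' := by
  unfold ori at h
  split_ifs at h
  · exact h
  · exact List.reverse_injective h

/-- Type A: one loop through all copies. -/
lemma caseA {d L R m H : ℕ} (hm : 1 ≤ m)
    {ψ : ℕ → V (d + 2) → V (d + 2)} {conn : ℕ → V (d + 2) → List (V (d + 2))}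
    (hR : Ring L R m H ψ conn) {a b : V (d + 2)} {n : ℕ} (hn : 1 ≤ n)
    (s e : ℕ → V (d + 2)) (o : ℕ → Bool)
    (h1 : ∀ k < 4 * m, ∀ l, IsS L a b n l → IsW (s k) (e k) n (ori (o k) l))
    (h2 : ∀ k < 4 * m, (∃ l, IsS L a b n l) →
      (ψ k (e k) :: (conn k (e k) ++ [ψ ((k + 1) % (4 * m)) (e k)])).IsChain Adj)
    (h3 : ∀ k < 4 * m, s ((k + 1) % (4 * m)) = e k) :
    ∃ (sp : List (V (d + 2) × ℕ)) (r : List (V (d + 2)))
      (LP : (Fin (4 * m) → List (V (d + 2))) → List (List (V (d + 2)))),
      sp ≠ [] ∧ sp.length ≤ 2 * m ∧ (∀ q ∈ sp, 1 ≤ q.2) ∧ totL sp = 4 * m * n + r.length ∧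
      r.length ≤ 4 * H ∧
      (∀ ls : Fin (4 * m) → List (V (d + 2)), (∀ k, IsS L a b n (ls k)) →
        List.Forall₂ (fun (q : V (d + 2) × ℕ) l => IsL q.1 q.2 l) sp (LP ls) ∧
        (LP ls).flatten.Perm ((List.ofFn (fun k : Fin (4 * m) => (ls k).map (ψ k))).flatten ++ r)) ∧
      (∀ ls ls' : Fin (4 * m) → List (V (d + 2)), (∀ k, IsS L a b n (ls k)) →
        (∀ k, IsS L a b n (ls' k)) → LP ls = LP ls' → ls = ls') := by
  classical
  let blk : (Fin (4 * m) → List (V (d + 2))) → ℕ → List (V (d + 2)) := fun ls k =>
    (ori (o k) (ex ls k)).map (ψ k) ++ conn k (e k)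
  let r : List (V (d + 2)) := ((List.range (4 * m)).map (fun k => conn k (e k))).flatten
  have hr : r.length = ∑ k ∈ Finset.range (4 * m), cl m H k := by
    show (((List.range (4 * m)).map (fun k => conn k (e k))).flatten).length = _
    rw [length_range]
    exact Finset.sum_congr rfl (fun k _ => hR.len k _)
  have hlen : ∀ ls : Fin (4 * m) → List (V (d + 2)), (∀ k, IsS L a b n (ls k)) → ∀ k < 4 * m,
      (ex ls k).length = n := by
    intro ls hls k hk
    rw [ex_of_lt ls hk]
    exact (hls ⟨k, hk⟩).1.1
  refine ⟨[(ψ 0 (s 0), 4 * m * n + r.length)], r,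
    fun ls => [((List.range (4 * m)).map (blk ls)).flatten], by simp, by simp; omega, ?_, ?_, ?_,
    ?_, ?_⟩
  · intro q hq
    have hq' : q = (ψ 0 (s 0), 4 * m * n + r.length) := by simpa using hq
    rw [hq']
    show 1 ≤ 4 * m * n + r.length
    have : 1 ≤ 4 * m * n := Nat.mul_pos (by omega) hn
    omega
  · simp [totL]
  · rw [hr]
    have := sum_cl m H
    omega
  · intro ls hls
    have key : ∀ N ≤ 4 * m, IsP (ψ 0 (s 0)) (ψ (N % (4 * m)) (s (N % (4 * m))))
        (N * n + ∑ k ∈ Finset.range N, cl m H k) (((List.range N).map (blk ls)).flatten) := by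
      intro N
      induction N with
      | zero =>
        intro _
        simpa using isP_nil (ψ 0 (s 0))
      | succ N ih =>
        intro hN
        have hN' : N < 4 * m := by omega
        have ih' := ih (by omega)
        rw [Nat.mod_eq_of_lt hN'] at ih'
        have hw : IsW (ψ N (s N)) (ψ N (e N)) n ((ori (o N) (ex ls N)).map (ψ N)) := by
          apply isW_map (hR.adj N)
          rw [ex_of_lt ls hN']
          exact h1 N hN' _ (hls ⟨N, hN'⟩)
        have hc := h2 N hN' ⟨_, hls ⟨N, hN'⟩⟩
        have hp := isP_of_isW hw hc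
        rw [hR.len] at hp
        have hq := isP_append ih' hp
        rw [List.range_succ, List.map_append, List.flatten_append, h3 N hN',
          Finset.sum_range_succ]
        have e1 : (N + 1) * n + (∑ k ∈ Finset.range N, cl m H k + cl m H N) =
            N * n + ∑ k ∈ Finset.range N, cl m H k + (n + cl m H N) := by ring
        rw [e1]
        simpa [blk, cl] using hq
    have hk := key (4 * m) le_rfl
    rw [Nat.mod_self, ← hr] at hk
    have hL := isP_isL (by have : 1 ≤ 4 * m * n := Nat.mul_pos (by omega) hn
                           omega) hk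
    refine ⟨List.Forall₂.cons hL List.Forall₂.nil, ?_⟩
    rw [List.perm_iff_count]
    intro x
    rw [ofFn_ex]
    simp only [List.flatten_cons, List.flatten_nil, List.append_nil]
    rw [List.count_append, count_range, count_range]
    show _ = _ + (((List.range (4 * m)).map (fun k => conn k (e k))).flatten).count x
    rw [count_range, ← Finset.sum_add_distrib]
    refine Finset.sum_congr rfl (fun k _ => ?_)
    show ((ori (o k) (ex ls k)).map (ψ k) ++ conn k (e k)).count x = _
    rw [List.count_append]
    congr 1
    unfold ori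
    split_ifs
    · rfl
    · rw [List.map_reverse, List.count_reverse]
  · intro ls ls' hls hls' h
    have h' : ((List.range (4 * m)).map (blk ls)).flatten =
        ((List.range (4 * m)).map (blk ls')).flatten := by simpa using h
    have hb := inj_range (blk ls) (blk ls') (4 * m) (by
      intro k hk
      simp only [blk, List.length_append, List.length_map, ori_length]
      rw [hlen ls hls k hk, hlen ls' hls' k hk]) h'
    funext k
    have hk := hb k.1 k.2
    simp only [blk] at hk
    have hk2 := List.append_cancel_right hk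
    have hk3 := ori_inj _ (List.map_injective_iff.mpr (hR.inj k) hk2)
    rw [ex_of_lt ls k.2, ex_of_lt ls' k.2] at hk3
    exact hk3

/-- Type B: `2m` loops, each through two neighbouring copies. -/
lemma caseB {d L R m H : ℕ} (hm : 1 ≤ m)
    {ψ : ℕ → V (d + 2) → V (d + 2)} {conn : ℕ → V (d + 2) → List (V (d + 2))}
    (hR : Ring L R m H ψ conn) {a b : V (d + 2)} {n : ℕ} (hn : 1 ≤ n)
    (u v : ℕ → ℕ) (hu : ∀ j < 2 * m, u j < 4 * m) (hv : ∀ j < 2 * m, v j < 4 * m)
    (huv : ∀ j < 2 * m, (u j + 1) % (4 * m) = v j)
    (hs : ∀ G : ℕ → ℕ, ∑ j ∈ Finset.range (2 * m), (G (u j) + G (v j)) =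
      ∑ k ∈ Finset.range (4 * m), G k)
    (hsurj : ∀ k < 4 * m, ∃ j < 2 * m, u j = k ∨ v j = k)
    (ha : ∀ j < 2 * m, (∃ l, IsS L a b n l) →
      (ψ (u j) a :: (conn (u j) a ++ [ψ ((u j + 1) % (4 * m)) a])).IsChain Adj)
    (hb : ∀ j < 2 * m, (∃ l, IsS L a b n l) →
      (ψ (u j) b :: (conn (u j) b ++ [ψ ((u j + 1) % (4 * m)) b])).IsChain Adj) :
    ∃ (sp : List (V (d + 2) × ℕ)) (r : List (V (d + 2)))
      (LP : (Fin (4 * m) → List (V (d + 2))) → List (List (V (d + 2)))),
      sp ≠ [] ∧ sp.length ≤ 2 * m ∧ (∀ q ∈ sp, 1 ≤ q.2) ∧ totL sp = 4 * m * n + r.length ∧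
      r.length ≤ 4 * H ∧
      (∀ ls : Fin (4 * m) → List (V (d + 2)), (∀ k, IsS L a b n (ls k)) →
        List.Forall₂ (fun (q : V (d + 2) × ℕ) l => IsL q.1 q.2 l) sp (LP ls) ∧
        (LP ls).flatten.Perm ((List.ofFn (fun k : Fin (4 * m) => (ls k).map (ψ k))).flatten ++ r)) ∧
      (∀ ls ls' : Fin (4 * m) → List (V (d + 2)), (∀ k, IsS L a b n (ls k)) →
        (∀ k, IsS L a b n (ls' k)) → LP ls = LP ls' → ls = ls') := by
  classical
  let lp : (Fin (4 * m) → List (V (d + 2))) → ℕ → List (V (d + 2)) := fun ls j =>
    ((ex ls (u j)).map (ψ (u j)) ++ conn (u j) b) ++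
      (((ex ls (v j)).map (ψ (v j))).reverse ++ (conn (u j) a).reverse)
  let r : List (V (d + 2)) :=
    ((List.range (2 * m)).map (fun j => conn (u j) b ++ (conn (u j) a).reverse)).flatten
  have hr : r.length = ∑ j ∈ Finset.range (2 * m), (cl m H (u j) + cl m H (u j)) := by
    show (((List.range (2 * m)).map
      (fun j => conn (u j) b ++ (conn (u j) a).reverse)).flatten).length = _
    rw [length_range]
    refine Finset.sum_congr rfl (fun j _ => ?_)
    rw [List.length_append, List.length_reverse, hR.len, hR.len]
    rfl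
  have hlen : ∀ ls : Fin (4 * m) → List (V (d + 2)), (∀ k, IsS L a b n (ls k)) → ∀ k < 4 * m,
      (ex ls k).length = n := by
    intro ls hls k hk
    rw [ex_of_lt ls hk]
    exact (hls ⟨k, hk⟩).1.1
  refine ⟨(List.range (2 * m)).map (fun j => (ψ (u j) a, (n + cl m H (u j)) + (n + cl m H (u j)))),
    r, fun ls => (List.range (2 * m)).map (lp ls), ?_, by simp, ?_, ?_, ?_, ?_, ?_⟩
  · intro h
    have := congrArg List.length h
    simp at this
    omega
  · intro q hq
    obtain ⟨j, _, hj⟩ := List.mem_map.mp hq
    rw [← hj]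
    show 1 ≤ (n + cl m H (u j)) + (n + cl m H (u j))
    omega
  · rw [hr]
    unfold totL
    rw [List.map_map]
    have e1 : ∀ (G : ℕ → ℕ) (N : ℕ), ((List.range N).map G).sum = ∑ k ∈ Finset.range N, G k := by
      intro G N
      induction N with
      | zero => simp
      | succ N ih =>
        rw [List.range_succ, List.map_append, List.sum_append, ih, Finset.sum_range_succ]
        simp
    rw [e1]
    have e2 : 4 * m * n = ∑ j ∈ Finset.range (2 * m), (n + n) := by
      rw [Finset.sum_const, Finset.card_range, smul_eq_mul]; ring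
    rw [e2, ← Finset.sum_add_distrib]
    refine Finset.sum_congr rfl (fun j _ => ?_)
    show (n + cl m H (u j)) + (n + cl m H (u j)) = _
    ring
  · rw [hr, Finset.sum_add_distrib]
    have h1 := hs (cl m H)
    rw [Finset.sum_add_distrib] at h1
    have h2 := sum_cl m H
    omega
  · intro ls hls
    constructor
    · rw [List.forall₂_map_left_iff, List.forall₂_map_right_iff, List.forall₂_same]
      intro j hj
      have hj' : j < 2 * m := by simpa using hj
      have hw : IsW (ψ (u j) a) (ψ (u j) b) n ((ex ls (u j)).map (ψ (u j))) := by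
        apply isW_map (hR.adj _)
        rw [ex_of_lt ls (hu j hj')]
        exact (hls ⟨u j, hu j hj'⟩).1
      have hw' : IsW (ψ (v j) b) (ψ (v j) a) n ((ex ls (v j)).map (ψ (v j))).reverse := by
        apply isW_reverse
        apply isW_map (hR.adj _)
        rw [ex_of_lt ls (hv j hj')]
        exact (hls ⟨v j, hv j hj'⟩).1
      have hca := ha j hj' ⟨_, hls ⟨u j, hu j hj'⟩⟩
      have hcb := hb j hj' ⟨_, hls ⟨u j, hu j hj'⟩⟩
      rw [huv j hj'] at hca hcb
      have hp := isP_of_isW hw hcb
      have hp' := isP_of_isW hw' (conn_reverse hca)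
      rw [List.length_reverse, hR.len] at hp'
      rw [hR.len] at hp
      exact isP_isL (by omega) (isP_append hp hp')
    · rw [List.perm_iff_count]
      intro x
      rw [ofFn_ex, List.count_append, count_range, count_range]
      show _ = _ + (((List.range (2 * m)).map
        (fun j => conn (u j) b ++ (conn (u j) a).reverse)).flatten).count x
      rw [count_range, ← hs (fun k => ((ex ls k).map (ψ k)).count x), ← Finset.sum_add_distrib]
      refine Finset.sum_congr rfl (fun j _ => ?_)
      simp only [lp, List.count_append, List.count_reverse]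
      ring
  · intro ls ls' hls hls' h
    have h' : ∀ j ∈ List.range (2 * m), lp ls j = lp ls' j := List.map_inj_left.mp h
    have hb : ∀ j < 2 * m, ex ls (u j) = ex ls' (u j) ∧ ex ls (v j) = ex ls' (v j) := by
      intro j hj
      have h1 := h' j (by simpa using hj)
      simp only [lp] at h1
      obtain ⟨h2, h3⟩ := List.append_inj h1 (by
        rw [List.length_append, List.length_append, List.length_map, List.length_map,
          hlen ls hls _ (hu j hj), hlen ls' hls' _ (hu j hj)])
      have h4 := List.append_cancel_right h2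
      have h5 := List.reverse_injective (List.append_cancel_right h3)
      exact ⟨List.map_injective_iff.mpr (hR.inj _) h4, List.map_injective_iff.mpr (hR.inj _) h5⟩
    funext k
    obtain ⟨j, hj, hk⟩ := hsurj k.1 k.2
    have key : ex ls k.1 = ex ls' k.1 := by
      rcases hk with hk | hk
      · rw [← hk]; exact (hb j hj).1
      · rw [← hk]; exact (hb j hj).2
    rw [ex_of_lt ls k.2, ex_of_lt ls' k.2] at key
    exact key

/-- One coordinate changes by at most the number of steps. -/
lemma coord_le {D : ℕ} (i : Fin D) : ∀ (l : List (V D)) (a b : V D), l.IsChain Adj →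
    l.head? = some a → l.getLast? = some b → |b i| ≤ |a i| + l.length := by
  intro l
  induction l with
  | nil => intro a b _ h; simp at h
  | cons x l ih =>
    intro a b hc h1 h2
    have hx : x = a := by simpa using h1
    subst hx
    cases l with
    | nil =>
      have : x = b := by simpa using h2
      subst this
      simp
    | cons y l =>
      have hc' := List.isChain_cons_cons.mp hc
      have h3 := ih y b hc'.2 (by simp) (by simpa using h2)
      have h4 : |y i| ≤ |x i| + 1 := by
        have h5 : |x i - y i| ≤ 1 := by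
          have h6 : ∑ k, |x k - y k| = 1 := hc'.1
          rw [← h6]
          exact Finset.single_le_sum (f := fun k => |x k - y k|) (fun k _ => abs_nonneg _)
            (Finset.mem_univ i)
        have h7 : |y i| = |x i - (x i - y i)| := by congr 1; ring
        have h8 := abs_sub (x i) (x i - y i)
        rw [← h7] at h8
        linarith
      have h9 : (((x :: y :: l).length : ℕ) : ℤ) = ((y :: l).length : ℕ) + 1 := by simp
      rw [h9]
      linarith

end PC

open PC in
theorem t_piece : S_piece := by
  intro d L R m H hL hm ψ conn hR a b n hA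
  have hn : 1 ≤ n := hA.pos
  have hnR : n ≤ R := hA.len
  have ha1 : |a 1| ≤ 2 * (R : ℤ) := by
    have : |a 1| ≤ (R : ℤ) := hA.hR
    have h2 : (0 : ℤ) ≤ R := by positivity
    linarith
  have hb1 : (∃ l, IsS L a b n l) → |b 1| ≤ 2 * (R : ℤ) := by
    rintro ⟨l, hl⟩
    have h1 := coord_le 1 l a b hl.1.2.1 hl.1.2.2.1 hl.1.2.2.2
    have h2 : |a 1| ≤ (R : ℤ) := hA.hR
    have h3 : (l.length : ℤ) ≤ R := by
      rw [hl.1.1]
      exact_mod_cast hnR
    linarith
  have hpar : ∀ k < 4 * m, (Even ((k + 1) % (4 * m)) ↔ ¬ Even k) := by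
    intro k hk
    rw [← Nat.even_add_one]
    rcases Nat.lt_or_ge (k + 1) (4 * m) with h | h
    · rw [Nat.mod_eq_of_lt h]
    · have h1 : k + 1 = 4 * m := by omega
      rw [h1, Nat.mod_self]
      exact ⟨fun _ => ⟨2 * m, by ring⟩, fun _ => ⟨0, rfl⟩⟩
  rcases hA.ha with ha | ha <;> rcases hA.hb with hb | hb
  · -- both at the left boundary
    refine caseB hm hR hn (fun j => 2 * j + 1) (fun j => (2 * j + 2) % (4 * m))
      (fun j hj => by show 2 * j + 1 < 4 * m; omega)
      (fun j hj => Nat.mod_lt _ (by omega)) (fun j hj => rfl) ?_ ?_ ?_ ?_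
    · intro G
      have e1 : 4 * m = 2 * (2 * m) := by ring
      rw [e1, sum_pairs G (2 * m), Finset.sum_add_distrib, Finset.sum_add_distrib, sum_shift, add_comm]
    · intro k hk
      rcases Nat.even_or_odd k with ⟨c, hc⟩ | ⟨c, hc⟩
      · rcases Nat.eq_zero_or_pos c with h0 | h0
        · refine ⟨2 * m - 1, by omega, Or.inr ?_⟩
          show (2 * (2 * m - 1) + 2) % (4 * m) = k
          have : 2 * (2 * m - 1) + 2 = 4 * m := by omega
          rw [this, Nat.mod_self]
          omega
        · refine ⟨c - 1, by omega, Or.inr ?_⟩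
          show (2 * (c - 1) + 2) % (4 * m) = k
          rw [Nat.mod_eq_of_lt (by omega)]
          omega
      · exact ⟨c, by omega, Or.inl (by show 2 * c + 1 = k; omega)⟩
    · intro j hj _
      exact hR.odd _ (by show 2 * j + 1 < 4 * m; omega)
        (by show ¬ Even (2 * j + 1); simp) a ha ha1
    · intro j hj h
      exact hR.odd _ (by show 2 * j + 1 < 4 * m; omega)
        (by show ¬ Even (2 * j + 1); simp) b hb (hb1 h)
  · -- from left to right
    refine caseA hm hR hn (fun k => if Even k then a else b) (fun k => if Even k then b else a)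
      (fun k => decide (Even k)) ?_ ?_ ?_
    · intro k hk l hl
      by_cases hev : Even k
      · simpa [hev, ori] using hl.1
      · simpa [hev, ori] using isW_reverse hl.1
    · intro k hk h
      by_cases hev : Even k
      · simp only [hev, if_true]
        exact hR.even k hk hev b hb (hb1 h)
      · simp only [hev, if_false]
        exact hR.odd k hk hev a ha ha1
    · intro k hk
      show (if Even ((k + 1) % (4 * m)) then a else b) = if Even k then b else a
      by_cases hev : Even k
      · rw [if_neg (fun h => (hpar k hk).mp h hev), if_pos hev]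
      · rw [if_pos ((hpar k hk).mpr hev), if_neg hev]
  · -- from right to left
    refine caseA hm hR hn (fun k => if Even k then b else a) (fun k => if Even k then a else b)
      (fun k => ! decide (Even k)) ?_ ?_ ?_
    · intro k hk l hl
      by_cases hev : Even k
      · simpa [hev, ori] using isW_reverse hl.1
      · simpa [hev, ori] using hl.1
    · intro k hk h
      by_cases hev : Even k
      · simp only [hev, if_true]
        exact hR.even k hk hev a ha ha1
      · simp only [hev, if_false]
        exact hR.odd k hk hev b hb (hb1 h)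
    · intro k hk
      show (if Even ((k + 1) % (4 * m)) then b else a) = if Even k then a else b
      by_cases hev : Even k
      · rw [if_neg (fun h => (hpar k hk).mp h hev), if_pos hev]
      · rw [if_pos ((hpar k hk).mpr hev), if_neg hev]
  · -- both at the right boundary
    refine caseB hm hR hn (fun j => 2 * j) (fun j => 2 * j + 1)
      (fun j hj => by show 2 * j < 4 * m; omega)
      (fun j hj => by show 2 * j + 1 < 4 * m; omega)
      (fun j hj => Nat.mod_eq_of_lt (by show 2 * j + 1 < 4 * m; omega)) ?_ ?_ ?_ ?_
    · intro G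
      have e1 : 4 * m = 2 * (2 * m) := by ring
      rw [e1, sum_pairs G (2 * m)]
    · intro k hk
      rcases Nat.even_or_odd k with ⟨c, hc⟩ | ⟨c, hc⟩
      · exact ⟨c, by omega, Or.inl (by show 2 * c = k; omega)⟩
      · exact ⟨c, by omega, Or.inr (by show 2 * c + 1 = k; omega)⟩
    · intro j hj _
      exact hR.even _ (by show 2 * j < 4 * m; omega) (by show Even (2 * j); simp) a ha ha1
    · intro j hj h
      exact hR.even _ (by show 2 * j < 4 * m; omega) (by show Even (2 * j); simp) b hb (hb1 h)

end Pool.Agent.R651.CP
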