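import Pool.Agent.R651.CP.Stm

/-!
# Piece RG: the ring of `4m` reflected copies of a slab
-/

set_option autoImplicit false

namespace Pool.Agent.R651.CP

namespace RG

variable {d : ℕ}

/-- replace the first two coordinates -/
def pt (e : V (d + 2)) (a b : ℤ) : V (d + 2) := fun i => if i = 0 then a else if i = 1 then b else e i

theorem pt_zero (e : V (d + 2)) (a b : ℤ) : pt e a b 0 = a := rfl

theorem pt_one (e : V (d + 2)) (a b : ℤ) : pt e a b 1 = b := by
  have : (1 : Fin (d + 2)) ≠ 0 := by
    rw [Ne, Fin.ext_iff]
    simp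
  simp [pt]

theorem pt_ss (e : V (d + 2)) (a b : ℤ) (i : Fin d) : pt e a b i.succ.succ = e i.succ.succ := by
  have h0 : i.succ.succ ≠ 0 := Fin.succ_ne_zero _
  have h1 : i.succ.succ ≠ 1 := by
    rw [Ne, Fin.ext_iff]
    simp
  simp [pt, h0, h1]

theorem sum_two (f : Fin (d + 2) → ℤ) : ∑ i, f i = f 0 + (f 1 + ∑ i : Fin d, f i.succ.succ) := by
  rw [Fin.sum_univ_succ, Fin.sum_univ_succ]
  rfl

theorem adj_pt' {x y : V (d + 2)} {a b a' b' : ℤ} (ha : |a - a'| = |x 0 - y 0|)
    (hb : |b - b'| = |x 1 - y 1|) (h : Adj x y) : Adj (pt x a b) (pt y a' b') := by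
  unfold Adj at *
  rw [sum_two] at *
  simp only [pt_zero, pt_one, pt_ss]
  rw [ha, hb]
  exact h

theorem adj_pt (e : V (d + 2)) {a b a' b' : ℤ} (h : |a - a'| + |b - b'| = 1) :
    Adj (pt e a b) (pt e a' b') := by
  unfold Adj
  rw [sum_two]
  simp only [pt_zero, pt_one, pt_ss, sub_self, abs_zero, Finset.sum_const_zero, add_zero]
  exact h

/-- the number of the slab -/
def idx (m k : ℕ) : ℕ := if k < 2 * m then k else 4 * m - 1 - k

/-- the first coordinate -/
def f0 (L m k : ℕ) (a : ℤ) : ℤ :=
  if Even (idx m k) then (idx m k : ℤ) * L + a else ((idx m k : ℤ) + 1) * L + 1 - a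

/-- the shift of the second coordinate -/
def s1 (R m k : ℕ) : ℤ := if k < 2 * m then 0 else 4 * R + 1

/-- the copies of the slab -/
def psi (L R m k : ℕ) (x : V (d + 2)) : V (d + 2) := pt x (f0 L m k (x 0)) (x 1 + s1 R m k)

/-- the connections -/
def cn (L R m k : ℕ) (e : V (d + 2)) : List (V (d + 2)) :=
  if k = 2 * m - 1 then
    (List.range (4 * R + 1 + 1)).map (fun i : ℕ => pt e (2 * m * L + 1) (e 1 + i))
  else if k = 4 * m - 1 then
    (List.range (4 * R + 1 + 1)).map (fun i : ℕ => pt e 0 (e 1 + (4 * R + 1) - i))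
  else []

theorem f0_sub (L m k : ℕ) (a b : ℤ) : |f0 L m k a - f0 L m k b| = |a - b| := by
  unfold f0
  split_ifs
  · congr 1; ring
  · rw [abs_sub_comm]; congr 1; ring

theorem f0_inj (L m k : ℕ) {a b : ℤ} (h : f0 L m k a = f0 L m k b) : a = b := by
  have := f0_sub L m k a b
  rw [h, sub_self, abs_zero] at this
  have := abs_eq_zero.1 this.symm
  linarith

theorem f0_mem (L m k : ℕ) {a : ℤ} (h1 : 1 ≤ a) (h2 : a ≤ L) :
    (idx m k : ℤ) * L + 1 ≤ f0 L m k a ∧ f0 L m k a ≤ ((idx m k : ℤ) + 1) * L := by
  unfold f0
  split_ifs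
  · constructor
    · linarith
    · linarith
  · constructor
    · linarith
    · linarith

theorem psi_inj (L R m k : ℕ) : Function.Injective (psi (d := d) L R m k) := by
  intro x y h
  have h0 : f0 L m k (x 0) = f0 L m k (y 0) := congrFun h 0
  have h1 := congrFun h 1
  unfold psi at h1
  rw [pt_one, pt_one] at h1
  funext i
  refine Fin.cases (f0_inj L m k h0) (fun i => ?_) i
  refine Fin.cases ?_ (fun i => ?_) i
  · have : x 1 = y 1 := by linarith
    exact this
  · have := congrFun h i.succ.succ
    unfold psi at this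
    rwa [pt_ss, pt_ss] at this

theorem chain_conn (F : ℕ → V (d + 2)) (n : ℕ) (p q : V (d + 2))
    (h : ∀ i < n, Adj (F i) (F (i + 1))) (hp : Adj p (F 0)) (hq : Adj (F n) q) :
    (p :: ((List.range (n + 1)).map F ++ [q])).IsChain Adj := by
  rw [← List.cons_append, List.isChain_append]
  refine ⟨?_, List.isChain_singleton _, ?_⟩
  · rw [List.isChain_cons]
    constructor
    · intro y hy
      rw [List.range_succ_eq_map, List.map_cons, List.head?_cons] at hy
      obtain rfl : F 0 = y := by simpa using hy
      exact hp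
    · rw [List.isChain_map, List.isChain_range_succ]
      exact h
  · intro x hx y hy
    have e : (p :: (List.range (n + 1)).map F).getLast? = some (F n) := by
      rw [List.range_succ, List.map_append, List.map_singleton, ← List.cons_append,
        List.getLast?_append]
      rfl
    rw [e] at hx
    obtain rfl : F n = x := by simpa using hx
    obtain rfl : q = y := by simpa using hy
    exact hq

theorem main (L R m : ℕ) (hL : 1 ≤ L) (hm : 1 ≤ m) :
    Ring (d := d) L R m (4 * R + 2) (psi L R m) (cn L R m) := by
  refine ⟨psi_inj L R m, ?_, ?_, ?_, ?_, ?_⟩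
  · intro k x y h
    exact adj_pt' (f0_sub L m k _ _) (by congr 1; ring) h
  · intro k k' hk hk' hne x y hx1 hx2 hx3 hy1 hy2 hy3 h
    have h0 : f0 L m k (x 0) = f0 L m k' (y 0) := congrFun h 0
    have h1 := congrFun h 1
    unfold psi at h1
    rw [pt_one, pt_one] at h1
    rw [abs_le] at hx3 hy3
    have hrow : (k < 2 * m ↔ k' < 2 * m) := by
      unfold s1 at h1
      by_contra hcon
      by_cases a : k < 2 * m <;> by_cases b : k' < 2 * m
      · exact hcon (iff_of_true a b)
      · simp only [a, b, if_true, if_false] at h1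
        omega
      · simp only [a, b, if_true, if_false] at h1
        omega
      · exact hcon (iff_of_false a b)
    have hidx : idx m k ≠ idx m k' := by
      unfold idx
      by_cases a : k < 2 * m
      · have b := hrow.1 a
        simp only [a, b, if_true]
        exact hne
      · have b : ¬ k' < 2 * m := fun b => a (hrow.2 b)
        simp only [a, b, if_false]
        omega
    obtain ⟨b1, b2⟩ := f0_mem L m k hx1 hx2
    obtain ⟨c1, c2⟩ := f0_mem L m k' hy1 hy2
    rcases Nat.lt_or_gt_of_ne hidx with hlt | hlt
    · have : ((idx m k : ℤ) + 1) * L ≤ (idx m k' : ℤ) * L := by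
        have : (idx m k : ℤ) + 1 ≤ idx m k' := by exact_mod_cast hlt
        exact mul_le_mul_of_nonneg_right this (by positivity)
      linarith
    · have : ((idx m k' : ℤ) + 1) * L ≤ (idx m k : ℤ) * L := by
        have : (idx m k' : ℤ) + 1 ≤ idx m k := by exact_mod_cast hlt
        exact mul_le_mul_of_nonneg_right this (by positivity)
      linarith
  · intro k hk hkE e he1 he2
    have hk1 : k ≠ 2 * m - 1 := by
      obtain ⟨j, rfl⟩ := hkE
      omega
    have hk2 : k ≠ 4 * m - 1 := by
      obtain ⟨j, rfl⟩ := hkE
      omega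
    have hmod : (k + 1) % (4 * m) = k + 1 := Nat.mod_eq_of_lt (by omega)
    rw [hmod]
    unfold cn
    rw [if_neg hk1, if_neg hk2, List.nil_append, List.isChain_pair]
    unfold psi
    refine adj_pt e ?_
    by_cases a : k < 2 * m
    · have a' : k + 1 < 2 * m := by
        obtain ⟨j, rfl⟩ := hkE
        omega
      have hO : ¬ Even (k + 1) := by
        rw [Nat.even_add_one, not_not]; exact hkE
      simp only [f0, s1, idx, a, a', if_true, hkE, hO, if_false, he1]
      push_cast
      have e1 : (k : ℤ) * L + L - ((k + 1 + 1 : ℤ) * L + 1 - L) = -1 := by ring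
      rw [e1]
      simp
    · have a' : ¬ k + 1 < 2 * m := by omega
      have hE1 : ¬ Even (4 * m - 1 - k) := by
        intro h
        obtain ⟨j, hj⟩ := hkE
        obtain ⟨j', hj'⟩ := h
        omega
      have hE2 : Even (4 * m - 1 - (k + 1)) := by
        obtain ⟨j, hj⟩ := hkE
        exact ⟨2 * m - 1 - j, by omega⟩
      simp only [f0, s1, idx, a, a', if_false, hE1, hE2, if_true, he1]
      have e0 : ((4 * m - 1 - k : ℕ) : ℤ) = ((4 * m - 1 - (k + 1) : ℕ) : ℤ) + 1 := by
        have : 4 * m - 1 - k = 4 * m - 1 - (k + 1) + 1 := by omega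
        rw [this]; push_cast; ring
      rw [e0]
      have e1 : (((4 * m - 1 - (k + 1) : ℕ) : ℤ) + 1 + 1) * L + 1 - L -
          (((4 * m - 1 - (k + 1) : ℕ) : ℤ) * L + L) = 1 := by ring
      rw [e1]
      simp
  · intro k hk hkO e he1 he2
    by_cases h1 : k = 2 * m - 1
    · have hmod : (k + 1) % (4 * m) = k + 1 := Nat.mod_eq_of_lt (by omega)
      have hk1 : k + 1 = 2 * m := by omega
      rw [hmod]
      unfold cn
      rw [if_pos h1]
      have hi1 : idx m k = 2 * m - 1 := by
        unfold idx; rw [if_pos (by omega)]; exact h1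
      have hi2 : idx m (k + 1) = 2 * m - 1 := by
        unfold idx; rw [if_neg (by omega)]; omega
      have hO : ¬ Even (2 * m - 1) := by
        rintro ⟨j, hj⟩; omega
      have hc : ((2 * m - 1 : ℕ) : ℤ) + 1 = 2 * m := by
        rw [Nat.cast_sub (by omega)]; push_cast; ring
      refine chain_conn (fun i => pt e (2 * m * L + 1) (e 1 + i)) (4 * R + 1) _ _ ?_ ?_ ?_
      · intro i _
        refine adj_pt e ?_
        push_cast
        have e1 : e 1 + (i : ℤ) - (e 1 + (i + 1)) = -1 := by ring
        rw [e1]
        simp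
      · unfold psi
        refine adj_pt e ?_
        simp only [f0, hi1, hO, if_false, hc, he1, s1]
        rw [if_pos (by omega)]
        have e1 : (2 * (m : ℤ) * L + 1 - 1 - (2 * m * L + 1)) = -1 := by ring
        rw [e1]
        simp
      · unfold psi
        refine adj_pt e ?_
        simp only [f0, hi2, hO, if_false, hc, he1, s1]
        rw [if_neg (by omega)]
        push_cast
        have e1 : (2 * (m : ℤ) * L + 1 - (2 * m * L + 1 - 1)) = 1 := by ring
        rw [e1]
        simp
    · by_cases h2 : k = 4 * m - 1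
      · have hk1 : k + 1 = 4 * m := by omega
        rw [hk1, Nat.mod_self]
        unfold cn
        rw [if_neg h1, if_pos h2]
        have hi1 : idx m k = 0 := by
          unfold idx; rw [if_neg (by omega)]; omega
        have hi2 : idx m 0 = 0 := by
          unfold idx; rw [if_pos (by omega)]
        refine chain_conn (fun i => pt e 0 (e 1 + (4 * R + 1) - i)) (4 * R + 1) _ _ ?_ ?_ ?_
        · intro i _
          refine adj_pt e ?_
          push_cast
          have e1 : e 1 + (4 * (R : ℤ) + 1) - i - (e 1 + (4 * R + 1) - (i + 1)) = 1 := by ring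
          rw [e1]
          simp
        · unfold psi
          refine adj_pt e ?_
          simp only [f0, hi1, Even.zero, if_true, he1, s1]
          rw [if_neg (by omega)]
          simp
        · unfold psi
          refine adj_pt e ?_
          simp only [f0, hi2, Even.zero, if_true, he1, s1]
          rw [if_pos (by omega)]
          simp
      · have hmod : (k + 1) % (4 * m) = k + 1 := Nat.mod_eq_of_lt (by omega)
        rw [hmod]
        unfold cn
        rw [if_neg h1, if_neg h2, List.nil_append, List.isChain_pair]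
        unfold psi
        refine adj_pt e ?_
        obtain ⟨j, hj⟩ := Nat.not_even_iff_odd.1 hkO
        by_cases a : k < 2 * m
        · have a' : k + 1 < 2 * m := by omega
          have hE : Even (k + 1) := by
            rw [Nat.even_add_one]; exact hkO
          simp only [f0, s1, idx, a, a', if_true, hkO, hE, if_false, he1]
          push_cast
          have e1 : ((k : ℤ) + 1) * L + 1 - 1 - ((k + 1 : ℤ) * L + 1) = -1 := by ring
          rw [e1]
          simp
        · have a' : ¬ k + 1 < 2 * m := by omega
          have hE1 : Even (4 * m - 1 - k) := ⟨2 * m - 1 - j, by omega⟩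
          have hE2 : ¬ Even (4 * m - 1 - (k + 1)) := by
            rintro ⟨j', hj'⟩
            omega
          simp only [f0, s1, idx, a, a', if_false, hE1, hE2, if_true, he1]
          have e0 : ((4 * m - 1 - k : ℕ) : ℤ) = ((4 * m - 1 - (k + 1) : ℕ) : ℤ) + 1 := by
            have : 4 * m - 1 - k = 4 * m - 1 - (k + 1) + 1 := by omega
            rw [this]; push_cast; ring
          rw [e0]
          have e1 : (((4 * m - 1 - (k + 1) : ℕ) : ℤ) + 1) * L + 1 -
              ((((4 * m - 1 - (k + 1) : ℕ) : ℤ) + 1) * L + 1 - 1) = 1 := by ring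
          rw [e1]
          simp
  · intro k e
    unfold cn
    by_cases h1 : k = 2 * m - 1
    · simp [h1]
    · by_cases h2 : k = 4 * m - 1
      · have : ¬ (4 * m - 1 = 2 * m - 1) := by omega
        simp [h2, this]
      · simp [h1, h2]

end RG

theorem t_ring : S_ring := fun _ L R m hL hm => ⟨RG.psi L R m, RG.cn L R m, RG.main L R m hL hm⟩

end Pool.Agent.R651.CP
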