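import Pool.Agent.R651.CP.Stm

set_option autoImplicit false

open scoped ENNReal

namespace Pool.Agent.R651.CP

namespace SLaux

variable {d : ℕ}

theorem count_ofFn {N : ℕ} (a : Fin N → List (V d)) (x : V d) :
    (List.ofFn a).flatten.count x = ∑ k, (a k).count x := by
  induction N with
  | zero => simp
  | succ N ih =>
    rw [List.ofFn_succ, List.flatten_cons, List.count_append, ih, Fin.sum_univ_succ]

theorem perm_ofFn {N : ℕ} (a b : Fin N → List (V d)) (r s : List (V d)) :
    (((List.ofFn a).flatten ++ r) ++ ((List.ofFn b).flatten ++ s)).Perm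
      ((List.ofFn fun k => a k ++ b k).flatten ++ (r ++ s)) := by
  rw [List.perm_iff_count]
  intro x
  rw [List.count_append, List.count_append, List.count_append, List.count_append,
    List.count_append, count_ofFn, count_ofFn, count_ofFn]
  have : ∑ k, (a k ++ b k).count x = ∑ k, (a k).count x + ∑ k, (b k).count x := by
    rw [← Finset.sum_add_distrib]
    refine Finset.sum_congr rfl fun k _ => ?_
    rw [List.count_append]
  rw [this]
  omega

theorem w_ofFn {g : ℕ → ℝ≥0∞} {N : ℕ} (a : Fin N → List (V d))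
    (h : ∀ k k', k ≠ k' → ∀ x ∈ a k, x ∉ a k') :
    w g (List.ofFn a).flatten = ∏ k, w g (a k) := by
  induction N with
  | zero => simp [w_nil]
  | succ N ih =>
    rw [List.ofFn_succ, List.flatten_cons, Fin.prod_univ_succ, w_append_of_disjoint, ih]
    · intro k k' hkk
      exact h _ _ (fun hh => hkk (Fin.succ_injective _ hh))
    · intro x hx hx'
      rw [List.mem_flatten] at hx'
      obtain ⟨l, hl, hxl⟩ := hx'
      rw [List.mem_ofFn] at hl
      obtain ⟨k, rfl⟩ := hl
      exact h 0 k.succ (Fin.succ_ne_zero k).symm x hx hxl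

theorem tsum_pow {α : Type*} (F : α → ℝ≥0∞) (N : ℕ) :
    (∑' a, F a) ^ N = ∑' f : Fin N → α, ∏ k, F (f k) := by
  induction N with
  | zero => simp
  | succ N ih =>
    rw [pow_succ', ih, ← (Fin.consEquiv (fun _ : Fin (N + 1) => α)).tsum_eq,
      ENNReal.tsum_prod', ← ENNReal.tsum_mul_right]
    refine tsum_congr fun a => ?_
    rw [← ENNReal.tsum_mul_left]
    refine tsum_congr fun f => ?_
    rw [Fin.prod_univ_succ]
    rfl

theorem adj_one {x y : V (d + 2)} (h : Adj x y) : |x 1 - y 1| ≤ 1 := by
  have h1 : |x 1 - y 1| ≤ ∑ i, |x i - y i| :=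
    Finset.single_le_sum (f := fun i => |x i - y i|) (fun i _ => abs_nonneg _) (Finset.mem_univ 1)
  rw [h] at h1
  exact h1

theorem chain_bound (l : List (V (d + 2))) : ∀ a : V (d + 2), (a :: l).IsChain Adj →
    ∀ x ∈ a :: l, |x 1 - a 1| ≤ l.length := by
  induction l with
  | nil =>
    intro a _ x hx
    rw [List.mem_singleton] at hx
    rw [hx]
    simp
  | cons b l ih =>
    intro a hc x hx
    rw [List.isChain_cons_cons] at hc
    rcases List.mem_cons.1 hx with rfl | hx
    · rw [sub_self, abs_zero]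
      positivity
    · have h1 := ih b hc.2 x hx
      have h2 := adj_one hc.1
      have h3 : |x 1 - a 1| ≤ |x 1 - b 1| + |a 1 - b 1| := by
        have : x 1 - a 1 = (x 1 - b 1) - (a 1 - b 1) := by ring
        rw [this]
        exact abs_sub _ _
      rw [List.length_cons]
      push_cast
      linarith

theorem isS_bound {L R n : ℕ} {a b : V (d + 2)} (hA : Adm L R (a, b, n)) {l : List (V (d + 2))}
    (hl : IsS L a b n l) : ∀ x ∈ l, 1 ≤ x 0 ∧ x 0 ≤ L ∧ |x 1| ≤ 2 * R := by
  intro x hx
  obtain ⟨⟨h1, h2, h3, _⟩, h5⟩ := hl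
  refine ⟨(h5 x hx).1, (h5 x hx).2, ?_⟩
  cases l with
  | nil => simp at hx
  | cons c l =>
    rw [List.head?_cons, Option.some_inj] at h3
    subst h3
    have h6 := chain_bound l c h2 x hx
    rw [List.length_cons] at h1
    have h7 : n ≤ R := hA.len
    have h8 : |c 1| ≤ R := hA.hR
    have h9 : |x 1| ≤ |x 1 - c 1| + |c 1| := by
      have : x 1 = (x 1 - c 1) + c 1 := by ring
      conv_lhs => rw [this]
      exact abs_add_le _ _
    have h10 : (l.length : ℤ) ≤ R := by
      have : l.length ≤ R := by omega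
      exact_mod_cast this
    linarith

/-- validity of a family for the data `D` -/
def Val (L : ℕ) (D : List (V (d + 2) × V (d + 2) × ℕ)) (f : List (List (V (d + 2)))) : Prop :=
  List.Forall₂ (fun (p : V (d + 2) × V (d + 2) × ℕ) l => IsS L p.1 p.2.1 p.2.2 l) D f

theorem val_bound {L R : ℕ} {D : List (V (d + 2) × V (d + 2) × ℕ)} (hD : ∀ p ∈ D, Adm L R p)
    {f : List (List (V (d + 2)))} (hf : Val L D f) :
    ∀ x ∈ f.flatten, 1 ≤ x 0 ∧ x 0 ≤ L ∧ |x 1| ≤ 2 * R := by
  induction hf with
  | nil => intro x hx; simp at hx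
  | @cons p l D f hpl _ ih =>
    intro x hx
    rw [List.flatten_cons, List.mem_append] at hx
    rcases hx with hx | hx
    · exact isS_bound (hD p List.mem_cons_self) hpl x hx
    · exact ih (fun q hq => hD q (List.mem_cons_of_mem _ hq)) x hx

theorem core (hP : S_piece) {L R m H : ℕ} (hL : 1 ≤ L) (hm : 1 ≤ m)
    {ψ : ℕ → V (d + 2) → V (d + 2)} {conn : ℕ → V (d + 2) → List (V (d + 2))}
    (hRg : Ring L R m H ψ conn) (D : List (V (d + 2) × V (d + 2) × ℕ))
    (hD : ∀ p ∈ D, Adm L R p) :
    ∃ (sp : List (V (d + 2) × ℕ)) (r : List (V (d + 2)))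
      (LP : (Fin (4 * m) → List (List (V (d + 2)))) → List (List (V (d + 2)))),
      (D ≠ [] → sp ≠ []) ∧ sp.length ≤ 2 * m * D.length ∧ (∀ q ∈ sp, 1 ≤ q.2) ∧
      totL sp = 4 * m * totD D + r.length ∧ r.length ≤ 4 * H * D.length ∧
      (∀ F : Fin (4 * m) → List (List (V (d + 2))), (∀ k, Val L D (F k)) →
        List.Forall₂ (fun (q : V (d + 2) × ℕ) l => IsL q.1 q.2 l) sp (LP F) ∧
        (LP F).flatten.Perm
          ((List.ofFn (fun k : Fin (4 * m) => (F k).flatten.map (ψ k))).flatten ++ r)) ∧
      (∀ F F' : Fin (4 * m) → List (List (V (d + 2))), (∀ k, Val L D (F k)) →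
        (∀ k, Val L D (F' k)) → LP F = LP F' → F = F') := by
  induction D with
  | nil =>
    refine ⟨[], [], fun _ => [], fun h => absurd rfl h, by simp, by simp, by simp [totL, totD],
      by simp, ?_, ?_⟩
    · intro F hF
      refine ⟨List.Forall₂.nil, ?_⟩
      have : ∀ k, F k = [] := fun k => by
        have := hF k
        unfold Val at this
        exact List.forall₂_nil_left_iff.1 this
      simp [this]
    · intro F F' hF hF' _
      ext1 k
      have h1 := hF k
      have h2 := hF' k
      unfold Val at h1 h2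
      rw [List.forall₂_nil_left_iff.1 h1, List.forall₂_nil_left_iff.1 h2]
  | cons p D ih =>
    obtain ⟨sp', r', LP', _, i2, i3, i4, i5, i6, i7⟩ :=
      ih (fun q hq => hD q (List.mem_cons_of_mem _ hq))
    obtain ⟨a, b, n⟩ := p
    obtain ⟨sp, r, LP, j1, j2, j3, j4, j5, j6, j7⟩ :=
      hP d L R m H hL hm ψ conn hRg a b n (hD _ List.mem_cons_self)
    have hcons : ∀ f, Val L ((a, b, n) :: D) f →
        ∃ l f', f = l :: f' ∧ IsS L a b n l ∧ Val L D f' := by
      intro f hf
      unfold Val at hf
      rw [List.forall₂_cons_left_iff] at hf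
      obtain ⟨l, f', h1, h2, h3⟩ := hf
      exact ⟨l, f', h3, h1, h2⟩
    refine ⟨sp ++ sp', r ++ r', fun F => LP (fun k => (F k).headI) ++ LP' (fun k => (F k).tail),
      fun _ h => j1 (List.append_eq_nil_iff.1 h).1, ?_, ?_, ?_, ?_, ?_, ?_⟩
    · rw [List.length_append, List.length_cons]
      nlinarith
    · intro q hq
      rcases List.mem_append.1 hq with h | h
      · exact j3 q h
      · exact i3 q h
    · have e1 : totL (sp ++ sp') = totL sp + totL sp' := by
        simp [totL]
      have e2 : totD ((a, b, n) :: D) = n + totD D := by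
        simp [totD]
      rw [e1, e2, i4, j4, List.length_append]
      ring
    · rw [List.length_append, List.length_cons]
      nlinarith
    · intro F hF
      choose l f' h1 h2 h3 using fun k => hcons (F k) (hF k)
      have e1 : (fun k => (F k).headI) = l := by
        ext1 k; rw [h1 k]; rfl
      have e2 : (fun k => (F k).tail) = f' := by
        ext1 k; rw [h1 k]; rfl
      beta_reduce
      rw [e1, e2]
      obtain ⟨k1, k2⟩ := j6 l h2
      obtain ⟨k3, k4⟩ := i6 f' h3
      refine ⟨List.rel_append k1 k3, ?_⟩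
      rw [List.flatten_append]
      refine (k2.append k4).trans ?_
      refine (perm_ofFn _ _ _ _).trans ?_
      have e3 : (fun k : Fin (4 * m) => (F k).flatten.map (ψ k))
          = fun k => (l k).map (ψ k) ++ (f' k).flatten.map (ψ k) := by
        ext1 k
        rw [h1 k, List.flatten_cons, List.map_append]
      rw [e3]
    · intro F F' hF hF' heq
      choose l f hl1 hl2 hl3 using fun k => hcons (F k) (hF k)
      choose l' f' hl1' hl2' hl3' using fun k => hcons (F' k) (hF' k)
      have e1 : (fun k => (F k).headI) = l := by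
        ext1 k; rw [hl1 k]; rfl
      have e2 : (fun k => (F k).tail) = f := by
        ext1 k; rw [hl1 k]; rfl
      have e1' : (fun k => (F' k).headI) = l' := by
        ext1 k; rw [hl1' k]; rfl
      have e2' : (fun k => (F' k).tail) = f' := by
        ext1 k; rw [hl1' k]; rfl
      simp only [e1, e2, e1', e2'] at heq
      have hlen : (LP l).length = (LP l').length := by
        rw [← (j6 l hl2).1.length_eq, ← (j6 l' hl2').1.length_eq]
      obtain ⟨g1, g2⟩ := List.append_inj heq hlen
      have g3 := j7 l l' hl2 hl2' g1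
      have g4 := i7 f f' hl3 hl3' g2
      ext1 k
      rw [hl1 k, hl1' k, g3, g4]

end SLaux

open SLaux in
theorem t_slab (hR : S_ring) (hP : S_piece) : S_slab := by
  intro d g κ hOk L R m hL hm D hDne hD
  obtain ⟨ψ, conn, hRg⟩ := hR d L R m hL hm
  obtain ⟨sp, r, LP, i1, i2, i3, i4, i5, i6, i7⟩ := core hP hL hm hRg D hD
  refine ⟨sp, r.length, i1 hDne, i2, i3, i4, i5, ?_⟩
  unfold FS
  rw [tsum_pow, ← ENNReal.tsum_mul_left]
  have hval : ∀ f : {f : List (List (V (d + 2))) // List.Forall₂ (fun P l => P l)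
      (D.map (fun p => IsS L p.1 p.2.1 p.2.2)) f}, Val L D f.1 := by
    intro f
    have := f.2
    rw [List.forall₂_map_left_iff] at this
    exact this
  let Φ : (Fin (4 * m) → {f : List (List (V (d + 2))) // List.Forall₂ (fun P l => P l)
      (D.map (fun p => IsS L p.1 p.2.1 p.2.2)) f}) →
      {f : List (List (V (d + 2))) // List.Forall₂ (fun P l => P l)
      (sp.map (fun q => IsL q.1 q.2)) f} := fun F =>
    ⟨LP (fun k => (F k).1), by
      rw [List.forall₂_map_left_iff]
      exact (i6 _ (fun k => hval (F k))).1⟩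
  have hΦ : Function.Injective Φ := by
    intro F F' h
    have h1 : LP (fun k => (F k).1) = LP (fun k => (F' k).1) := congrArg Subtype.val h
    have h2 := i7 _ _ (fun k => hval (F k)) (fun k => hval (F' k)) h1
    ext1 k
    exact Subtype.ext (congrFun h2 k)
  refine le_trans (ENNReal.tsum_le_tsum fun F => ?_)
    (ENNReal.tsum_comp_le_tsum_of_injective hΦ _)
  have h1 := (i6 _ (fun k => hval (F k))).2
  change _ ≤ w g (LP (fun k => (F k).1)).flatten
  rw [w_perm h1]
  refine le_trans (le_of_eq ?_) (w_append_ge hOk _ _)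
  congr 1
  rw [w_ofFn]
  · refine Finset.prod_congr rfl fun k _ => ?_
    rw [w_map (hRg.inj k)]
  · intro k k' hkk x hx hx'
    rw [List.mem_map] at hx hx'
    obtain ⟨y, hy, rfl⟩ := hx
    obtain ⟨z, hz, hzy⟩ := hx'
    obtain ⟨a1, a2, a3⟩ := val_bound hD (hval (F k)) y hy
    obtain ⟨b1, b2, b3⟩ := val_bound hD (hval (F k')) z hz
    exact hRg.dis k k' k.2 k'.2 (fun h => hkk (Fin.ext h)) y z a1 a2 a3 b1 b2 b3 hzy.symm

end Pool.Agent.R651.CP
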