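import Pool.Agent.R651.CP.Stm

set_option autoImplicit false

open scoped ENNReal

namespace Pool.Agent.R651.CP

namespace ZY

variable {D : ℕ}

theorem stepV_inj {s t : Fin D × Bool} (h : stepV s = stepV t) : s = t := by
  obtain ⟨i, b⟩ := s
  obtain ⟨j, c⟩ := t
  have h1 := congrFun h i
  simp only [stepV, if_true] at h1
  by_cases hij : i = j
  · subst hij
    simp only [if_true] at h1
    cases b <;> cases c <;> simp_all
  · rw [if_neg hij] at h1
    cases b <;> simp at h1

theorem adj_step (x : V D) (s : Fin D × Bool) : Adj x (x + stepV s) := by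
  unfold Adj
  have : ∀ i, |x i - (x + stepV s) i| = if i = s.1 then 1 else 0 := by
    intro i
    rw [Pi.add_apply]
    unfold stepV
    split_ifs <;> simp
  rw [Finset.sum_congr rfl (fun i _ => this i)]
  simp

theorem adj_exists {x y : V D} (h : Adj x y) : ∃ s : Fin D × Bool, y = x + stepV s := by
  unfold Adj at h
  have h0 : ∃ i, |x i - y i| ≠ 0 := by
    by_contra hc
    push Not at hc
    rw [Finset.sum_congr rfl (fun i _ => hc i)] at h
    simp at h
  obtain ⟨i, hi⟩ := h0
  have hsplit := Finset.add_sum_erase Finset.univ (fun i => |x i - y i|) (Finset.mem_univ i)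
  rw [h] at hsplit
  have hnn : 0 ≤ ∑ j ∈ Finset.univ.erase i, |x j - y j| :=
    Finset.sum_nonneg (fun j _ => abs_nonneg _)
  have hi1 : 1 ≤ |x i - y i| := by
    have := abs_nonneg (x i - y i)
    omega
  have hi2 : |x i - y i| = 1 := by
    have : (fun i => |x i - y i|) i = |x i - y i| := rfl
    omega
  have hrest : ∑ j ∈ Finset.univ.erase i, |x j - y j| = 0 := by
    have : (fun i => |x i - y i|) i = |x i - y i| := rfl
    omega
  have hall : ∀ j, j ≠ i → x j = y j := by
    intro j hj
    have := (Finset.sum_eq_zero_iff_of_nonneg (fun j _ => abs_nonneg (x j - y j))).1 hrest j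
      (Finset.mem_erase.2 ⟨hj, Finset.mem_univ _⟩)
    have := abs_eq_zero.1 this
    omega
  refine ⟨(i, decide (x i < y i)), ?_⟩
  funext j
  rw [Pi.add_apply]
  unfold stepV
  by_cases hj : j = i
  · subst hj
    simp only [if_true, decide_eq_true_eq]
    rcases abs_cases (x j - y j) with ⟨h1, h2⟩ | ⟨h1, h2⟩
    · rw [if_neg (by omega)]
      omega
    · rw [if_pos (by omega)]
      omega
  · rw [if_neg hj]
    rw [hall j hj]
    ring

/-- the walk with given steps -/
def walk (a : V D) : List (Fin D × Bool) → List (V D)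
  | [] => [a]
  | s :: t => a :: walk (a + stepV s) t

theorem walk_length (t : List (Fin D × Bool)) : ∀ a : V D, (walk a t).length = t.length + 1 := by
  induction t with
  | nil => intro a; rfl
  | cons s t ih => intro a; simp [walk, ih]

theorem walk_head (a : V D) (t : List (Fin D × Bool)) : (walk a t).head? = some a := by
  cases t <;> rfl

theorem walk_chain (t : List (Fin D × Bool)) : ∀ a : V D, (walk a t).IsChain Adj := by
  induction t with
  | nil => intro a; exact List.isChain_singleton a
  | cons s t ih =>
    intro a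
    rw [walk, List.isChain_cons]
    refine ⟨?_, ih _⟩
    intro y hy
    rw [walk_head] at hy
    rw [Option.mem_some_iff] at hy
    rw [← hy]
    exact adj_step a s

theorem walk_inj (t : List (Fin D × Bool)) : ∀ (a : V D) (t' : List (Fin D × Bool)),
    walk a t = walk a t' → t = t' := by
  induction t with
  | nil =>
    intro a t' h
    have := congrArg List.length h
    rw [walk_length, walk_length] at this
    simp at this
    exact this.symm
  | cons s t ih =>
    intro a t' h
    cases t' with
    | nil =>
      have := congrArg List.length h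
      rw [walk_length, walk_length] at this
      simp at this
    | cons s' t' =>
      rw [walk, walk, List.cons.injEq] at h
      have h1 := congrArg List.head? h.2
      rw [walk_head, walk_head, Option.some.injEq] at h1
      have h2 : s = s' := stepV_inj (add_left_cancel h1)
      subst h2
      rw [ih _ _ h.2]

theorem walk_surj (l : List (V D)) : ∀ (a : V D), l.IsChain Adj → l.head? = some a →
    ∃ t, walk a t = l := by
  induction l with
  | nil => intro a _ h; simp at h
  | cons x l ih =>
    intro a hc ha
    rw [List.head?_cons, Option.some.injEq] at ha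
    subst ha
    cases l with
    | nil => exact ⟨[], rfl⟩
    | cons y l =>
      rw [List.isChain_cons_cons] at hc
      obtain ⟨s, hs⟩ := adj_exists hc.1
      obtain ⟨t, ht⟩ := ih y hc.2 rfl
      refine ⟨s :: t, ?_⟩
      rw [walk, ← hs, ht]

theorem walk_translate (t : List (Fin D × Bool)) : ∀ (a v : V D),
    walk (a + v) t = (walk a t).map (fun x => x + v) := by
  induction t with
  | nil => intro a v; rfl
  | cons s t ih =>
    intro a v
    rw [walk, walk, List.map_cons, ← ih]
    congr 2
    abel

theorem walk_ofFn : ∀ (m : ℕ) (a : V D) (t : Fin m → Fin D × Bool),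
    walk a (List.ofFn t) =
      List.ofFn (fun i : Fin (m + 1) => a + ∑ j : Fin m, if (j : ℕ) < i then stepV (t j) else 0) := by
  intro m
  induction m with
  | zero =>
    intro a t
    simp [walk]
  | succ m ih =>
    intro a t
    rw [List.ofFn_succ, walk, ih, List.ofFn_succ (n := m + 1)]
    refine congrArg₂ List.cons ?_ (congrArg List.ofFn ?_)
    · simp
    · funext i
      rw [Fin.sum_univ_succ]
      simp only [Fin.val_zero, Fin.val_succ, Nat.succ_pos', if_true, add_lt_add_iff_right]
      rw [add_assoc]

theorem pos_eq {m : ℕ} (s : Fin (m + 1) → Fin D × Bool) :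
    List.ofFn (pos s) = walk (stepV (s 0)) (List.ofFn (fun i => s i.succ)) := by
  rw [walk_ofFn]
  refine congrArg List.ofFn ?_
  funext i
  unfold pos
  rw [Finset.sum_filter, Fin.sum_univ_succ]
  congr 1

theorem count_ofFn {α : Type} [DecidableEq α] : ∀ (n : ℕ) (f : Fin n → α) (x : α),
    (List.ofFn f).count x = (Finset.univ.filter (fun i => f i = x)).card := by
  intro n
  induction n with
  | zero => intro f x; simp
  | succ n ih =>
    intro f x
    rw [List.ofFn_succ, List.count_cons, ih, Finset.card_filter, Finset.card_filter,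
      Fin.sum_univ_succ]
    rw [add_comm]
    congr 1
    simp

theorem weight_eq {n : ℕ} (g : ℕ → ℝ) (hg : ∀ n, 0 ≤ g n) (s : Fin n → Fin D × Bool) :
    ENNReal.ofReal (∏ x ∈ Finset.univ.image (pos s), g (loc s x)) =
      w (fun k => ENNReal.ofReal (g k)) (List.ofFn (pos s)) := by
  rw [ENNReal.ofReal_prod_of_nonneg (fun x _ => hg _)]
  unfold w
  have h1 : (List.ofFn (pos s)).toFinset = Finset.univ.image (pos s) := by
    ext x
    simp [List.mem_ofFn]
  rw [h1]
  apply Finset.prod_congr rfl
  intro x _
  rw [count_ofFn]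
  rfl

theorem Y_eq (g : ℕ → ℝ≥0∞) (m : ℕ) : Y g (0 : V D) (m + 1) =
    ∑ t : Fin m → Fin D × Bool, w g (walk 0 (List.ofFn t)) := by
  unfold Y
  let F : (Fin m → Fin D × Bool) →
      {l : List (V D) // l.length = m + 1 ∧ l.IsChain Adj ∧ l.head? = some 0} := fun t =>
    ⟨walk 0 (List.ofFn t), by rw [walk_length, List.length_ofFn], walk_chain _ _, walk_head _ _⟩
  have hF : Function.Bijective F := by
    constructor
    · intro t t' h
      have h1 : walk 0 (List.ofFn t) = walk 0 (List.ofFn t') := congrArg Subtype.val h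
      exact List.ofFn_injective (walk_inj _ _ _ h1)
    · rintro ⟨l, hl1, hl2, hl3⟩
      obtain ⟨t, ht⟩ := walk_surj l 0 hl2 hl3
      have hlen : t.length = m := by
        have := walk_length t (0 : V D)
        rw [ht, hl1] at this
        omega
      subst hlen
      refine ⟨fun i => t.get i, ?_⟩
      apply Subtype.ext
      change walk 0 (List.ofFn t.get) = l
      rw [List.ofFn_get, ht]
  rw [← (Equiv.ofBijective F hF).tsum_eq, tsum_fintype]
  rfl

end ZY

theorem t_ZY : S_ZY := by
  intro d g hg n hn
  obtain ⟨m, rfl⟩ : ∃ m, n = m + 1 := ⟨n - 1, by omega⟩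
  set D := d + 2 with hD
  have hDpos : (0 : ℝ) < 2 * (D : ℝ) := by
    have : (0 : ℝ) < D := by rw [hD]; positivity
    linarith
  have hcast : (2 * (D : ℕ) : ℝ≥0∞) = ENNReal.ofReal (2 * (D : ℝ)) := by
    rw [ENNReal.ofReal_mul (by norm_num), ENNReal.ofReal_natCast]
    simp
  have h1 : ENNReal.ofReal (Z D g (m + 1)) * (2 * (D : ℕ) : ℝ≥0∞) ^ (m + 1) =
      ∑ s : Fin (m + 1) → Fin D × Bool,
        w (fun k => ENNReal.ofReal (g k)) (List.ofFn (pos s)) := by
    rw [hcast, ← ENNReal.ofReal_pow hDpos.le, ← ENNReal.ofReal_mul' (pow_nonneg hDpos.le _)]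
    unfold Z
    have : (1 / (2 * (D : ℝ)) ^ (m + 1)) * (∑ s : Fin (m + 1) → Fin D × Bool,
        ∏ x ∈ Finset.univ.image (pos s), g (loc s x)) * (2 * (D : ℝ)) ^ (m + 1) =
        ∑ s : Fin (m + 1) → Fin D × Bool, ∏ x ∈ Finset.univ.image (pos s), g (loc s x) := by
      have : (2 * (D : ℝ)) ^ (m + 1) ≠ 0 := (pow_pos hDpos _).ne'
      field_simp
    rw [this, ENNReal.ofReal_sum_of_nonneg (fun s _ => Finset.prod_nonneg (fun x _ => hg _))]
    exact Finset.sum_congr rfl (fun s _ => ZY.weight_eq g hg s)
  rw [h1]
  have h2 : ∀ s : Fin (m + 1) → Fin D × Bool,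
      w (fun k => ENNReal.ofReal (g k)) (List.ofFn (pos s)) =
      w (fun k => ENNReal.ofReal (g k)) (ZY.walk 0 (List.ofFn (fun i => s i.succ))) := by
    intro s
    rw [ZY.pos_eq]
    have : stepV (s 0) = 0 + stepV (s 0) := by simp
    rw [this, ZY.walk_translate]
    exact w_map (add_left_injective _) _
  rw [Finset.sum_congr rfl (fun s _ => h2 s)]
  rw [← (Fin.consEquiv (fun _ => Fin D × Bool)).sum_comp, Fintype.sum_prod_type]
  simp only [Fin.consEquiv_apply, Fin.cons_succ, Finset.sum_const, Finset.card_univ,
    Fintype.card_prod, Fintype.card_fin, Fintype.card_bool]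
  rw [ZY.Y_eq, nsmul_eq_mul]
  congr 1
  push_cast
  ring

end Pool.Agent.R651.CP
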