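import Pool.Agent.R651.CP.P_FS
import Pool.Agent.R651.CP.P_CL
import Pool.Agent.R651.CP.P_ML
import Pool.Agent.R651.CP.P_RG
import Pool.Agent.R651.CP.P_PC
import Pool.Agent.R651.CP.P_SL
import Pool.Agent.R651.CP.P_DA
import Pool.Agent.R651.CP.P_DB
import Pool.Agent.R651.CP.P_CH
import Pool.Agent.R651.CP.P_ZY
import Pool.Agent.R651.CP.P_LM

set_option autoImplicit false

open scoped ENNReal Topology
open Filter MeasureTheory

namespace Pool.Agent.R651.CP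

/-- The limit exists for lists. -/
theorem t_lim' : S_lim :=
  t_lim t_closed t_merge (t_slab t_ring t_piece) (t_dec t_cut t_FSperm t_FSappend)

lemma Z_nonneg {D : ℕ} {G : ℕ → ℝ} (hG : ∀ n, 0 ≤ G n) (n : ℕ) : 0 ≤ Z D G n := by
  unfold Z
  exact mul_nonneg (by positivity)
    (Finset.sum_nonneg (fun s _ => Finset.prod_nonneg (fun x _ => hG _)))

lemma Z_eq {d : ℕ} {G : ℕ → ℝ} (hG : ∀ n, 0 ≤ G n) {n : ℕ} (hn : 1 ≤ n) :
    Z (d + 2) G n * (2 * (d + 2 : ℕ) : ℝ) ^ n =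
      (2 * (d + 2 : ℕ) : ℝ) * (Y (fun k => ENNReal.ofReal (G k)) (0 : V (d + 2)) n).toReal := by
  have h := congrArg ENNReal.toReal (t_ZY d G hG n hn)
  have e : ((2 : ℝ≥0∞) * ((d + 2 : ℕ) : ℝ≥0∞)).toReal = 2 * ((d + 2 : ℕ) : ℝ) := by
    rw [ENNReal.toReal_mul, ENNReal.toReal_natCast]; rfl
  rw [ENNReal.toReal_mul, ENNReal.toReal_mul, ENNReal.toReal_pow,
    ENNReal.toReal_ofReal (Z_nonneg hG n), e] at h
  exact h

/-- The main theorem for the charged polymer. -/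
theorem t_main (d : ℕ) (μ : Measure ℝ) [IsProbabilityMeasure μ] (δ β : ℝ) (hδ : 0 ≤ δ)
    (hβ : 0 < β) (hM : ∀ t : ℝ, Integrable (fun x => Real.exp (t * x)) μ)
    (h0 : ∫ x, x ∂μ = 0) (h1 : ∫ x, x ^ 2 ∂μ = 1) :
    ∃ F : ℝ, Tendsto (fun n : ℕ => Real.log (Z (d + 2) (gg μ δ β) n) / n) atTop (𝓝 F) := by
  obtain ⟨hpos, κ, hκ⟩ := t_charge μ δ β hδ hβ hM h0 h1
  obtain ⟨F, hF⟩ := t_lim' d _ κ hκ
  set c : ℝ := Real.log (2 * (d + 2 : ℕ) : ℝ) with hc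
  refine ⟨F - c, ?_⟩
  have hD : (0 : ℝ) < 2 * (d + 2 : ℕ) := by positivity
  have h2 : Tendsto (fun n : ℕ => Real.log (Y (fun n => ENNReal.ofReal (gg μ δ β n))
      (0 : V (d + 2)) n).toReal / n - c + c * ((n : ℝ))⁻¹) atTop (𝓝 (F - c + c * 0)) :=
    (hF.sub_const c).add ((tendsto_inv_atTop_nhds_zero_nat (𝕜 := ℝ)).const_mul c)
  rw [mul_zero, add_zero] at h2
  refine h2.congr' ?_
  filter_upwards [eventually_ge_atTop 1] with n hn
  have hn0 : (0 : ℝ) < n := by exact_mod_cast hn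
  have h3 := Z_eq (d := d) (G := gg μ δ β) (fun n => (hpos n).le) hn
  have hYp := Y_pos hκ (0 : V (d + 2)) hn
  have hZp : 0 < Z (d + 2) (gg μ δ β) n := by
    have h4 : 0 < Z (d + 2) (gg μ δ β) n * (2 * (d + 2 : ℕ) : ℝ) ^ n := by
      rw [h3]; exact mul_pos hD hYp
    exact (pos_iff_pos_of_mul_pos h4).mpr (by positivity)
  have h5 := congrArg Real.log h3
  rw [Real.log_mul hZp.ne' (by positivity), Real.log_mul hD.ne' hYp.ne', Real.log_pow, ← hc] at h5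
  have h6 : Real.log (Z (d + 2) (gg μ δ β) n) =
      c + Real.log (Y (fun n => ENNReal.ofReal (gg μ δ β n)) (0 : V (d + 2)) n).toReal -
        n * c := by linarith
  rw [h6]
  field_simp
  ring

end Pool.Agent.R651.CP
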