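import Pool.Agent.R651.CP.Stm

/-!
# The two formulas for the annealed partition function of the charged polymer (helper651)
-/

set_option autoImplicit false

open scoped ENNReal Topology
open Filter MeasureTheory ProbabilityTheory

namespace Pool.Agent.R651.CP

section
variable {ι : Type*} [Fintype ι] {ν : Measure ℝ} [IsProbabilityMeasure ν]

lemma indep_coord : iIndepFun (fun (i : ι) (ω : ι → ℝ) => ω i) (Measure.pi (fun _ : ι => ν)) :=
  iIndepFun_pi (X := fun _ : ι => (id : ℝ → ℝ)) (fun _ => aemeasurable_id)

lemma int_block (S : Finset ι) (h : ℝ → ℝ) (hh : Measurable h) :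
    ∫ ω : ι → ℝ, h (∑ i ∈ S, ω i) ∂(Measure.pi (fun _ : ι => ν)) =
      ∫ ω : Fin S.card → ℝ, h (∑ j, ω j) ∂(Measure.pi (fun _ : Fin S.card => ν)) := by
  classical
  let e : Fin S.card → ι := fun j => (S.equivFin.symm j : ι)
  have he : Function.Injective e := fun a b hab =>
    S.equivFin.symm.injective (Subtype.ext hab)
  have h1 := (indep_coord (ι := ι) (ν := ν)).precomp he
  have h2 := h1.map_fun_eq_pi_map (fun j => (measurable_pi_apply (e j)).aemeasurable)
  have h3 : ∀ j : Fin S.card, Measure.map (fun ω : ι → ℝ => ω (e j)) (Measure.pi (fun _ : ι => ν))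
      = ν := fun j => (measurePreserving_eval (fun _ : ι => ν) (e j)).map_eq
  simp only [h3] at h2
  have hm : Measurable (fun (ω : ι → ℝ) (j : Fin S.card) => ω (e j)) :=
    measurable_pi_lambda _ (fun j => measurable_pi_apply (e j))
  rw [← h2, integral_map hm.aemeasurable]
  · refine integral_congr_ae (Filter.Eventually.of_forall (fun ω => ?_))
    simp only
    congr 1
    rw [← Finset.sum_coe_sort S (fun i => ω i)]
    exact (Equiv.sum_comp S.equivFin.symm (fun i : S => ω i)).symm
  · refine Measurable.aestronglyMeasurable (hh.comp ?_)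
    exact Finset.measurable_sum _ (fun j _ => measurable_pi_apply j)

lemma int_prod_block {α : Type*} [DecidableEq α] (f : ι → α) (h : α → ℝ → ℝ)
    (hh : ∀ x, Measurable (h x)) (T : Finset α) :
    ∫ ω : ι → ℝ, ∏ x ∈ T, h x (∑ i with f i = x, ω i) ∂(Measure.pi (fun _ : ι => ν)) =
      ∏ x ∈ T, ∫ ω : ι → ℝ, h x (∑ i with f i = x, ω i) ∂(Measure.pi (fun _ : ι => ν)) := by
  classical
  induction T using Finset.induction_on with
  | empty => simp
  | insert a T ha ih =>
    rw [Finset.prod_insert ha, ← ih]
    simp only [Finset.prod_insert ha]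
    set A : Finset ι := Finset.univ.filter (fun i => f i = a) with hA
    set B : Finset ι := Finset.univ.filter (fun i => f i ∈ T) with hB
    have hAB : Disjoint A B := by
      rw [Finset.disjoint_left]
      intro i hi hi'
      rw [hA, Finset.mem_filter] at hi
      rw [hB, Finset.mem_filter] at hi'
      exact ha (hi.2 ▸ hi'.2)
    have h1 := (indep_coord (ι := ι) (ν := ν)).indepFun_finset A B hAB
      (fun i => measurable_pi_apply i)
    let φ : (A → ℝ) → ℝ := fun v => h a (∑ i, v i)
    let ψ : (B → ℝ) → ℝ := fun v => ∏ x ∈ T, h x (∑ i : B, if f (i : ι) = x then v i else 0)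
    have hφ : Measurable φ := (hh a).comp (Finset.measurable_sum _ (fun j _ => measurable_pi_apply j))
    have hψ : Measurable ψ := Finset.measurable_prod _ (fun x _ => (hh x).comp
      (Finset.measurable_sum _ (fun j _ => by
        split_ifs
        · exact measurable_pi_apply j
        · exact measurable_const)))
    have h2 := h1.comp hφ hψ
    have e1 : ∀ ω : ι → ℝ, φ (fun i : A => ω i) = h a (∑ i with f i = a, ω i) := by
      intro ω
      simp only [φ]
      congr 1
      rw [← hA, ← Finset.sum_coe_sort A (fun i => ω i)]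
    have e2 : ∀ ω : ι → ℝ, ψ (fun i : B => ω i) = ∏ x ∈ T, h x (∑ i with f i = x, ω i) := by
      intro ω
      simp only [ψ]
      refine Finset.prod_congr rfl (fun x hx => ?_)
      congr 1
      have e3 : (Finset.univ.filter (fun i => f i = x)) = B.filter (fun i => f i = x) := by
        ext i
        simp only [hB, Finset.mem_filter, Finset.mem_univ, true_and]
        constructor
        · intro hi; exact ⟨hi ▸ hx, hi⟩
        · intro hi; exact hi.2
      rw [e3, Finset.sum_filter,
        ← Finset.sum_coe_sort B (fun i => if f i = x then ω i else 0)]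
    have h3 := h2.integral_mul_eq_mul_integral
      ((hφ.comp (measurable_pi_lambda _ (fun i => measurable_pi_apply _))).aestronglyMeasurable)
      ((hψ.comp (measurable_pi_lambda _ (fun i => measurable_pi_apply _))).aestronglyMeasurable)
    simp only [Pi.mul_apply, Function.comp_apply, e1, e2] at h3
    exact h3

end

/-- The annealed partition function as a double expectation. -/
noncomputable def Zf (D : ℕ) (ν : Measure ℝ) (β : ℝ) (n : ℕ) : ℝ :=
  ∫ ω : Fin n → ℝ, ((2 * D : ℝ) ^ n)⁻¹ * ∑ s : Fin n → Fin D × Bool,
    Real.exp (-β * ∑' x : V D, (∑ i, if pos s i = x then ω i else 0) ^ 2)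
      ∂(Measure.pi (fun _ : Fin n => ν))

lemma exp_eq {D n : ℕ} (s : Fin n → Fin D × Bool) (β : ℝ) (ω : Fin n → ℝ) :
    Real.exp (-β * ∑' x : V D, (∑ i, if pos s i = x then ω i else 0) ^ 2) =
      ∏ x ∈ Finset.univ.image (pos s),
        (fun (_ : V D) (t : ℝ) => Real.exp (-β * t ^ 2)) x (∑ i with pos s i = x, ω i) := by
  rw [tsum_eq_sum (s := Finset.univ.image (pos s)), Finset.mul_sum, Real.exp_sum]
  · refine Finset.prod_congr rfl (fun x _ => ?_)
    rw [Finset.sum_filter]
  · intro x hx
    have h : ∀ i, (if pos s i = x then ω i else 0) = 0 := by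
      intro i
      rw [if_neg]
      rintro rfl
      exact hx (Finset.mem_image_of_mem _ (Finset.mem_univ _))
    rw [Finset.sum_congr rfl (fun i _ => h i)]
    simp

/-- The double expectation is the product formula. -/
theorem Zf_eq (D : ℕ) (μ : Measure ℝ) (δ β : ℝ) (hβ : 0 < β)
    [IsProbabilityMeasure (tilt μ δ)] (n : ℕ) :
    Zf D (tilt μ δ) β n = Z D (gg μ δ β) n := by
  unfold Zf Z
  rw [integral_const_mul, one_div]
  congr 1
  have hm : ∀ (s : Fin n → Fin D × Bool), Measurable (fun ω : Fin n → ℝ =>
      Real.exp (-β * ∑' x : V D, (∑ i, if pos s i = x then ω i else 0) ^ 2)) := by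
    intro s
    simp only [exp_eq]
    refine Finset.measurable_prod _ (fun x _ => ?_)
    have h1 : Measurable (fun ω : Fin n → ℝ => ∑ i with pos s i = x, ω i) :=
      Finset.measurable_sum _ (fun i _ => measurable_pi_apply i)
    exact (h1.pow_const 2 |>.const_mul (-β)).exp
  rw [integral_finsetSum]
  · refine Finset.sum_congr rfl (fun s _ => ?_)
    simp only [exp_eq]
    rw [int_prod_block (pos s) (fun _ t => Real.exp (-β * t ^ 2))
      (fun _ => (measurable_id.pow_const 2 |>.const_mul (-β)).exp)]
    refine Finset.prod_congr rfl (fun x _ => ?_)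
    rw [int_block (Finset.univ.filter (fun i => pos s i = x)) (fun t => Real.exp (-β * t ^ 2))
      (measurable_id.pow_const 2 |>.const_mul (-β)).exp]
    rfl
  · intro s _
    refine Integrable.of_bound (hm s).aestronglyMeasurable 1 (Filter.Eventually.of_forall
      (fun ω => ?_))
    rw [Real.norm_eq_abs, abs_of_pos (Real.exp_pos _), ← Real.exp_zero]
    refine Real.exp_le_exp.mpr ?_
    have : 0 ≤ ∑' x : V D, (∑ i, if pos s i = x then ω i else 0) ^ 2 :=
      tsum_nonneg (fun x => sq_nonneg _)
    nlinarith

end Pool.Agent.R651.CP
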