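import Pool.Agent.R651.CP.Stm

/-!
# Permutation invariance and independence of the sums over families (pieces FS1, FS2)
-/

set_option autoImplicit false

open scoped ENNReal Topology
open Filter MeasureTheory

namespace Pool.Agent.R651.CP

section FSaux

variable {α : Type*}

/-- General sums over families. -/
noncomputable def SG (φ : List α → ℝ≥0∞) (ps : List (α → Prop)) : ℝ≥0∞ :=
  ∑' f : {f : List α // List.Forall₂ (fun P l => P l) ps f}, φ f.1

lemma SG_nil (φ : List α → ℝ≥0∞) : SG φ [] = φ [] := by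
  unfold SG
  rw [tsum_eq_single (⟨[], List.Forall₂.nil⟩ :
    {f : List α // List.Forall₂ (fun (P : α → Prop) l => P l) [] f})]
  rintro ⟨f, hf⟩ hne
  exfalso
  apply hne
  cases hf
  rfl

lemma SG_cons (φ : List α → ℝ≥0∞) (P : α → Prop) (ps : List (α → Prop)) :
    SG φ (P :: ps) = ∑' l : {l : α // P l}, SG (fun f => φ (l.1 :: f)) ps := by
  unfold SG
  let e : {l : α // P l} × {f : List α // List.Forall₂ (fun P l => P l) ps f} →
      {f : List α // List.Forall₂ (fun P l => P l) (P :: ps) f} :=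
    fun p => ⟨p.1.1 :: p.2.1, List.Forall₂.cons p.1.2 p.2.2⟩
  have he : Function.Bijective e := by
    constructor
    · rintro ⟨⟨l, hl⟩, ⟨f, hf⟩⟩ ⟨⟨l', hl'⟩, ⟨f', hf'⟩⟩ h
      have h1 := congrArg Subtype.val h
      simp only [e, List.cons.injEq] at h1
      obtain ⟨rfl, rfl⟩ := h1
      rfl
    · rintro ⟨f, hf⟩
      cases hf with
      | cons hl hf' => exact ⟨⟨⟨_, hl⟩, ⟨_, hf'⟩⟩, rfl⟩
  rw [← (Equiv.ofBijective e he).tsum_eq, ENNReal.tsum_prod']
  rfl

lemma SG_perm {ps qs : List (α → Prop)} (h : ps.Perm qs) : ∀ φ : List α → ℝ≥0∞,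
    (∀ f f' : List α, f.Perm f' → φ f = φ f') → SG φ ps = SG φ qs := by
  induction h with
  | nil => intro φ _; rfl
  | cons P _ ih =>
    intro φ hφ
    rw [SG_cons, SG_cons]
    refine tsum_congr fun l => ?_
    exact ih _ (fun f f' hf => hφ _ _ (hf.cons _))
  | swap P Q ps =>
    intro φ hφ
    rw [SG_cons, SG_cons]
    simp only [SG_cons]
    rw [ENNReal.tsum_comm]
    refine tsum_congr fun a => tsum_congr fun b => ?_
    unfold SG
    refine tsum_congr fun f => hφ _ _ (List.Perm.swap _ _ _)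
  | trans _ _ ih1 ih2 =>
    intro φ hφ
    exact (ih1 φ hφ).trans (ih2 φ hφ)

lemma SG_append (ps qs : List (α → Prop)) : ∀ φ : List α → ℝ≥0∞,
    SG φ (ps ++ qs) = SG (fun f => SG (fun f' => φ (f ++ f')) qs) ps := by
  induction ps with
  | nil =>
    intro φ
    rw [SG_nil]
    rfl
  | cons P ps ih =>
    intro φ
    rw [List.cons_append, SG_cons, SG_cons]
    refine tsum_congr fun l => ?_
    rw [ih]
    rfl

end FSaux

theorem t_FSperm : S_FSperm := by
  intro d g ps qs h
  exact SG_perm h (fun f => w g f.flatten) (fun f f' hf => w_perm hf.flatten)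

lemma forall₂_mem {α : Type*} {ps : List (α → Prop)} {f : List α}
    (h : List.Forall₂ (fun P l => P l) ps f) : ∀ l ∈ f, ∃ P ∈ ps, P l := by
  induction h with
  | nil => intro l hl; simp at hl
  | cons h1 _ ih =>
    intro l hl
    rcases List.mem_cons.1 hl with rfl | hl
    · exact ⟨_, List.mem_cons_self, h1⟩
    · obtain ⟨P, hP, hl2⟩ := ih l hl
      exact ⟨P, List.mem_cons_of_mem _ hP, hl2⟩

theorem t_FSappend : S_FSappend := by
  intro d g ps qs h
  have h1 := SG_append ps qs (fun f => w g f.flatten)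
  have h2 : SG (fun f => SG (fun f' => w g (f ++ f').flatten) qs) ps =
      ∑' f : {f : List (List (V d)) // List.Forall₂ (fun P l => P l) ps f},
        w g f.1.flatten * FS g qs := by
    unfold SG
    refine tsum_congr fun f => ?_
    unfold FS
    rw [← ENNReal.tsum_mul_left]
    refine tsum_congr fun f' => ?_
    change w g (f.1 ++ f'.1).flatten = _
    rw [List.flatten_append]
    apply w_append_of_disjoint
    intro x hx hx'
    obtain ⟨l, hl, hxl⟩ := List.mem_flatten.1 hx
    obtain ⟨l', hl', hxl'⟩ := List.mem_flatten.1 hx'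
    obtain ⟨P, hP, hPl⟩ := forall₂_mem f.2 l hl
    obtain ⟨Q, hQ, hQl'⟩ := forall₂_mem f'.2 l' hl'
    exact h P hP Q hQ l l' hPl hQl' x hxl hxl'
  rw [h2, ENNReal.tsum_mul_right] at h1
  exact h1

end Pool.Agent.R651.CP
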