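import Pool.Agent.R651.CP.Stm

set_option autoImplicit false

open scoped ENNReal Topology
open Filter

namespace Pool.Agent.R651.CP

variable {d : ℕ}

/-- The unit vector in direction 0. -/
def e0 (d : ℕ) : V (d + 2) := Pi.single 0 1

lemma adj_add_e0 (x : V (d + 2)) : Adj x (x + e0 d) := by
  unfold Adj
  have h : ∀ i, |x i - (x + e0 d) i| = if i = 0 then 1 else 0 := by
    intro i
    by_cases hi : i = 0
    · subst hi; simp [e0]
    · simp [e0, hi]
  rw [Finset.sum_congr rfl (fun i _ => h i)]
  simp

lemma kappa_Y_le {g : ℕ → ℝ≥0∞} {κ : ℝ≥0∞} (h : Ok g κ) (s : V (d + 2)) {n : ℕ} (hn : 1 ≤ n) :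
    κ * Y g s n ≤ Y g s (n + 1) := by
  unfold Y
  rw [← ENNReal.tsum_mul_left]
  let i : {l : List (V (d + 2)) // l.length = n ∧ l.IsChain Adj ∧ l.head? = some s} →
      {l : List (V (d + 2)) // l.length = n + 1 ∧ l.IsChain Adj ∧ l.head? = some s} :=
    fun l => ⟨l.1 ++ [(l.1.getLast?.getD 0) + e0 d], by
      obtain ⟨l, h1, h2, h3⟩ := l
      have hne : l ≠ [] := by rintro rfl; simp at h1; omega
      refine ⟨by simp [h1], ?_, ?_⟩
      · rw [List.isChain_append]
        refine ⟨h2, by simp, ?_⟩
        intro x hx y hy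
        rw [Option.mem_def] at hx
        simp only [List.head?_cons, Option.mem_def, Option.some.injEq] at hy
        subst hy
        rw [hx]
        exact adj_add_e0 x
      · simp only [List.head?_append, h3, Option.some_or]⟩
  have hi : Function.Injective i := by
    intro a b hab
    have h1 := congrArg (fun q => (Subtype.val q).take n) hab
    simp only [i] at h1
    rw [List.take_left' a.2.1, List.take_left' b.2.1] at h1
    exact Subtype.ext h1
  calc ∑' l : {l : List (V (d + 2)) // l.length = n ∧ l.IsChain Adj ∧ l.head? = some s},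
        κ * w g l.1
      ≤ ∑' l, w g (i l).1 := by
        refine ENNReal.tsum_le_tsum (fun l => ?_)
        have := w_append_ge h l.1 [(l.1.getLast?.getD 0) + e0 d]
        simpa using this
    _ ≤ _ := ENNReal.tsum_comp_le_tsum_of_injective hi (fun l => w g l.1)

lemma kappa_le_Y_one {g : ℕ → ℝ≥0∞} {κ : ℝ≥0∞} (h : Ok g κ) (s : V (d + 2)) :
    κ ≤ Y g s 1 := by
  have h1 : κ ≤ w g [s] := by
    have := w_cons_ge h s []
    rwa [w_nil, mul_one] at this
  refine h1.trans ?_
  unfold Y
  exact ENNReal.le_tsum (f := fun l : {l : List (V (d + 2)) // l.length = 1 ∧ l.IsChain Adj ∧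
    l.head? = some s} => w g l.1) ⟨[s], by simp⟩

lemma pow_le_Y {g : ℕ → ℝ≥0∞} {κ : ℝ≥0∞} (h : Ok g κ) (s : V (d + 2)) (n : ℕ) (hn : 1 ≤ n) :
    κ ^ n ≤ Y g s n := by
  induction n, hn using Nat.le_induction with
  | base => simpa using kappa_le_Y_one h s
  | succ n hn ih =>
    rw [pow_succ']
    exact (mul_le_mul' le_rfl ih).trans (kappa_Y_le h s hn)

/-- The vectors with the coordinates -1, 0, 1. -/
def box (d : ℕ) : Finset (V (d + 2)) := Fintype.piFinset (fun _ => ({-1, 0, 1} : Finset ℤ))

lemma card_box : (box d).card = 3 ^ (d + 2) := by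
  unfold box
  rw [Fintype.card_piFinset]
  simp

lemma sub_mem_box {x y : V (d + 2)} (h : Adj x y) : y - x ∈ box d := by
  unfold box
  rw [Fintype.mem_piFinset]
  intro i
  unfold Adj at h
  have h1 : |x i - y i| ≤ 1 := by
    rw [← h]
    exact Finset.single_le_sum (f := fun i => |x i - y i|) (fun j _ => abs_nonneg _)
      (Finset.mem_univ i)
  rw [abs_le] at h1
  simp only [Pi.sub_apply, Finset.mem_insert, Finset.mem_singleton]
  omega

/-- The number of walks. -/
noncomputable def cnt (s : V (d + 2)) (n : ℕ) : ℝ≥0∞ :=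
  ∑' _l : {l : List (V (d + 2)) // l.length = n ∧ l.IsChain Adj ∧ l.head? = some s}, 1

lemma cnt_le (n : ℕ) : ∀ s : V (d + 2), cnt s n ≤ ((3 ^ (d + 2) : ℕ) : ℝ≥0∞) ^ n := by
  induction n with
  | zero =>
    intro s
    unfold cnt
    have : IsEmpty {l : List (V (d + 2)) // l.length = 0 ∧ l.IsChain Adj ∧ l.head? = some s} := by
      refine ⟨fun l => ?_⟩
      obtain ⟨l, h1, _, h3⟩ := l
      rw [List.length_eq_zero_iff] at h1
      subst h1
      simp at h3
    simp
  | succ n ih =>
    intro s
    rcases Nat.eq_zero_or_pos n with rfl | hn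
    · have hsub : Subsingleton {l : List (V (d + 2)) // l.length = 0 + 1 ∧ l.IsChain Adj ∧
          l.head? = some s} := by
        refine ⟨fun a b => ?_⟩
        obtain ⟨a, ha1, _, ha3⟩ := a
        obtain ⟨b, hb1, _, hb3⟩ := b
        apply Subtype.ext
        obtain ⟨x, rfl⟩ := List.length_eq_one_iff.mp (by simpa using ha1)
        obtain ⟨y, rfl⟩ := List.length_eq_one_iff.mp (by simpa using hb1)
        simp at ha3 hb3
        simp [ha3, hb3]
      have h1 : cnt s (0 + 1) ≤ 1 := by
        unfold cnt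
        let c : {l : List (V (d + 2)) // l.length = 0 + 1 ∧ l.IsChain Adj ∧ l.head? = some s} :=
          ⟨[s], by simp⟩
        rw [tsum_eq_single c (fun b hb => absurd (Subsingleton.elim b c) hb)]
      refine h1.trans ?_
      rw [zero_add, pow_one]
      exact_mod_cast Nat.one_le_pow _ _ (by norm_num)
    · let T : (b : box d) → Type := fun b =>
        {l : List (V (d + 2)) // l.length = n ∧ l.IsChain Adj ∧ l.head? = some (s + b.1)}
      have hex : ∀ l : {l : List (V (d + 2)) // l.length = n + 1 ∧ l.IsChain Adj ∧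
          l.head? = some s}, ∃ p : Σ b : box d, T b, l.1 = s :: p.2.1 := by
        rintro ⟨l, h1, h2, h3⟩
        cases l with
        | nil => simp at h3
        | cons x l =>
          simp only [List.head?_cons, Option.some.injEq] at h3
          subst h3
          cases l with
          | nil => simp at h1; omega
          | cons y l =>
            rw [List.isChain_cons_cons] at h2
            refine ⟨⟨⟨y - x, sub_mem_box h2.1⟩, ⟨y :: l, by simpa using h1, h2.2, ?_⟩⟩, rfl⟩
            have e : x + (y - x) = y := add_sub_cancel x y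
            simp [e]
      choose i hi using hex
      have hinj : Function.Injective i := by
        intro a b hab
        apply Subtype.ext
        rw [hi a, hi b, hab]
      unfold cnt
      calc ∑' _l : {l : List (V (d + 2)) // l.length = n + 1 ∧ l.IsChain Adj ∧
            l.head? = some s}, (1 : ℝ≥0∞)
          ≤ ∑' _p : (Σ b : box d, T b), (1 : ℝ≥0∞) :=
            ENNReal.tsum_comp_le_tsum_of_injective hinj (fun _ => 1)
        _ = ∑' b : box d, ∑' _l : T b, (1 : ℝ≥0∞) := by
            rw [ENNReal.tsum_sigma']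
        _ ≤ ∑' _b : box d, ((3 ^ (d + 2) : ℕ) : ℝ≥0∞) ^ n :=
            ENNReal.tsum_le_tsum (fun b => ih (s + b.1))
        _ = ((3 ^ (d + 2) : ℕ) : ℝ≥0∞) ^ (n + 1) := by
            rw [tsum_fintype, Finset.sum_const, Finset.card_univ, Fintype.card_coe, card_box,
              nsmul_eq_mul, pow_succ _ n, mul_comm]

lemma Y_le {g : ℕ → ℝ≥0∞} {κ : ℝ≥0∞} (h : Ok g κ) (s : V (d + 2)) (n : ℕ) :
    Y g s n ≤ ((3 ^ (d + 2) : ℕ) : ℝ≥0∞) ^ n := by
  refine le_trans ?_ (cnt_le n s)
  unfold Y cnt
  exact ENNReal.tsum_le_tsum (fun l => w_le_one h _)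

end Pool.Agent.R651.CP
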