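import Pool.Agent.R651.CP.P_LM1

set_option autoImplicit false

open scoped ENNReal Topology
open Filter

namespace Pool.Agent.R651.CP

lemma real_A {y : ℕ → ℝ} {μ c K : ℝ} {M : ℕ} (hM : 2 ≤ M)
    (hμ : ∀ ε : ℝ, 0 < ε → ∃ᶠ n : ℕ in atTop, y n < n * (μ + ε))
    (h : ∀ k r : ℕ, 1 ≤ k → r < M → k * c ≤ K + y (k * M - 2 + r)) : c ≤ M * μ := by
  by_contra hc
  push Not at hc
  have hM0 : (0 : ℝ) < M := by exact_mod_cast (by omega : 0 < M)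
  set ε : ℝ := (c - M * μ) / (2 * M) with hε
  have hε0 : 0 < ε := by rw [hε]; apply div_pos <;> linarith
  have hMε : M * ε = (c - M * μ) / 2 := by rw [hε]; field_simp
  set δ : ℝ := (c - M * μ) / 2 with hδ
  have hδ0 : 0 < δ := by rw [hδ]; linarith
  obtain ⟨k0, hk0⟩ := exists_nat_gt ((K + (M + 2) * |μ + ε|) / δ)
  rw [div_lt_iff₀ hδ0] at hk0
  obtain ⟨n, hn, hyn⟩ := (frequently_atTop.mp (hμ ε hε0)) ((k0 + 1) * M)
  have hk : k0 + 1 ≤ (n + 2) / M := by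
    rw [Nat.le_div_iff_mul_le (by omega)]
    omega
  have hr : (n + 2) % M < M := Nat.mod_lt _ (by omega)
  have hdm : (n + 2) / M * M + (n + 2) % M = n + 2 := by
    rw [mul_comm]; exact Nat.div_add_mod _ _
  set k := (n + 2) / M with hkdef
  set r := (n + 2) % M with hrdef
  have hkM : 2 ≤ k * M := le_trans hM (Nat.le_mul_of_pos_left _ (by omega))
  have h1 := h k r (by omega) hr
  rw [show k * M - 2 + r = n by omega] at h1
  have h2 : (n : ℝ) = k * M + r - 2 := by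
    have : ((k * M + r : ℕ) : ℝ) = ((n + 2 : ℕ) : ℝ) := by exact_mod_cast hdm
    push_cast at this
    linarith
  have hr' : (r : ℝ) ≤ M := by exact_mod_cast hr.le
  have hr0 : (0 : ℝ) ≤ r := by positivity
  have h3 : ((r : ℝ) - 2) * (μ + ε) ≤ (M + 2) * |μ + ε| := by
    calc ((r : ℝ) - 2) * (μ + ε) ≤ |((r : ℝ) - 2) * (μ + ε)| := le_abs_self _
      _ = |(r : ℝ) - 2| * |μ + ε| := abs_mul _ _
      _ ≤ (M + 2) * |μ + ε| := by
        refine mul_le_mul_of_nonneg_right ?_ (abs_nonneg _)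
        rw [abs_le]
        constructor <;> linarith
  have h4 : (k : ℝ) * c < K + (k * M + r - 2) * (μ + ε) := by
    rw [← h2]; linarith
  have h5 : (k : ℝ) * (c - M * (μ + ε)) < K + (M + 2) * |μ + ε| := by nlinarith
  have h6 : c - M * (μ + ε) = δ := by rw [mul_add, hMε, hδ]; ring
  rw [h6] at h5
  have h7 : (k0 : ℝ) * δ ≤ k * δ := by
    refine mul_le_mul_of_nonneg_right ?_ hδ0.le
    exact_mod_cast (by omega : k0 ≤ k)
  linarith

lemma tendsto_err (B : ℝ) : Tendsto (fun n : ℕ => B * (Nat.sqrt n : ℝ) * (Real.log n + 1) / n)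
    atTop (𝓝 0) := by
  have h1 : Tendsto (fun x : ℝ => Real.log x / x ^ (1 / 2 : ℝ)) atTop (𝓝 0) :=
    (isLittleO_log_rpow_atTop (by norm_num : (0 : ℝ) < 1 / 2)).tendsto_div_nhds_zero
  have h2 : Tendsto (fun x : ℝ => 1 / x ^ (1 / 2 : ℝ)) atTop (𝓝 0) := by
    have := tendsto_rpow_neg_atTop (by norm_num : (0 : ℝ) < 1 / 2)
    refine this.congr' ?_
    filter_upwards [eventually_gt_atTop (0 : ℝ)] with x hx
    rw [Real.rpow_neg hx.le, ← one_div]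
  have h3 : Tendsto (fun n : ℕ => |B| * (Real.log (n : ℝ) / (n : ℝ) ^ (1 / 2 : ℝ) +
      1 / (n : ℝ) ^ (1 / 2 : ℝ))) atTop (𝓝 0) := by
    have := ((h1.add h2).comp tendsto_natCast_atTop_atTop).const_mul |B|
    simpa using this
  refine squeeze_zero_norm' ?_ h3
  filter_upwards [eventually_ge_atTop 1] with n hn
  have hn0 : (0 : ℝ) < n := by exact_mod_cast hn
  have hn1 : (1 : ℝ) ≤ n := by exact_mod_cast hn
  have hlog : 0 ≤ Real.log n := Real.log_nonneg hn1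
  have hs : (Nat.sqrt n : ℝ) ≤ (n : ℝ) ^ (1 / 2 : ℝ) := by
    rw [← Real.sqrt_eq_rpow]
    exact Real.nat_sqrt_le_real_sqrt
  have hp : (0 : ℝ) < (n : ℝ) ^ (1 / 2 : ℝ) := Real.rpow_pos_of_pos hn0 _
  have hpp : (n : ℝ) ^ (1 / 2 : ℝ) * (n : ℝ) ^ (1 / 2 : ℝ) = n := by
    rw [← Real.rpow_add hn0]; norm_num
  rw [Real.norm_eq_abs, abs_div, abs_mul, abs_mul, abs_of_pos hn0,
    abs_of_nonneg (by positivity : (0 : ℝ) ≤ (Nat.sqrt n : ℝ)),
    abs_of_nonneg (by positivity : (0 : ℝ) ≤ Real.log n + 1)]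
  rw [div_le_iff₀ hn0]
  calc |B| * (Nat.sqrt n : ℝ) * (Real.log n + 1)
      ≤ |B| * (n : ℝ) ^ (1 / 2 : ℝ) * (Real.log n + 1) := by gcongr
    _ = |B| * (Real.log (n : ℝ) / (n : ℝ) ^ (1 / 2 : ℝ) + 1 / (n : ℝ) ^ (1 / 2 : ℝ)) * n := by
      have e : |B| * (Real.log (n : ℝ) / (n : ℝ) ^ (1 / 2 : ℝ) + 1 / (n : ℝ) ^ (1 / 2 : ℝ)) * n =
          |B| * (Real.log (n : ℝ) / (n : ℝ) ^ (1 / 2 : ℝ) + 1 / (n : ℝ) ^ (1 / 2 : ℝ)) *
            ((n : ℝ) ^ (1 / 2 : ℝ) * (n : ℝ) ^ (1 / 2 : ℝ)) := by rw [hpp]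
      rw [e]
      generalize (n : ℝ) ^ (1 / 2 : ℝ) = z at hp
      field_simp

lemma bdd_of {y : ℕ → ℝ} {A : ℝ} (hA : ∀ n : ℕ, 1 ≤ n → |y n| ≤ A * n) :
    ∀ᶠ n : ℕ in atTop, |y n / n| ≤ A := by
  filter_upwards [eventually_ge_atTop 1] with n hn
  have hn0 : (0 : ℝ) < n := by exact_mod_cast hn
  rw [abs_div, abs_of_pos hn0, div_le_iff₀ hn0]
  exact hA n hn

lemma bdd_le {y : ℕ → ℝ} {A : ℝ} (hA : ∀ n : ℕ, 1 ≤ n → |y n| ≤ A * n) :
    IsBoundedUnder (· ≤ ·) atTop (fun n : ℕ => y n / n) :=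
  ⟨A, by
    rw [eventually_map]
    filter_upwards [bdd_of hA] with n hn
    exact (abs_le.mp hn).2⟩

lemma bdd_ge {y : ℕ → ℝ} {A : ℝ} (hA : ∀ n : ℕ, 1 ≤ n → |y n| ≤ A * n) :
    IsBoundedUnder (· ≥ ·) atTop (fun n : ℕ => y n / n) :=
  ⟨-A, by
    rw [eventually_map]
    filter_upwards [bdd_of hA] with n hn
    exact (abs_le.mp hn).1⟩

lemma real_freq {y : ℕ → ℝ} {A : ℝ} (hA : ∀ n : ℕ, 1 ≤ n → |y n| ≤ A * n) (ε : ℝ) (hε : 0 < ε) :
    ∃ᶠ n : ℕ in atTop, y n < n * (liminf (fun n : ℕ => y n / n) atTop + ε) := by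
  have h1 : ∃ᶠ n : ℕ in atTop, y n / n < liminf (fun n : ℕ => y n / n) atTop + ε :=
    frequently_lt_of_liminf_lt ((bdd_le hA).isCoboundedUnder_ge) (by linarith)
  refine (h1.and_eventually (eventually_ge_atTop 1)).mono ?_
  rintro n ⟨hn, hn1⟩
  have hn0 : (0 : ℝ) < n := by exact_mod_cast hn1
  rw [div_lt_iff₀ hn0] at hn
  linarith

lemma real_B {y : ℕ → ℝ} {A B μ : ℝ} (hA : ∀ n : ℕ, 1 ≤ n → |y n| ≤ A * n)
    (hμ : μ = liminf (fun n : ℕ => y n / n) atTop)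
    (h : ∀ n : ℕ, 1 ≤ n → y n ≤ n * μ + B * (Nat.sqrt n : ℝ) * (Real.log n + 1)) :
    Tendsto (fun n : ℕ => y n / n) atTop (𝓝 μ) := by
  have h1 : Tendsto (fun n : ℕ => μ + B * (Nat.sqrt n : ℝ) * (Real.log n + 1) / n) atTop
      (𝓝 μ) := by
    simpa using (tendsto_err B).const_add μ
  refine tendsto_of_le_liminf_of_limsup_le hμ.le ?_ (bdd_le hA) (bdd_ge hA)
  rw [← h1.limsup_eq]
  refine limsup_le_limsup ?_ ((bdd_ge hA).isCoboundedUnder_le) h1.isBoundedUnder_le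
  filter_upwards [eventually_ge_atTop 1] with n hn
  have hn0 : (0 : ℝ) < n := by exact_mod_cast hn
  rw [div_le_iff₀ hn0, add_mul, div_mul_cancel₀ _ hn0.ne']
  linarith [h n hn]

end Pool.Agent.R651.CP
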