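import Pool.Agent.R651.CP.P_LM2

set_option autoImplicit false

open scoped ENNReal Topology
open Filter

namespace Pool.Agent.R651.CP

variable {d : ℕ} {g : ℕ → ℝ≥0∞} {κ : ℝ≥0∞}

lemma kappa_ne_top (h : Ok g κ) : κ ≠ ⊤ := ne_top_of_le_ne_top ENNReal.one_ne_top h.κ1

lemma kappa_pos (h : Ok g κ) : 0 < κ.toReal := ENNReal.toReal_pos h.κ0 (kappa_ne_top h)

lemma Y_ne_top (h : Ok g κ) (s : V (d + 2)) (n : ℕ) : Y g s n ≠ ⊤ := by
  refine ne_top_of_le_ne_top ?_ (Y_le h s n)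
  exact ENNReal.pow_ne_top (ENNReal.natCast_ne_top _)

lemma Y_ne_zero (h : Ok g κ) (s : V (d + 2)) {n : ℕ} (hn : 1 ≤ n) : Y g s n ≠ 0 := by
  have h1 := pow_le_Y h s n hn
  have h2 : κ ^ n ≠ 0 := pow_ne_zero _ h.κ0
  exact (lt_of_lt_of_le (pos_iff_ne_zero.mpr h2) h1).ne'

lemma Y_pos (h : Ok g κ) (s : V (d + 2)) {n : ℕ} (hn : 1 ≤ n) : 0 < (Y g s n).toReal :=
  ENNReal.toReal_pos (Y_ne_zero h s hn) (Y_ne_top h s n)

lemma abs_log_Y (h : Ok g κ) (s : V (d + 2)) {n : ℕ} (hn : 1 ≤ n) :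
    |Real.log (Y g s n).toReal| ≤
      (|Real.log κ.toReal| + Real.log ((3 ^ (d + 2) : ℕ) : ℝ)) * n := by
  have hC : (1 : ℝ) ≤ ((3 ^ (d + 2) : ℕ) : ℝ) := by exact_mod_cast Nat.one_le_pow _ _ (by norm_num)
  have hlC := Real.log_nonneg hC
  have h1 : (κ.toReal) ^ n ≤ (Y g s n).toReal := by
    rw [← ENNReal.toReal_pow]
    exact ENNReal.toReal_mono (Y_ne_top h s n) (pow_le_Y h s n hn)
  have h2 : (Y g s n).toReal ≤ ((3 ^ (d + 2) : ℕ) : ℝ) ^ n := by
    have := ENNReal.toReal_mono (ENNReal.pow_ne_top (ENNReal.natCast_ne_top _)) (Y_le h s n)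
    rwa [ENNReal.toReal_pow, ENNReal.toReal_natCast] at this
  have h3 : n * Real.log κ.toReal ≤ Real.log (Y g s n).toReal := by
    rw [← Real.log_pow]
    exact Real.log_le_log (pow_pos (kappa_pos h) _) h1
  have h4 : Real.log (Y g s n).toReal ≤ n * Real.log ((3 ^ (d + 2) : ℕ) : ℝ) := by
    rw [← Real.log_pow]
    exact Real.log_le_log (Y_pos h s hn) h2
  have hn0 : (0 : ℝ) ≤ n := by positivity
  have h5 := neg_abs_le (Real.log κ.toReal)
  have h6 := abs_nonneg (Real.log κ.toReal)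
  rw [abs_le]
  constructor
  · nlinarith
  · nlinarith

/-- The exponential growth rate (lower). -/
noncomputable def muY (g : ℕ → ℝ≥0∞) (d : ℕ) : ℝ :=
  liminf (fun n : ℕ => Real.log (Y g (0 : V (d + 2)) n).toReal / n) atTop

/-- The growth factor. -/
noncomputable def EY (g : ℕ → ℝ≥0∞) (d : ℕ) : ℝ≥0∞ := ENNReal.ofReal (Real.exp (muY g d))

lemma EY_toReal : (EY g d).toReal = Real.exp (muY g d) :=
  ENNReal.toReal_ofReal (Real.exp_pos _).le

lemma EY_ne_top : EY g d ≠ ⊤ := ENNReal.ofReal_ne_top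

lemma EY_ne_zero : EY g d ≠ 0 := by
  unfold EY
  rw [ne_eq, ENNReal.ofReal_eq_zero, not_le]
  exact Real.exp_pos _

lemma cl_le (hCL : S_closed) (h : Ok g κ) {N : ℕ} (hN : 1 ≤ N) :
    κ ^ 2 * Cl g (0 : V (d + 2)) N ≤ (N : ℝ≥0∞) ^ 2 * EY g d ^ (N + 2) := by
  set c := Cl g (0 : V (d + 2)) N with hc
  have hN0 : (0 : ℝ) < N := by exact_mod_cast hN
  have hfin : c ≠ ⊤ := by
    intro htop
    have h1 := hCL d g κ h (0 : V (d + 2)) N 1 0 hN le_rfl
    rw [← hc, htop] at h1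
    have h2 : κ ^ (2 * 1 + 0) * (⊤ : ℝ≥0∞) ^ 1 = ⊤ := by
      rw [pow_one]
      exact ENNReal.mul_top (pow_ne_zero _ h.κ0)
    rw [h2, top_le_iff] at h1
    exact ENNReal.mul_ne_top (ENNReal.pow_ne_top (ENNReal.natCast_ne_top _)) (Y_ne_top h _ _) h1
  rcases eq_or_ne c 0 with h0 | h0
  · rw [h0]; simp
  have hcp : 0 < c.toReal := ENNReal.toReal_pos h0 hfin
  have hκp := kappa_pos h
  have key : 2 * Real.log κ.toReal + Real.log c.toReal - 2 * Real.log N ≤
      ((N + 2 : ℕ) : ℝ) * muY g d := by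
    refine real_A (y := fun n => Real.log (Y g (0 : V (d + 2)) n).toReal)
      (K := (N + 2) * |Real.log κ.toReal|) (by omega)
      (real_freq (fun n hn => abs_log_Y h (0 : V (d + 2)) hn)) ?_
    intro k r hk hr
    have h1 := hCL d g κ h (0 : V (d + 2)) N k r hN hk
    rw [← hc] at h1
    have hidx : 1 ≤ k * (N + 2) - 2 + r := by
      have : 1 * (N + 2) ≤ k * (N + 2) := Nat.mul_le_mul_right _ hk
      omega
    have h2 := ENNReal.toReal_mono (ENNReal.mul_ne_top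
      (ENNReal.pow_ne_top (ENNReal.natCast_ne_top _)) (Y_ne_top h _ _)) h1
    rw [ENNReal.toReal_mul, ENNReal.toReal_mul, ENNReal.toReal_pow, ENNReal.toReal_pow,
      ENNReal.toReal_pow, ENNReal.toReal_natCast] at h2
    have h3 := Real.log_le_log (by positivity) h2
    have hYp := Y_pos h (0 : V (d + 2)) hidx
    rw [Real.log_mul (by positivity) (by positivity), Real.log_mul (by positivity) hYp.ne',
      Real.log_pow, Real.log_pow, Real.log_pow] at h3
    push_cast at h3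
    have h5 := neg_abs_le (Real.log κ.toReal)
    have h6 := abs_nonneg (Real.log κ.toReal)
    have hr' : (r : ℝ) ≤ N + 2 := by exact_mod_cast hr.le
    have hr0 : (0 : ℝ) ≤ r := by positivity
    have h7 : -(r * Real.log κ.toReal) ≤ (N + 2) * |Real.log κ.toReal| := by nlinarith
    nlinarith
  have key2 : κ.toReal ^ 2 * c.toReal ≤ (N : ℝ) ^ 2 * Real.exp (muY g d) ^ (N + 2) := by
    rw [← Real.log_le_log_iff (by positivity) (by positivity), Real.log_mul (by positivity)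
      (by positivity), Real.log_mul (by positivity) (by positivity), Real.log_pow, Real.log_pow,
      Real.log_pow, Real.log_exp]
    push_cast at key ⊢
    linarith
  rw [← ENNReal.toReal_le_toReal (ENNReal.mul_ne_top (ENNReal.pow_ne_top (kappa_ne_top h)) hfin)
    (ENNReal.mul_ne_top (ENNReal.pow_ne_top (ENNReal.natCast_ne_top _))
      (ENNReal.pow_ne_top EY_ne_top))]
  rw [ENNReal.toReal_mul, ENNReal.toReal_mul, ENNReal.toReal_pow, ENNReal.toReal_pow,
    ENNReal.toReal_pow, ENNReal.toReal_natCast, EY_toReal]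
  exact key2

end Pool.Agent.R651.CP
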