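import Pool.Agent.R651.CP.P_LM3

set_option autoImplicit false

open scoped ENNReal Topology
open Filter

namespace Pool.Agent.R651.CP

variable {d : ℕ} {g : ℕ → ℝ≥0∞} {κ : ℝ≥0∞}

/-- The bound on all lengths. -/
def TT (R : ℕ) : ℕ := 12 * (4 * R + 2) * (R + 1)

/-- The factor for each piece. -/
noncomputable def QQ (E κ : ℝ≥0∞) (R : ℕ) : ℝ≥0∞ :=
  (κ⁻¹ * (1 + E)) ^ 3 * ((2 * TT R ^ 3 : ℕ) : ℝ≥0∞)

lemma one_le_kinv (h : Ok g κ) (E : ℝ≥0∞) : 1 ≤ κ⁻¹ * (1 + E) := by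
  have h1 : 1 ≤ κ⁻¹ := ENNReal.one_le_inv.mpr h.κ1
  calc (1 : ℝ≥0∞) = 1 * 1 := (one_mul 1).symm
    _ ≤ κ⁻¹ * (1 + E) := mul_le_mul' h1 le_self_add

lemma TT_pos (R : ℕ) : 1 ≤ TT R := by
  unfold TT
  exact Nat.one_le_iff_ne_zero.mpr (by positivity)

lemma one_le_QQ (h : Ok g κ) (E : ℝ≥0∞) (R : ℕ) : 1 ≤ QQ E κ R := by
  unfold QQ
  have h1 : (1 : ℝ≥0∞) ≤ ((2 * TT R ^ 3 : ℕ) : ℝ≥0∞) := by
    have : 1 ≤ 2 * TT R ^ 3 := by
      have := Nat.one_le_pow 3 _ (TT_pos R)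
      omega
    exact_mod_cast this
  calc (1 : ℝ≥0∞) = 1 * 1 := (one_mul 1).symm
    _ ≤ _ := mul_le_mul' (one_le_pow₀ (one_le_kinv h E)) h1

lemma fs_le (hCL : S_closed) (hML : S_merge) (hSL : S_slab) (h : Ok g κ) {L R : ℕ} (hL : 1 ≤ L)
    (D : List (V (d + 2) × V (d + 2) × ℕ)) (hD : D ≠ []) (hA : ∀ p ∈ D, Adm L R p)
    (htot : totD D ≤ R) (hlen : D.length ≤ R) :
    FS g (D.map (fun p => IsS L p.1 p.2.1 p.2.2)) ≤
      EY g d ^ totD D * QQ (EY g d) κ R ^ D.length := by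
  set E := EY g d with hE
  set m := 4 * R + 2 with hm
  obtain ⟨sp, X, hne, hJ, hpos, htl, hX, hle⟩ := hSL d g κ h L R m hL (by omega) D hD hA
  have hML' := hML d g κ h sp hne hpos
  set F := FS g (D.map (fun p => IsS L p.1 p.2.1 p.2.2)) with hF
  set G := FS g (sp.map (fun q => IsL q.1 q.2)) with hG
  set K := D.length with hK
  set J := sp.length with hJdef
  have hK1 : 1 ≤ K := List.length_pos_iff.mpr hD
  have hT : TT R = 12 * m * (R + 1) := by unfold TT; rw [hm]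
  have htl1 : 1 ≤ totL sp := by
    cases sp with
    | nil => exact absurd rfl hne
    | cons q t =>
      have := hpos q (by simp)
      unfold totL
      simp only [List.map_cons, List.sum_cons]
      omega
  have hmK : m * K ≤ m * R := Nat.mul_le_mul_left _ hlen
  have hmt : m * totD D ≤ m * R := Nat.mul_le_mul_left _ htot
  have hmK1 : 1 ≤ m * K := Nat.one_le_iff_ne_zero.mpr (by positivity)
  have hJ' : J ≤ 2 * (m * K) := by rw [← mul_assoc]; exact hJ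
  have hX' : X ≤ 4 * (m * K) := by
    rw [← mul_assoc, hm]; exact hX
  have htl' : totL sp = 4 * (m * totD D) + X := by rw [htl]; ring
  have hTb : totL sp + 2 * J + 1 ≤ TT R := by
    rw [hT, show 12 * m * (R + 1) = 12 * (m * R) + 12 * m by ring]
    have : 1 ≤ m := by omega
    omega
  have hTb' : ((2 * (totL sp + 2 * J) ^ 3 : ℕ) : ℝ≥0∞) ≤ ((2 * TT R ^ 3 : ℕ) : ℝ≥0∞) := by
    have : 2 * (totL sp + 2 * J) ^ 3 ≤ 2 * TT R ^ 3 :=
      Nat.mul_le_mul_left _ (Nat.pow_le_pow_left (by omega) _)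
    exact_mod_cast this
  have hκt := kappa_ne_top h
  -- each closed sum
  have hterm : ∀ i ∈ Finset.range (2 * J + 1),
      κ ^ 2 * Cl g (0 : V (d + 2)) (totL sp + i) ≤
        ((TT R : ℕ) : ℝ≥0∞) ^ 2 * (E ^ (4 * (m * totD D)) * (1 + E) ^ (X + 2 * J + 2)) := by
    intro i hi
    rw [Finset.mem_range] at hi
    refine (cl_le hCL h (by omega : 1 ≤ totL sp + i)).trans ?_
    refine mul_le_mul' ?_ ?_
    · exact pow_le_pow_left' (by exact_mod_cast (by omega : totL sp + i ≤ TT R)) 2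
    · rw [htl', show 4 * (m * totD D) + X + i + 2 = 4 * (m * totD D) + (X + i + 2) by ring, pow_add]
      refine mul_le_mul' le_rfl ?_
      calc E ^ (X + i + 2) ≤ (1 + E) ^ (X + i + 2) := pow_le_pow_left' le_add_self _
        _ ≤ (1 + E) ^ (X + 2 * J + 2) := pow_le_pow_right₀ le_self_add (by omega)
  have hsum : κ ^ 2 * ∑ i ∈ Finset.range (2 * J + 1), Cl g (0 : V (d + 2)) (totL sp + i) ≤
      ((2 * TT R ^ 3 : ℕ) : ℝ≥0∞) * (E ^ (4 * (m * totD D)) * (1 + E) ^ (X + 2 * J + 2)) := by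
    rw [Finset.mul_sum]
    refine (Finset.sum_le_sum hterm).trans ?_
    rw [Finset.sum_const, Finset.card_range, nsmul_eq_mul, ← mul_assoc]
    refine mul_le_mul' ?_ le_rfl
    have : (2 * J + 1) * TT R ^ 2 ≤ 2 * TT R ^ 3 := by
      calc (2 * J + 1) * TT R ^ 2 ≤ TT R * TT R ^ 2 := Nat.mul_le_mul_right _ (by omega)
        _ ≤ 2 * TT R ^ 3 := by nlinarith [Nat.zero_le (TT R ^ 3)]
    exact_mod_cast this
  set p := X + 2 * J + 2 with hp
  have hmain : κ ^ p * F ^ (4 * m) ≤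
      ((2 * TT R ^ 3 : ℕ) : ℝ≥0∞) ^ (J + 1) * (E ^ (4 * (m * totD D)) * (1 + E) ^ p) := by
    calc κ ^ p * F ^ (4 * m) = κ ^ 2 * (κ ^ (2 * J) * (κ ^ X * F ^ (4 * m))) := by
          rw [hp]; ring
      _ ≤ κ ^ 2 * (κ ^ (2 * J) * G) := by gcongr
      _ ≤ κ ^ 2 * (((2 * (totL sp + 2 * J) ^ 3 : ℕ) : ℝ≥0∞) ^ J *
            ∑ i ∈ Finset.range (2 * J + 1), Cl g (0 : V (d + 2)) (totL sp + i)) := by gcongr
      _ ≤ κ ^ 2 * (((2 * TT R ^ 3 : ℕ) : ℝ≥0∞) ^ J *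
            ∑ i ∈ Finset.range (2 * J + 1), Cl g (0 : V (d + 2)) (totL sp + i)) :=
          mul_le_mul' le_rfl (mul_le_mul' (pow_le_pow_left' hTb' J) le_rfl)
      _ = ((2 * TT R ^ 3 : ℕ) : ℝ≥0∞) ^ J * (κ ^ 2 *
            ∑ i ∈ Finset.range (2 * J + 1), Cl g (0 : V (d + 2)) (totL sp + i)) := by ring
      _ ≤ ((2 * TT R ^ 3 : ℕ) : ℝ≥0∞) ^ J * (((2 * TT R ^ 3 : ℕ) : ℝ≥0∞) *
            (E ^ (4 * (m * totD D)) * (1 + E) ^ p)) := mul_le_mul' le_rfl hsum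
      _ = _ := by ring
  have hκc : (κ⁻¹) ^ p * κ ^ p = 1 := by
    rw [← mul_pow, ENNReal.inv_mul_cancel h.κ0 hκt, one_pow]
  have hW1 : (1 : ℝ≥0∞) ≤ ((2 * TT R ^ 3 : ℕ) : ℝ≥0∞) := by
    have : 1 ≤ 2 * TT R ^ 3 := by
      have := Nat.one_le_pow 3 _ (TT_pos R)
      omega
    exact_mod_cast this
  have hfinal : F ^ (4 * m) ≤ (E ^ totD D * QQ E κ R ^ K) ^ (4 * m) := by
    calc F ^ (4 * m) = (κ⁻¹) ^ p * (κ ^ p * F ^ (4 * m)) := by
          rw [← mul_assoc, hκc, one_mul]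
      _ ≤ (κ⁻¹) ^ p * (((2 * TT R ^ 3 : ℕ) : ℝ≥0∞) ^ (J + 1) *
            (E ^ (4 * (m * totD D)) * (1 + E) ^ p)) := mul_le_mul' le_rfl hmain
      _ = (κ⁻¹ * (1 + E)) ^ p * ((2 * TT R ^ 3 : ℕ) : ℝ≥0∞) ^ (J + 1) *
            E ^ (4 * (m * totD D)) := by rw [mul_pow]; ring
      _ ≤ (κ⁻¹ * (1 + E)) ^ (3 * (4 * (m * K))) *
            ((2 * TT R ^ 3 : ℕ) : ℝ≥0∞) ^ (4 * (m * K)) * E ^ (4 * (m * totD D)) := by
          refine mul_le_mul' (mul_le_mul' ?_ ?_) le_rfl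
          · exact pow_le_pow_right₀ (one_le_kinv h E) (by omega)
          · exact pow_le_pow_right₀ hW1 (by omega)
      _ = (E ^ totD D * QQ E κ R ^ K) ^ (4 * m) := by
          unfold QQ
          rw [pow_mul, ← mul_pow, mul_pow (E ^ totD D), ← pow_mul, ← pow_mul, mul_comm]
          congr 1
          · congr 1; ring
          · congr 1; ring
  exact (ENNReal.pow_le_pow_left_iff (by omega)).mp hfinal

end Pool.Agent.R651.CP
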