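import Pool.Agent.R651.CP.P_LM4

set_option autoImplicit false

open scoped ENNReal Topology
open Filter

namespace Pool.Agent.R651.CP

variable {d : ℕ} {g : ℕ → ℝ≥0∞} {κ : ℝ≥0∞}

lemma QQ_ne_top (h : Ok g κ) (R : ℕ) : QQ (EY g d) κ R ≠ ⊤ := by
  unfold QQ
  refine ENNReal.mul_ne_top (ENNReal.pow_ne_top (ENNReal.mul_ne_top ?_ ?_))
    (ENNReal.natCast_ne_top _)
  · exact ENNReal.inv_ne_top.mpr h.κ0
  · exact ENNReal.add_ne_top.mpr ⟨ENNReal.one_ne_top, EY_ne_top⟩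

lemma one_add_EY : (1 + EY g d).toReal = 1 + Real.exp (muY g d) := by
  rw [ENNReal.toReal_add ENNReal.one_ne_top EY_ne_top, EY_toReal, ENNReal.toReal_one]

lemma QQ_toReal (R : ℕ) : (QQ (EY g d) κ R).toReal =
    (κ.toReal⁻¹ * (1 + Real.exp (muY g d))) ^ 3 * ((2 * TT R ^ 3 : ℕ) : ℝ) := by
  unfold QQ
  rw [ENNReal.toReal_mul, ENNReal.toReal_pow, ENNReal.toReal_mul, ENNReal.toReal_inv, one_add_EY,
    ENNReal.toReal_natCast]

lemma Y_dec (hCL : S_closed) (hML : S_merge) (hSL : S_slab) (hDB : S_dec) (h : Ok g κ) {n L : ℕ}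
    (hL : 1 ≤ L) (hn : 1 ≤ n) :
    κ ^ (2 * L) * Y g (0 : V (d + 2)) n ≤
      (((4 * (n + 2 * L) + 4 : ℕ) : ℝ≥0∞) ^ (2 * d + 10) * QQ (EY g d) κ (n + 2 * L)) ^
        (n / L + 4) * (1 + EY g d) ^ (2 * L) * EY g d ^ n := by
  refine hDB d g κ h (EY g d) (QQ (EY g d) κ (n + 2 * L)) n L hL hn (one_le_QQ h _ _) ?_
  intro D hD hA htot hlen
  refine fs_le hCL hML hSL h hL D hD hA htot (hlen.trans ?_)
  have := Nat.div_le_self n L
  omega

lemma log_Y_dec (hCL : S_closed) (hML : S_merge) (hSL : S_slab) (hDB : S_dec) (h : Ok g κ)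
    {n L : ℕ} (hL : 1 ≤ L) (hn : 1 ≤ n) :
    2 * L * Real.log κ.toReal + Real.log (Y g (0 : V (d + 2)) n).toReal ≤
      ((n / L + 4 : ℕ) : ℝ) * ((2 * d + 10 : ℕ) * Real.log ((4 * (n + 2 * L) + 4 : ℕ) : ℝ) +
        (3 * (-Real.log κ.toReal + Real.log (1 + Real.exp (muY g d))) +
          Real.log ((2 * TT (n + 2 * L) ^ 3 : ℕ) : ℝ))) +
      2 * L * Real.log (1 + Real.exp (muY g d)) + n * muY g d := by
  have h1 := Y_dec (d := d) hCL hML hSL hDB h hL hn
  have hQt := QQ_ne_top (d := d) h (n + 2 * L)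
  have hEt := EY_ne_top (d := d) (g := g)
  have h2 := ENNReal.toReal_mono (ENNReal.mul_ne_top (ENNReal.mul_ne_top (ENNReal.pow_ne_top
    (ENNReal.mul_ne_top (ENNReal.pow_ne_top (ENNReal.natCast_ne_top _)) hQt))
      (ENNReal.pow_ne_top (ENNReal.add_ne_top.mpr ⟨ENNReal.one_ne_top, hEt⟩)))
        (ENNReal.pow_ne_top hEt)) h1
  rw [ENNReal.toReal_mul, ENNReal.toReal_mul, ENNReal.toReal_mul, ENNReal.toReal_pow,
    ENNReal.toReal_pow, ENNReal.toReal_mul, ENNReal.toReal_pow, ENNReal.toReal_pow,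
    ENNReal.toReal_pow, QQ_toReal, one_add_EY, EY_toReal, ENNReal.toReal_natCast] at h2
  have hκ := kappa_pos h
  have hY := Y_pos h (0 : V (d + 2)) hn
  have hT : (0 : ℝ) < ((2 * TT (n + 2 * L) ^ 3 : ℕ) : ℝ) := by
    have := Nat.one_le_pow 3 _ (TT_pos (n + 2 * L))
    exact_mod_cast (by omega : 0 < 2 * TT (n + 2 * L) ^ 3)
  have hR : (0 : ℝ) < ((4 * (n + 2 * L) + 4 : ℕ) : ℝ) := by exact_mod_cast (by omega)
  have hexp := Real.exp_pos (muY g d)
  have h1e : 0 < 1 + Real.exp (muY g d) := by linarith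
  have h3 := Real.log_le_log (by positivity) h2
  rw [Real.log_mul (by positivity) hY.ne', Real.log_pow, Real.log_mul (by positivity)
    (by positivity), Real.log_mul (by positivity) (by positivity), Real.log_pow, Real.log_pow,
    Real.log_pow, Real.log_exp, Real.log_mul (by positivity) (by positivity), Real.log_pow,
    Real.log_mul (by positivity) hT.ne', Real.log_pow, Real.log_mul (by positivity) h1e.ne',
    Real.log_inv] at h3
  push_cast at h3 ⊢
  linarith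

end Pool.Agent.R651.CP
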