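import Pool.Agent.R651.CP.Defs

/-!
# Existence of the annealed free energy of a charged polymer: exact statements of the pieces
-/

set_option autoImplicit false

open scoped ENNReal Topology
open Filter MeasureTheory

namespace Pool.Agent.R651.CP

/-! ### FS: facts on sums over families -/

/-- Piece FS1: invariance under permutations. -/
def S_FSperm : Prop := ∀ (d : ℕ) (g : ℕ → ℝ≥0∞) (ps qs : List (List (V d) → Prop)),
  ps.Perm qs → FS g ps = FS g qs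

/-- Piece FS2: independence for disjoint supports. -/
def S_FSappend : Prop := ∀ (d : ℕ) (g : ℕ → ℝ≥0∞) (ps qs : List (List (V d) → Prop)),
  (∀ P ∈ ps, ∀ Q ∈ qs, ∀ l l', P l → Q l' → ∀ x ∈ l, x ∉ l') → FS g (ps ++ qs) = FS g ps * FS g qs

/-! ### CL: closed loops bounded by open walks -/

/-- Piece CL: insert loop into loop `k` times. -/
def S_closed : Prop := ∀ (d : ℕ) (g : ℕ → ℝ≥0∞) (κ : ℝ≥0∞), Ok g κ →
  ∀ (s : V (d + 2)) (N k r : ℕ), 1 ≤ N → 1 ≤ k →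
    κ ^ (2 * k + r) * (Cl g s N) ^ k ≤ (N : ℝ≥0∞) ^ (2 * k) * Y g s (k * (N + 2) - 2 + r)

/-! ### ML: merging a family of loops into one loop -/

/-- The total length of a list of loop data `(head, length)`. -/
def totL {d : ℕ} (ls : List (V (d + 2) × ℕ)) : ℕ := (ls.map (fun p => p.2)).sum

/-- Piece ML. -/
def S_merge : Prop := ∀ (d : ℕ) (g : ℕ → ℝ≥0∞) (κ : ℝ≥0∞), Ok g κ →
  ∀ (ls : List (V (d + 2) × ℕ)), ls ≠ [] → (∀ p ∈ ls, 1 ≤ p.2) →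
    κ ^ (2 * ls.length) * FS g (ls.map (fun p => IsL p.1 p.2)) ≤
      ((2 * (totL ls + 2 * ls.length) ^ 3 : ℕ) : ℝ≥0∞) ^ ls.length *
        ∑ i ∈ Finset.range (2 * ls.length + 1), Cl g (0 : V (d + 2)) (totL ls + i)

/-! ### The slab lemma -/

/-- A walk inside the slab `1 ≤ x_0 ≤ L`. -/
def IsS {d : ℕ} (L : ℕ) (a b : V (d + 2)) (n : ℕ) (l : List (V (d + 2))) : Prop :=
  IsW a b n l ∧ ∀ x ∈ l, 1 ≤ x 0 ∧ x 0 ≤ L

/-- Admissible data of one piece in the slab. -/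
structure Adm {d : ℕ} (L R : ℕ) (p : V (d + 2) × V (d + 2) × ℕ) : Prop where
  pos : 1 ≤ p.2.2
  len : p.2.2 ≤ R
  ha : p.1 0 = 1 ∨ p.1 0 = L
  hb : p.2.1 0 = 1 ∨ p.2.1 0 = L
  hR : |p.1 1| ≤ R

/-- A ring of `4m` disjoint copies of the slab; `conn k e` connects the copies `k` and `k+1` of
the boundary point `e` (right boundary for even `k`, left boundary for odd `k`). -/
structure Ring {d : ℕ} (L R m H : ℕ) (ψ : ℕ → V (d + 2) → V (d + 2))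
    (conn : ℕ → V (d + 2) → List (V (d + 2))) : Prop where
  inj : ∀ k, Function.Injective (ψ k)
  adj : ∀ k x y, Adj x y → Adj (ψ k x) (ψ k y)
  dis : ∀ k k', k < 4 * m → k' < 4 * m → k ≠ k' → ∀ x y : V (d + 2),
    1 ≤ x 0 → x 0 ≤ L → |x 1| ≤ 2 * R → 1 ≤ y 0 → y 0 ≤ L → |y 1| ≤ 2 * R → ψ k x ≠ ψ k' y
  even : ∀ k, k < 4 * m → Even k → ∀ e : V (d + 2), e 0 = L → |e 1| ≤ 2 * R →
    (ψ k e :: (conn k e ++ [ψ ((k + 1) % (4 * m)) e])).IsChain Adj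
  odd : ∀ k, k < 4 * m → ¬ Even k → ∀ e : V (d + 2), e 0 = 1 → |e 1| ≤ 2 * R →
    (ψ k e :: (conn k e ++ [ψ ((k + 1) % (4 * m)) e])).IsChain Adj
  len : ∀ k e, (conn k e).length = if k = 2 * m - 1 ∨ k = 4 * m - 1 then H else 0

/-- Piece RG: the ring exists. -/
def S_ring : Prop := ∀ (d L R m : ℕ), 1 ≤ L → 1 ≤ m →
  ∃ (ψ : ℕ → V (d + 2) → V (d + 2)) (conn : ℕ → V (d + 2) → List (V (d + 2))),
    Ring L R m (4 * R + 2) ψ conn

/-- Piece PC: the `4m` copies of one piece are joined to at most `2m` loops. -/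
def S_piece : Prop := ∀ (d L R m H : ℕ), 1 ≤ L → 1 ≤ m →
  ∀ (ψ : ℕ → V (d + 2) → V (d + 2)) (conn : ℕ → V (d + 2) → List (V (d + 2))),
    Ring L R m H ψ conn → ∀ (a b : V (d + 2)) (n : ℕ), Adm L R (a, b, n) →
    ∃ (sp : List (V (d + 2) × ℕ)) (r : List (V (d + 2)))
      (LP : (Fin (4 * m) → List (V (d + 2))) → List (List (V (d + 2)))),
      sp ≠ [] ∧ sp.length ≤ 2 * m ∧ (∀ q ∈ sp, 1 ≤ q.2) ∧ totL sp = 4 * m * n + r.length ∧
      r.length ≤ 4 * H ∧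
      (∀ ls : Fin (4 * m) → List (V (d + 2)), (∀ k, IsS L a b n (ls k)) →
        List.Forall₂ (fun (q : V (d + 2) × ℕ) l => IsL q.1 q.2 l) sp (LP ls) ∧
        (LP ls).flatten.Perm ((List.ofFn (fun k : Fin (4 * m) => (ls k).map (ψ k))).flatten ++ r)) ∧
      (∀ ls ls' : Fin (4 * m) → List (V (d + 2)), (∀ k, IsS L a b n (ls k)) →
        (∀ k, IsS L a b n (ls' k)) → LP ls = LP ls' → ls = ls')

/-- The total length of slab data. -/
def totD {d : ℕ} (D : List (V (d + 2) × V (d + 2) × ℕ)) : ℕ := (D.map (fun p => p.2.2)).sum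

/-- Piece SL: the `4m`-th power of a slab sum is bounded by a sum over families of loops. -/
def S_slab : Prop := ∀ (d : ℕ) (g : ℕ → ℝ≥0∞) (κ : ℝ≥0∞), Ok g κ → ∀ (L R m : ℕ), 1 ≤ L → 1 ≤ m →
  ∀ D : List (V (d + 2) × V (d + 2) × ℕ), D ≠ [] → (∀ p ∈ D, Adm L R p) →
    ∃ (sp : List (V (d + 2) × ℕ)) (X : ℕ), sp ≠ [] ∧ sp.length ≤ 2 * m * D.length ∧
      (∀ q ∈ sp, 1 ≤ q.2) ∧ totL sp = 4 * m * totD D + X ∧ X ≤ 4 * (4 * R + 2) * D.length ∧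
      κ ^ X * (FS g (D.map (fun p => IsS L p.1 p.2.1 p.2.2))) ^ (4 * m) ≤
        FS g (sp.map (fun q => IsL q.1 q.2))

/-! ### The decomposition of a walk -/

/-- One part of a walk: it lies in the slab number `q` and starts and ends at its boundary. -/
structure Part {d : ℕ} (L : ℕ) (σ : ℤ) (l : List (V (d + 2))) : Prop where
  ne : l ≠ []
  chain : l.IsChain Adj
  slab : ∃ q : ℤ, (∀ x ∈ l, σ + q * L + 1 ≤ x 0 ∧ x 0 ≤ σ + (q + 1) * L) ∧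
    (∀ x ∈ l.head?, x 0 = σ + q * L + 1 ∨ x 0 = σ + (q + 1) * L) ∧
    (∀ x ∈ l.getLast?, x 0 = σ + q * L + 1 ∨ x 0 = σ + (q + 1) * L)

/-- Piece DA: cutting one walk. -/
def S_cut : Prop := ∀ (d n L : ℕ), 1 ≤ L → 1 ≤ n → ∀ l : List (V (d + 2)),
  l.length = n → l.IsChain Adj → l.head? = some 0 →
  ∃ (σ : ℕ) (u v : List (V (d + 2))) (P : List (List (V (d + 2)))), σ < L ∧ u.length < L ∧
    v.length < L ∧ u ++ l ++ v = P.flatten ∧ P.length ≤ n / L + 1 ∧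
    (∀ p ∈ P, Part L (σ : ℤ) p) ∧ (∀ x ∈ P.flatten, ∀ i, |x i| ≤ n + 2 * L)

/-- Piece DB: the decomposition of the partition function (from `S_cut`, `S_FSperm`,
`S_FSappend`). -/
def S_dec : Prop := ∀ (d : ℕ) (g : ℕ → ℝ≥0∞) (κ : ℝ≥0∞), Ok g κ → ∀ (E Q : ℝ≥0∞) (n L : ℕ),
  1 ≤ L → 1 ≤ n → 1 ≤ Q →
  (∀ D : List (V (d + 2) × V (d + 2) × ℕ), D ≠ [] → (∀ p ∈ D, Adm L (n + 2 * L) p) →
    totD D ≤ n + 2 * L → D.length ≤ n / L + 1 →
    FS g (D.map (fun p => IsS L p.1 p.2.1 p.2.2)) ≤ E ^ totD D * Q ^ D.length) →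
  κ ^ (2 * L) * Y g (0 : V (d + 2)) n ≤
    (((4 * (n + 2 * L) + 4 : ℕ) : ℝ≥0∞) ^ (2 * d + 10) * Q) ^ (n / L + 4) *
      (1 + E) ^ (2 * L) * E ^ n

/-! ### The final steps -/

/-- Piece LM (helper651): the limit. -/
def S_lim : Prop := ∀ (d : ℕ) (g : ℕ → ℝ≥0∞) (κ : ℝ≥0∞), Ok g κ →
  ∃ F : ℝ, Tendsto (fun n : ℕ => Real.log (Y g (0 : V (d + 2)) n).toReal / n) atTop (𝓝 F)

/-- The law of a tilted charge. -/
noncomputable def tilt (μ : Measure ℝ) (δ : ℝ) : Measure ℝ := μ.tilted (fun x => δ * x)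

/-- `g_{δ,β}(ℓ) = E^δ[exp(-β Ω_ℓ²)]`. -/
noncomputable def gg (μ : Measure ℝ) (δ β : ℝ) (n : ℕ) : ℝ :=
  ∫ ω : Fin n → ℝ, Real.exp (-β * (∑ i, ω i) ^ 2) ∂(Measure.pi (fun _ : Fin n => tilt μ δ))

/-- Piece CH: the function `g_{δ,β}` satisfies the standing assumptions. -/
def S_charge : Prop := ∀ (μ : Measure ℝ) [IsProbabilityMeasure μ] (δ β : ℝ), 0 ≤ δ → 0 < β →
  (∀ t : ℝ, Integrable (fun x => Real.exp (t * x)) μ) → ∫ x, x ∂μ = 0 → ∫ x, x ^ 2 ∂μ = 1 →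
  (∀ n, 0 < gg μ δ β n) ∧
  ∃ κ : ℝ≥0∞, Ok (fun n => ENNReal.ofReal (gg μ δ β n)) κ

/-- One step of simple random walk: plus or minus a unit vector. -/
def stepV {D : ℕ} (s : Fin D × Bool) : V D := fun i => if i = s.1 then (if s.2 then 1 else -1) else 0

/-- The position `S_{i+1}` of the walk with the steps `s`. -/
def pos {D n : ℕ} (s : Fin n → Fin D × Bool) (i : Fin n) : V D :=
  ∑ j ∈ Finset.univ.filter (fun j : Fin n => j ≤ i), stepV (s j)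

/-- The local time at `x`. -/
def loc {D n : ℕ} (s : Fin n → Fin D × Bool) (x : V D) : ℕ :=
  (Finset.univ.filter (fun i : Fin n => pos s i = x)).card

/-- The annealed partition function: the mean over the `(2D)^n` step sequences of
`∏_x g(ℓ_n(x))` (the product over the visited sites; `g(0) = 1`). -/
noncomputable def Z (D : ℕ) (g : ℕ → ℝ) (n : ℕ) : ℝ :=
  (1 / (2 * D : ℝ) ^ n) * ∑ s : Fin n → Fin D × Bool,
    ∏ x ∈ Finset.univ.image (pos s), g (loc s x)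

/-- Piece ZY: the partition function in terms of lists. -/
def S_ZY : Prop := ∀ (d : ℕ) (g : ℕ → ℝ), (∀ n, 0 ≤ g n) → ∀ n : ℕ, 1 ≤ n →
  ENNReal.ofReal (Z (d + 2) g n) * (2 * (d + 2 : ℕ) : ℝ≥0∞) ^ n =
    (2 * (d + 2 : ℕ) : ℝ≥0∞) * Y (fun k => ENNReal.ofReal (g k)) (0 : V (d + 2)) n

end Pool.Agent.R651.CP
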